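import Pool.Agent.RieszFive.Pow

set_option autoImplicit false

namespace Pool.Agent.RieszFive

open Real

namespace ExpoAux

/-- Two terms of the series of `log ((1+x)/(1-x))`. -/
theorem two_terms {x : ℝ} (h0 : 0 ≤ x) (h1 : x < 1) :
    2 * x + 2 * x ^ 3 / 3 ≤ Real.log (1 + x) - Real.log (1 - x) := by
  have hs := Real.hasSum_log_sub_log_of_abs_lt_one (x := x) (by rw [abs_of_nonneg h0]; exact h1)
  have h := sum_le_hasSum (Finset.range 2) (fun i _ => by positivity) hs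
  simp only [Finset.sum_range_succ, Finset.sum_range_zero] at h
  norm_num at h
  linarith

theorem neg_log_ge {r x : ℝ} (h0 : 0 ≤ x) (h1 : x < 1) (hr : r = (1 - x) / (1 + x)) :
    2 * x + 2 * x ^ 3 / 3 ≤ - Real.log r := by
  have h := two_terms h0 h1
  rw [hr, Real.log_div (by linarith) (by linarith)]
  linarith

end ExpoAux

/-- the same with `t` kept: `8 + 8 t z2 + 4 e^(-t)`. -/
theorem expo_bound_t {q z1 z2 : ℝ} (hq : 0 < q) (h0 : 0 ≤ z1) (h1 : z1 < 1) (h2 : 0 ≤ z2)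
    (h3 : z2 < 1) :
    8 + 8 * (q * z1) * z2 + 4 * Real.exp (-(q * z1))
      ≤ 8 * (1 - z1 * z2) ^ (-q) + 4 * (1 + z1) ^ (-q) := by
  have hz : z1 * z2 < 1 := by nlinarith
  have ha := rpow_tangent (q := q) (u := 1 - z1 * z2) (w := 1) hq (by linarith) one_pos
  rw [Real.one_rpow, Real.one_rpow] at ha
  have hb : Real.exp (-(q * z1)) ≤ (1 + z1) ^ (-q) := by
    rw [Real.rpow_def_of_pos (by linarith : (0 : ℝ) < 1 + z1)]
    apply Real.exp_le_exp.mpr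
    have hl : Real.log (1 + z1) ≤ z1 := by
      have := Real.log_le_sub_one_of_pos (by linarith : (0 : ℝ) < 1 + z1)
      linarith
    nlinarith
  nlinarith

/-- With `t = q z1`: `(1-z1z2)^(-q) ≥ 1 + t z2` (`rpow_tangent` at `1`), `(1+z1)^(-q) ≥ e^(-t)`
(`log (1+z1) ≤ z1`), `e^(-t) ≥ ρ (1 - t - log ρ)` (tangent at `log ρ`), and `8 z2 ≥ 4ρ`. -/
theorem expo_bound {q z1 z2 ρ : ℝ} (hq : 0 < q) (h0 : 0 ≤ z1) (h1 : z1 < 1) (h2 : 0 ≤ z2)
    (h3 : z2 < 1) (hρ : 0 < ρ) (hρ2 : ρ ≤ 2 * z2) :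
    8 + 4 * ρ * (1 - Real.log ρ) ≤ 8 * (1 - z1 * z2) ^ (-q) + 4 * (1 + z1) ^ (-q) := by
  have h := expo_bound_t hq h0 h1 h2 h3
  have he : ρ * (1 - q * z1 - Real.log ρ) ≤ Real.exp (-(q * z1)) := by
    have h4 := Real.add_one_le_exp (-(q * z1) - Real.log ρ)
    have h5 : Real.exp (-(q * z1)) = ρ * Real.exp (-(q * z1) - Real.log ρ) := by
      rw [Real.exp_sub, Real.exp_log hρ]
      field_simp
    rw [h5]
    apply mul_le_mul_of_nonneg_left _ hρ.le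
    linarith
  have ht : 0 ≤ q * z1 := mul_nonneg hq.le h0
  nlinarith [mul_le_mul_of_nonneg_left hρ2 ht]

theorem expo_12 {q z1 z2 : ℝ} (hq : 0 < q) (h0 : 0 ≤ z1) (h1 : z1 < 1) (h2 : 1 / 2 ≤ z2)
    (h3 : z2 < 1) : 12 ≤ 8 * (1 - z1 * z2) ^ (-q) + 4 * (1 + z1) ^ (-q) := by
  have h := expo_bound (ρ := 1) hq h0 h1 (by linarith) h3 one_pos (by linarith)
  simp only [Real.log_one] at h
  linarith

/-- `4·.8(1-log .8) = 3.91405` -/
theorem rho_8 : (3.914 : ℝ) ≤ 4 * (4 / 5) * (1 - Real.log (4 / 5)) := by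
  have h := ExpoAux.neg_log_ge (r := 4 / 5) (x := 1 / 9) (by norm_num) (by norm_num) (by norm_num)
  norm_num at h ⊢
  linarith

/-- `4·.9(1-log .9) = 3.97929` -/
theorem rho_9 : (3.979 : ℝ) ≤ 4 * (9 / 10) * (1 - Real.log (9 / 10)) := by
  have h := ExpoAux.neg_log_ge (r := 9 / 10) (x := 1 / 19) (by norm_num) (by norm_num)
    (by norm_num)
  norm_num at h ⊢
  linarith

/-- `4·.74(1-log .74) = 3.85127` -/
theorem rho_74 : (3.851 : ℝ) ≤ 4 * (74 / 100) * (1 - Real.log (74 / 100)) := by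
  have h := ExpoAux.neg_log_ge (r := 74 / 100) (x := 13 / 87) (by norm_num) (by norm_num)
    (by norm_num)
  norm_num at h ⊢
  linarith

/-- `4·.6(1-log .6) = 3.62598` -/
theorem rho_6 : (3.62 : ℝ) ≤ 4 * (3 / 5) * (1 - Real.log (3 / 5)) := by
  have h := ExpoAux.neg_log_ge (r := 3 / 5) (x := 1 / 4) (by norm_num) (by norm_num) (by norm_num)
  norm_num at h ⊢
  linarith

/-- `4·.5(1-log .5) = 3.38629` -/
theorem rho_5 : (3.386 : ℝ) ≤ 4 * (1 / 2) * (1 - Real.log (1 / 2)) := by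
  have h := Real.log_two_gt_d9
  have h2 : Real.log (1 / 2) = - Real.log 2 := by rw [one_div, Real.log_inv]
  rw [h2]
  norm_num
  linarith

end Pool.Agent.RieszFive
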