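import Pool.Agent.RieszFive.Defs

set_option autoImplicit false

namespace Pool.Agent.RieszFive

open Real

namespace KapBAux

theorem kap_sq' {z : ℝ} (h : z ^ 2 < 1) : kap z ^ 2 = z ^ 2 / (1 - z ^ 2) := by
  unfold kap
  rw [div_pow, sq_sqrt (by linarith)]

theorem sq_lt {z : ℝ} (h0 : 0 ≤ z) (h1 : z < 1) : z ^ 2 < 1 := by nlinarith

theorem tangent (n : ℕ) {y y0 : ℝ} (h0 : 0 < y0) (hy : 0 ≤ y) :
    y0 ^ n * (1 + n * (y / y0 - 1)) ≤ y ^ n := by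
  have h1 : (-2 : ℝ) ≤ y / y0 - 1 := by
    have h2 : 0 ≤ y / y0 := div_nonneg hy h0.le
    linarith
  have h2 := one_add_mul_le_pow h1 n
  have h3 : y ^ n = y0 ^ n * (1 + (y / y0 - 1)) ^ n := by
    rw [← mul_pow]
    congr 1
    field_simp
    ring
  rw [h3]
  exact mul_le_mul_of_nonneg_left h2 (pow_nonneg h0.le n)

theorem kge {k : ℝ} (h0 : 0 ≤ k) (h1 : 1 / 3 ≤ k ^ 2) : 0.577 ≤ k := by
  by_contra h
  push Not at h
  nlinarith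

theorem chord {k : ℝ} (h0 : 0 ≤ k) (h1 : 1 / 3 ≤ k ^ 2) (h2 : k ≤ 1) :
    (k - 1 / 5) ^ 2 ≤ 1.4928 * ((1 + k ^ 2) / 2) - 0.852 := by
  have h3 := kge h0 h1
  nlinarith [mul_nonneg (sub_nonneg.2 h3) (sub_nonneg.2 h2)]

end KapBAux

open KapBAux

/-- `2 - 2z² = 2/(1+κ²)`, `κ = kap z`. -/
theorem base_kap {z : ℝ} (h0 : 0 ≤ z) (h1 : z < 1) : 2 - 2 * z ^ 2 = 2 / (1 + kap z ^ 2) := by
  have h2 := sq_lt h0 h1
  rw [kap_sq' h2]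
  have h3 : 1 - z ^ 2 ≠ 0 := by linarith
  field_simp
  ring

theorem kap_nonneg {z : ℝ} (h0 : 0 ≤ z) : 0 ≤ kap z := by
  unfold kap
  exact div_nonneg h0 (sqrt_nonneg _)

theorem kap_le_one {z : ℝ} (h0 : 0 ≤ z) (hz : 2 * z ^ 2 ≤ 1) : kap z ≤ 1 := by
  have h2 : z ^ 2 < 1 := by nlinarith [sq_nonneg z]
  have h3 := kap_sq' h2
  have h4 : z ^ 2 / (1 - z ^ 2) ≤ 1 := by
    rw [div_le_one (by linarith)]
    linarith
  have h5 := kap_nonneg h0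
  nlinarith

/-- `κ² = z²/(1-z²)` -/
theorem kap_sq {z : ℝ} (h0 : 0 ≤ z) (h1 : z < 1) : kap z ^ 2 = z ^ 2 / (1 - z ^ 2) :=
  kap_sq' (sq_lt h0 h1)

/-- `.45/√(1-.2025) = .50390` -/
theorem kap_45 {z : ℝ} (h0 : 0 ≤ z) (hz : z ≤ 9 / 20) : kap z ≤ 0.504 := by
  have h2 : z ^ 2 ≤ 0.2025 := by nlinarith
  have h3 := kap_sq' (z := z) (by linarith)
  have h4 : z ^ 2 / (1 - z ^ 2) ≤ 0.504 ^ 2 := by
    rw [div_le_iff₀ (by linarith)]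
    nlinarith
  have h5 := kap_nonneg h0
  rw [← h3] at h4
  exact (pow_le_pow_iff_left₀ h5 (by norm_num) two_ne_zero).1 h4

/-- `(1/2)/√(3/4) = .57735` -/
theorem kap_50 {z : ℝ} (h0 : 0 ≤ z) (hz : z ≤ 1 / 2) : kap z ≤ 0.5774 := by
  have h2 : z ^ 2 ≤ 0.25 := by nlinarith
  have h3 := kap_sq' (z := z) (by linarith)
  have h4 : z ^ 2 / (1 - z ^ 2) ≤ 0.5774 ^ 2 := by
    rw [div_le_iff₀ (by linarith)]
    nlinarith
  have h5 := kap_nonneg h0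
  rw [← h3] at h4
  exact (pow_le_pow_iff_left₀ h5 (by norm_num) two_ne_zero).1 h4

/-- `k ≥ 1/√3`, `k ≤ 1`.  With `y = (1+k²)/2 ∈ [2/3,1]`: concavity gives
`k ≥ .577 + .634 (k² - 1/3)`, so `(k-1/5)² ≤ 1.4928 y - .852`, and by Bernoulli
(`one_add_mul_le_pow`) `y^11 ≥ y0^11 (1 + 11(y/y0-1))`, `y0 = .765` (the minimum of the
resulting function is `-.1844`). -/
theorem kpow_11 {k : ℝ} (h0 : 0 ≤ k) (h1 : 1 / 3 ≤ k ^ 2) (h2 : k ≤ 1) :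
    -(19 / 100) ≤ 2 * ((1 + k ^ 2) / 2) ^ 11 - (k - 1 / 5) ^ 2 := by
  have h3 := chord h0 h1 h2
  have h4 : 2 / 3 ≤ (1 + k ^ 2) / 2 := by linarith
  set y := (1 + k ^ 2) / 2 with hy
  have h5 := tangent 11 (y := y) (y0 := 0.765) (by norm_num) (by linarith)
  have h6 : (0.765 : ℝ) ^ 11 * (1 + (11 : ℕ) * (y / 0.765 - 1))
      = 11 * 0.765 ^ 10 * y - 10 * 0.765 ^ 11 := by
    push_cast
    ring
  rw [h6] at h5
  norm_num at h5 ⊢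
  linarith

/-- same with exponent `15`, `y0 = .807`, minimum `-.2718`. -/
theorem kpow_15 {k : ℝ} (h0 : 0 ≤ k) (h1 : 1 / 3 ≤ k ^ 2) (h2 : k ≤ 1) :
    -(28 / 100) ≤ 2 * ((1 + k ^ 2) / 2) ^ 15 - (k - 1 / 5) ^ 2 := by
  have h3 := chord h0 h1 h2
  have h4 : 2 / 3 ≤ (1 + k ^ 2) / 2 := by linarith
  have h7 : (1 + k ^ 2) / 2 ≤ 1 := by nlinarith
  set y := (1 + k ^ 2) / 2 with hy
  have h5 := tangent 15 (y := y) (y0 := 0.807) (by norm_num) (by linarith)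
  have h6 : (0.807 : ℝ) ^ 15 * (1 + (15 : ℕ) * (y / 0.807 - 1))
      = 15 * 0.807 ^ 14 * y - 14 * 0.807 ^ 15 := by
    push_cast
    ring
  rw [h6] at h5
  norm_num at h5 ⊢
  linarith

/-- `x = k²`: `2((1+x)/2)^18 - x ≥ -.6` (`y = (1+x)/2`, tangent at `y0 = .8436`: min `-.5935`). -/
theorem kpow_18 {k : ℝ} (h0 : 0 ≤ k) (h2 : k ≤ 1) :
    -(6 / 10) ≤ 2 * ((1 + k ^ 2) / 2) ^ 18 - k ^ 2 := by
  have h7 : (1 + k ^ 2) / 2 ≤ 1 := by nlinarith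
  have h8 : 0 ≤ (1 + k ^ 2) / 2 := by positivity
  have h9 : k ^ 2 = 2 * ((1 + k ^ 2) / 2) - 1 := by ring
  set y := (1 + k ^ 2) / 2 with hy
  rw [h9]
  have h5 := tangent 18 (y := y) (y0 := 0.8436) (by norm_num) h8
  have h6 : (0.8436 : ℝ) ^ 18 * (1 + (18 : ℕ) * (y / 0.8436 - 1))
      = 18 * 0.8436 ^ 17 * y - 17 * 0.8436 ^ 18 := by
    push_cast
    ring
  rw [h6] at h5
  norm_num at h5 ⊢
  linarith

/-- consequences for real `q`: `(2-2z²)^(-q) = ((1+κ²)/2)^q ≥ ((1+κ²)/2)^n` for `q ≤ n`. -/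
theorem base_pow_ge {q z : ℝ} {n : ℕ} (hq : q ≤ n) (h0 : 0 ≤ z) (hz : 2 * z ^ 2 ≤ 1) :
    ((1 + kap z ^ 2) / 2) ^ n ≤ (2 - 2 * z ^ 2) ^ (-q) := by
  have h1 : z < 1 := by
    by_contra h
    push Not at h
    nlinarith
  have h2 : 0 < (1 + kap z ^ 2) / 2 := by positivity
  have h3 : (1 + kap z ^ 2) / 2 ≤ 1 := by
    have h4 := kap_le_one h0 hz
    have h5 := kap_nonneg h0
    nlinarith
  have h4 : (2 - 2 * z ^ 2) ^ (-q) = ((1 + kap z ^ 2) / 2) ^ q := by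
    rw [base_kap h0 h1, rpow_neg (by positivity), ← inv_rpow (by positivity), inv_div]
  rw [h4, ← rpow_natCast]
  exact rpow_le_rpow_of_exponent_ge h2 h3 hq

end Pool.Agent.RieszFive
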