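import Mathlib

set_option autoImplicit false

namespace Pool.Agent.RieszFive

open Real

private theorem powCheck_aux {n m a b : ℕ} (hn : 0 < n) (hm : 0 < m) (hb : 0 < b) :
    (((n : ℝ) / m) ^ (-((a : ℝ) / b))) ^ b = (m : ℝ) ^ a / (n : ℝ) ^ a := by
  have hn' : (0 : ℝ) < n := by exact_mod_cast hn
  have hm' : (0 : ℝ) < m := by exact_mod_cast hm
  have hb' : (0 : ℝ) < b := by exact_mod_cast hb
  have hx : (0 : ℝ) < (n : ℝ) / m := div_pos hn' hm'
  rw [← Real.rpow_natCast, ← Real.rpow_mul hx.le]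
  have h1 : -((a : ℝ) / b) * (b : ℝ) = -(a : ℝ) := by
    field_simp
  rw [h1, Real.rpow_neg hx.le, Real.rpow_natCast, div_pow, inv_div]

/-- lower bound of a rational power by an integer comparison:
`(l/k)^b (n/m)^a ≤ 1`, so `(l/k) ≤ (n/m)^(-a/b)`. -/
theorem lo_of_check {l k n m a b : ℕ} (hk : 0 < k) (hn : 0 < n) (hm : 0 < m) (hb : 0 < b)
    (h : l ^ b * n ^ a ≤ k ^ b * m ^ a) :
    (l : ℝ) / k ≤ ((n : ℝ) / m) ^ (-((a : ℝ) / b)) := by
  have hn' : (0 : ℝ) < n := by exact_mod_cast hn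
  have hm' : (0 : ℝ) < m := by exact_mod_cast hm
  have hk' : (0 : ℝ) < k := by exact_mod_cast hk
  have hy : 0 ≤ ((n : ℝ) / m) ^ (-((a : ℝ) / b)) := by positivity
  refine le_of_pow_le_pow_left₀ hb.ne' hy ?_
  rw [powCheck_aux hn hm hb, div_pow, div_le_div_iff₀ (by positivity) (by positivity)]
  have h' : ((l ^ b * n ^ a : ℕ) : ℝ) ≤ ((k ^ b * m ^ a : ℕ) : ℝ) := by exact_mod_cast h
  push_cast at h'
  linarith

/-- upper bound -/
theorem hi_of_check {l k n m a b : ℕ} (hk : 0 < k) (hn : 0 < n) (hm : 0 < m) (hb : 0 < b)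
    (h : k ^ b * m ^ a ≤ l ^ b * n ^ a) :
    ((n : ℝ) / m) ^ (-((a : ℝ) / b)) ≤ (l : ℝ) / k := by
  have hn' : (0 : ℝ) < n := by exact_mod_cast hn
  have hm' : (0 : ℝ) < m := by exact_mod_cast hm
  have hk' : (0 : ℝ) < k := by exact_mod_cast hk
  have hy : (0 : ℝ) ≤ (l : ℝ) / k := by positivity
  refine le_of_pow_le_pow_left₀ hb.ne' hy ?_
  rw [powCheck_aux hn hm hb, div_pow, div_le_div_iff₀ (by positivity) (by positivity)]
  have h' : ((k ^ b * m ^ a : ℕ) : ℝ) ≤ ((l ^ b * n ^ a : ℕ) : ℝ) := by exact_mod_cast h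
  push_cast at h'
  linarith

end Pool.Agent.RieszFive
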