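import Pool.Agent.RieszFive.Beat
import Pool.Agent.RieszFive.PowCheck

set_option autoImplicit false

namespace Pool.Agent.RieszFive

open Real

/-- `ph (a/b) (z/10^4) ≤ (2 t1 + 4 t2 + 4 t3)/10^8`.  Three applications of `hi_of_check`. -/
theorem ph_ub_of_check {a b z t1 t2 t3 : ℕ} (hb : 0 < b) (hz : z < 10000)
    (h1 : (10 ^ 8) ^ b * (10 ^ 8) ^ a ≤ t1 ^ b * (2 * 10 ^ 8 - 2 * z ^ 2) ^ a)
    (h2 : (10 ^ 8) ^ b * (10 ^ 4) ^ a ≤ t2 ^ b * (10 ^ 4 + z) ^ a)
    (h3 : (10 ^ 8) ^ b * (10 ^ 8) ^ a ≤ t3 ^ b * (10 ^ 8 - z ^ 2) ^ a) :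
    ph ((a : ℝ) / b) ((z : ℝ) / 10 ^ 4) ≤ (2 * t1 + 4 * t2 + 4 * t3) / 10 ^ 8 := by
  have hz2 : z ^ 2 < 10 ^ 8 := by
    calc z ^ 2 < 10000 ^ 2 := Nat.pow_lt_pow_left hz (by norm_num)
      _ = 10 ^ 8 := by norm_num
  have hn1 : 0 < 2 * 10 ^ 8 - 2 * z ^ 2 := by omega
  have hn3 : 0 < 10 ^ 8 - z ^ 2 := by omega
  have hk : 0 < 10 ^ 8 := by norm_num
  have e1 := hi_of_check (l := t1) (k := 10 ^ 8) (n := 2 * 10 ^ 8 - 2 * z ^ 2) (m := 10 ^ 8)
    (a := a) (b := b) hk hn1 hk hb h1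
  have e2 := hi_of_check (l := t2) (k := 10 ^ 8) (n := 10 ^ 4 + z) (m := 10 ^ 4)
    (a := a) (b := b) hk (by positivity) (by norm_num) hb h2
  have e3 := hi_of_check (l := t3) (k := 10 ^ 8) (n := 10 ^ 8 - z ^ 2) (m := 10 ^ 8)
    (a := a) (b := b) hk hn3 hk hb h3
  have c1 : ((2 * 10 ^ 8 - 2 * z ^ 2 : ℕ) : ℝ) / ((10 ^ 8 : ℕ) : ℝ) =
      2 - 2 * ((z : ℝ) / 10 ^ 4) ^ 2 := by
    rw [Nat.cast_sub (by omega)]
    push_cast
    ring
  have c2 : ((10 ^ 4 + z : ℕ) : ℝ) / ((10 ^ 4 : ℕ) : ℝ) = 1 + (z : ℝ) / 10 ^ 4 := by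
    push_cast
    ring
  have c3 : ((10 ^ 8 - z ^ 2 : ℕ) : ℝ) / ((10 ^ 8 : ℕ) : ℝ) =
      1 - (z : ℝ) / 10 ^ 4 * ((z : ℝ) / 10 ^ 4) := by
    rw [Nat.cast_sub (by omega)]
    push_cast
    ring
  rw [c1] at e1
  rw [c2] at e2
  rw [c3] at e3
  unfold ph ee
  have e4 : (2 * (t1 : ℝ) + 4 * t2 + 4 * t3) / 10 ^ 8 = t1 / ((10 ^ 8 : ℕ) : ℝ) +
      t1 / ((10 ^ 8 : ℕ) : ℝ) + 2 * (t2 / ((10 ^ 8 : ℕ) : ℝ)) + 2 * (t2 / ((10 ^ 8 : ℕ) : ℝ)) +
      4 * (t3 / ((10 ^ 8 : ℕ) : ℝ)) := by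
    push_cast
    ring
  rw [e4]
  linarith

namespace PhValAux

theorem ub_of_check {a b z t1 t2 t3 : ℕ} {q U : ℝ} (ha : 0 < a) (hb : 0 < b) (hz0 : 0 < z)
    (hz : z < 10000)
    (h1 : (10 ^ 8) ^ b * (10 ^ 8) ^ a ≤ t1 ^ b * (2 * 10 ^ 8 - 2 * z ^ 2) ^ a)
    (h2 : (10 ^ 8) ^ b * (10 ^ 4) ^ a ≤ t2 ^ b * (10 ^ 4 + z) ^ a)
    (h3 : (10 ^ 8) ^ b * (10 ^ 8) ^ a ≤ t3 ^ b * (10 ^ 8 - z ^ 2) ^ a)
    (hq : (a : ℝ) / b ≤ q) (hU : (2 * (t1 : ℝ) + 4 * t2 + 4 * t3) / 10 ^ 8 ≤ U) : UB q U := by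
  have ha' : (0 : ℝ) < a := by exact_mod_cast ha
  have hb' : (0 : ℝ) < b := by exact_mod_cast hb
  have hz' : (0 : ℝ) < z := by exact_mod_cast hz0
  refine UB_of (qi := (a : ℝ) / b) (z := (z : ℝ) / 10 ^ 4) (by positivity) hq (by positivity) ?_
    ((ph_ub_of_check hb hz h1 h2 h3).trans hU)
  rw [div_lt_one (by positivity)]
  have h4 : (z : ℝ) < 10000 := by exact_mod_cast hz
  have h5 : (10 : ℝ) ^ 4 = 10000 := by norm_num
  rw [h5]
  exact h4

end PhValAux

/-! Certificates `(a, b, z, t1, t2, t3)` for `ph_ub_of_check` (use `decide +kernel` for the three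
integer comparisons), then `UB_of` with `qi = a/b`. -/

/-- `(7705, 1024, 1391, 629179, 37532303, 115837178)`, value `6.14736282` -/
theorem ub_q0 {q : ℝ} (hq : 7705 / 1024 ≤ q) : UB q 6.14736282 := by
  refine PhValAux.ub_of_check (a := 7705) (b := 1024) (z := 1391) (t1 := 629179) (t2 := 37532303)
    (t3 := 115837178) (by norm_num) (by norm_num) (by norm_num) (by norm_num)
    (by decide +kernel) (by decide +kernel) (by decide +kernel) ?_ (by norm_num)
  push_cast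
  linarith

/-- `(8, 1, 1351, 452648, 36284991, 115877692)`, value `6.09556028` -/
theorem ub_8 {q : ℝ} (hq : 8 ≤ q) : UB q 6.09557 := by
  refine PhValAux.ub_of_check (a := 8) (b := 1) (z := 1351) (t1 := 452648) (t2 := 36284991)
    (t3 := 115877692) (by norm_num) (by norm_num) (by norm_num) (by norm_num)
    (by decide +kernel) (by decide +kernel) (by decide +kernel) ?_ (by norm_num)
  push_cast
  linarith

/-- `(17, 2, 1312, 320142, 35068334, 115903547)`, value `6.04527808` -/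
theorem ub_85 {q : ℝ} (hq : 17 / 2 ≤ q) : UB q 6.04528 := by
  refine PhValAux.ub_of_check (a := 17) (b := 2) (z := 1312) (t1 := 320142) (t2 := 35068334)
    (t3 := 115903547) (by norm_num) (by norm_num) (by norm_num) (by norm_num)
    (by decide +kernel) (by decide +kernel) (by decide +kernel) ?_ (by norm_num)
  push_cast
  linarith

/-- `(9, 1, 1276, 226409, 33931605, 115921365)`, value `5.99864698` -/
theorem ub_9 {q : ℝ} (hq : 9 ≤ q) : UB q 5.99865 := by
  refine PhValAux.ub_of_check (a := 9) (b := 1) (z := 1276) (t1 := 226409) (t2 := 33931605)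
    (t3 := 115921365) (by norm_num) (by norm_num) (by norm_num) (by norm_num)
    (by decide +kernel) (by decide +kernel) (by decide +kernel) ?_ (by norm_num)
  push_cast
  linarith

/-- `(41, 4, 1195, 95164, 31441482, 115884955)`, value `5.89496076` -/
theorem ub_1025 {q : ℝ} (hq : 41 / 4 ≤ q) : UB q 5.89497 := by
  refine PhValAux.ub_of_check (a := 41) (b := 4) (z := 1195) (t1 := 95164) (t2 := 31441482)
    (t3 := 115884955) (by norm_num) (by norm_num) (by norm_num) (by norm_num)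
    (by decide +kernel) (by decide +kernel) (by decide +kernel) ?_ (by norm_num)
  push_cast
  linarith

/-- `(11, 1, 1152, 56558, 30138362, 115830620)`, value `5.83989044` -/
theorem ub_11 {q : ℝ} (hq : 11 ≤ q) : UB q 5.8399 := by
  refine PhValAux.ub_of_check (a := 11) (b := 1) (z := 1152) (t1 := 56558) (t2 := 30138362)
    (t3 := 115830620) (by norm_num) (by norm_num) (by norm_num) (by norm_num)
    (by decide +kernel) (by decide +kernel) (by decide +kernel) ?_ (by norm_num)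
  push_cast
  linarith

/-- `(12, 1, 1100, 28255, 28584083, 115729527)`, value `5.7731095` -/
theorem ub_12 {q : ℝ} (hq : 12 ≤ q) : UB q 5.77312 := by
  refine PhValAux.ub_of_check (a := 12) (b := 1) (z := 1100) (t1 := 28255) (t2 := 28584083)
    (t3 := 115729527) (by norm_num) (by norm_num) (by norm_num) (by norm_num)
    (by decide +kernel) (by decide +kernel) (by decide +kernel) ?_ (by norm_num)
  push_cast
  linarith

/-- `(15, 1, 973, 3520, 24838154, 115336741)`, value `5.6070662` -/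
theorem ub_15 {q : ℝ} (hq : 15 ≤ q) : UB q 5.60707 := by
  refine PhValAux.ub_of_check (a := 15) (b := 1) (z := 973) (t1 := 3520) (t2 := 24838154)
    (t3 := 115336741) (by norm_num) (by norm_num) (by norm_num) (by norm_num)
    (by decide +kernel) (by decide +kernel) (by decide +kernel) ?_ (by norm_num)
  push_cast
  linarith

/-- `(88, 5, 888, 579, 22372434, 114950777)`, value `5.49294002` -/
theorem ub_176 {q : ℝ} (hq : 88 / 5 ≤ q) : UB q 5.49295 := by
  refine PhValAux.ub_of_check (a := 88) (b := 5) (z := 888) (t1 := 579) (t2 := 22372434)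
    (t3 := 114950777) (by norm_num) (by norm_num) (by norm_num) (by norm_num)
    (by decide +kernel) (by decide +kernel) (by decide +kernel) ?_ (by norm_num)
  push_cast
  linarith

/-- `(30, 1, 641, 1, 15506962, 113147064)`, value `5.14616106` -/
theorem ub_30 {q : ℝ} (hq : 30 ≤ q) : UB q 5.14617 := by
  refine PhValAux.ub_of_check (a := 30) (b := 1) (z := 641) (t1 := 1) (t2 := 15506962)
    (t3 := 113147064) (by norm_num) (by norm_num) (by norm_num) (by norm_num)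
    (by decide +kernel) (by decide +kernel) (by decide +kernel) ?_ (by norm_num)
  push_cast
  linarith

end Pool.Agent.RieszFive
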