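import Pool.Agent.RieszFive.Defs

set_option autoImplicit false

namespace Pool.Agent.RieszFive

open Real

/-- `cbar ≤ c0` for small `z2`, uniformly on a `q`-interval: `cbar q z ≤ c0 q z` iff
`(1+z)^(q+1) ≤ 2(q+1)(1-z²)(q(1-z)+1)`; the left side increases in `z` and `q`, the right side
decreases in `z` and increases in `q`. -/
theorem cbar_le_c0 {q qa qb z z0 : ℝ} (hqa : 0 < qa) (h1 : qa ≤ q) (h2 : q ≤ qb) (hz : 0 ≤ z)
    (hz0 : z ≤ z0) (hz1 : z0 < 1)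
    (h : (1 + z0) ^ (qb + 1) ≤ 2 * (qa + 1) * (1 - z0 ^ 2) * (qa * (1 - z0) + 1)) :
    cbar q z ≤ c0 q z := by
  have hq : 0 < q := lt_of_lt_of_le hqa h1
  have hzz : 0 < 1 + z := by linarith
  have hz2 : z ^ 2 ≤ z0 ^ 2 := pow_le_pow_left₀ hz hz0 2
  have hz02 : z0 ^ 2 < 1 := by nlinarith
  have e1 : (1 + z) ^ (q + 1) ≤ (1 + z0) ^ (qb + 1) :=
    calc (1 + z) ^ (q + 1) ≤ (1 + z0) ^ (q + 1) :=
          Real.rpow_le_rpow hzz.le (by linarith) (by linarith)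
      _ ≤ (1 + z0) ^ (qb + 1) :=
          Real.rpow_le_rpow_of_exponent_le (by linarith) (by linarith)
  have e2 : 2 * (qa + 1) * (1 - z0 ^ 2) * (qa * (1 - z0) + 1) ≤
      2 * (q + 1) * (1 - z ^ 2) * (q * (1 - z) + 1) := by
    have a1 : 2 * (qa + 1) * (1 - z0 ^ 2) ≤ 2 * (q + 1) * (1 - z ^ 2) :=
      mul_le_mul (by linarith) (by linarith) (by linarith) (by linarith)
    have a2 : qa * (1 - z0) + 1 ≤ q * (1 - z) + 1 := by
      have : qa * (1 - z0) ≤ q * (1 - z) :=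
        mul_le_mul h1 (by linarith) (by linarith) hq.le
      linarith
    refine mul_le_mul a1 a2 ?_ ?_
    · have : 0 ≤ qa * (1 - z0) := mul_nonneg hqa.le (by linarith)
      linarith
    · exact mul_nonneg (by linarith) (by linarith)
  have e3 : (1 + z) ^ (q + 1) ≤ 2 * (q + 1) * (1 - z ^ 2) * (q * (1 - z) + 1) :=
    e1.trans (h.trans e2)
  have hp : 0 < (1 + z) ^ (q + 1) := Real.rpow_pos_of_pos hzz _
  have hn : (1 + z) ^ (-(q + 1)) = ((1 + z) ^ (q + 1))⁻¹ := Real.rpow_neg hzz.le _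
  have hw : 0 < 1 - z ^ 2 := by linarith
  rw [cbar, c0, hn, div_div, div_le_iff₀ (by positivity)]
  have e4 : 2 * q * ((1 + z) ^ (q + 1))⁻¹ * (q * (1 - z) + 1) * ((q + 1) * (1 - z ^ 2)) =
      q * ((2 * (q + 1) * (1 - z ^ 2) * (q * (1 - z) + 1)) / (1 + z) ^ (q + 1)) := by
    field_simp
  rw [e4]
  have e5 : 1 ≤ (2 * (q + 1) * (1 - z ^ 2) * (q * (1 - z) + 1)) / (1 + z) ^ (q + 1) := by
    rw [le_div_iff₀ hp, one_mul]
    exact e3
  nlinarith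

/-- `(1.4)^12 = 56.7 ≤ 2·11.25·.84·7.15 = 135.1` -/
theorem zlow_1 {q z : ℝ} (h1 : 41 / 4 ≤ q) (h2 : q ≤ 11) (hz : 0 ≤ z) (hc : c0 q z < cbar q z) :
    2 / 5 < z := by
  by_contra hn
  refine absurd (cbar_le_c0 (by norm_num) h1 h2 hz (not_lt.1 hn) (by norm_num) ?_)
    (not_le.2 hc)
  rw [show (11 : ℝ) + 1 = ((12 : ℕ) : ℝ) by norm_num, Real.rpow_natCast]
  norm_num

/-- `(1.37)^16 = 154.1 ≤ 2·12·.8631·7.93 = 164.2` -/
theorem zlow_2 {q z : ℝ} (h1 : 11 ≤ q) (h2 : q ≤ 15) (hz : 0 ≤ z) (hc : c0 q z < cbar q z) :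
    37 / 100 < z := by
  by_contra hn
  refine absurd (cbar_le_c0 (by norm_num) h1 h2 hz (not_lt.1 hn) (by norm_num) ?_)
    (not_le.2 hc)
  rw [show (15 : ℝ) + 1 = ((16 : ℕ) : ℝ) by norm_num, Real.rpow_natCast]
  norm_num

/-- `(1.3)^19 = 146.2 ≤ 2·16·.91·11.5 = 334.8` (use `qb = 18`) -/
theorem zlow_3 {q z : ℝ} (h1 : 15 ≤ q) (h2 : q ≤ 88 / 5) (hz : 0 ≤ z)
    (hc : c0 q z < cbar q z) : 3 / 10 < z := by
  by_contra hn
  refine absurd (cbar_le_c0 (qb := 18) (by norm_num) h1 (by linarith) hz (not_lt.1 hn)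
    (by norm_num) ?_) (not_le.2 hc)
  rw [show (18 : ℝ) + 1 = ((19 : ℕ) : ℝ) by norm_num, Real.rpow_natCast]
  norm_num

/-- three applications: `[17.6,24]`: `1.25^25 = 264.7 ≤ 495`; `[24,28]`: `1.25^29 = 646.3 ≤ 890`;
`[28,30]`: `1.25^31 = 1009.8 ≤ 1196`. -/
theorem zlow_4 {q z : ℝ} (h1 : 88 / 5 ≤ q) (h2 : q ≤ 30) (hz : 0 ≤ z)
    (hc : c0 q z < cbar q z) : 1 / 4 < z := by
  by_contra hn
  rcases le_total q 24 with h3 | h3
  · refine absurd (cbar_le_c0 (by norm_num) h1 h3 hz (not_lt.1 hn) (by norm_num) ?_)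
      (not_le.2 hc)
    rw [show (24 : ℝ) + 1 = ((25 : ℕ) : ℝ) by norm_num, Real.rpow_natCast]
    norm_num
  · rcases le_total q 28 with h4 | h4
    · refine absurd (cbar_le_c0 (by norm_num) h3 h4 hz (not_lt.1 hn) (by norm_num) ?_)
        (not_le.2 hc)
      rw [show (28 : ℝ) + 1 = ((29 : ℕ) : ℝ) by norm_num, Real.rpow_natCast]
      norm_num
    · refine absurd (cbar_le_c0 (by norm_num) h4 h2 hz (not_lt.1 hn) (by norm_num) ?_)
        (not_le.2 hc)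
      rw [show (30 : ℝ) + 1 = ((31 : ℕ) : ℝ) by norm_num, Real.rpow_natCast]
      norm_num

end Pool.Agent.RieszFive
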