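import Pool.Agent.RieszFive.II5
import Pool.Agent.RieszFive.PhVal
import Pool.Agent.RieszFive.ZLow
import Pool.Agent.RieszFive.Expo
import Pool.Agent.RieszFive.KapB

set_option autoImplicit false

namespace Pool.Agent.RieszFive

open Real

variable {q z1 z2 v g s : ℝ}

namespace HardBAux

theorem adm_pos (h : Adm z1 z2 v g s) : 0 < z2 := lt_of_le_of_lt h.z1_nonneg h.z1_lt

theorem kap_sq_le {z : ℝ} (h0 : 0 ≤ z) (h1 : z ≤ 1 / 2) : kap z ^ 2 ≤ 4 / 3 * z ^ 2 := by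
  rw [kap_sq h0 (by linarith), div_le_iff₀ (by nlinarith)]
  nlinarith [mul_nonneg (sq_nonneg z) (show (0 : ℝ) ≤ 1 / 4 - z ^ 2 by nlinarith)]

theorem kap_sq_third {z : ℝ} (h0 : 0 ≤ z) (h1 : z ≤ 1 / 2) : kap z ^ 2 ≤ 1 / 3 := by
  have h2 := kap_sq_le h0 h1
  nlinarith

theorem kap_sq_one {z : ℝ} (h0 : 0 ≤ z) (hz : 2 * z ^ 2 ≤ 1) : kap z ^ 2 ≤ 1 := by
  have h1 := kap_le_one h0 hz
  have h2 := kap_nonneg h0
  nlinarith

theorem ub_to {E U : ℝ} (h : UB q U) (hE : 2 * U < E) :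
    ∃ z, 0 < z ∧ z < 1 ∧ 2 * ph q z < E := by
  obtain ⟨z, hz0, hz1, hz2⟩ := h
  exact ⟨z, hz0, hz1, by linarith⟩

theorem base_nonneg (hz : z2 < 1) (h0 : 0 < z2) : 0 ≤ (2 - 2 * z2 ^ 2) ^ (-q) :=
  Real.rpow_nonneg (by nlinarith) _

/-- `z2 ≥ 1/2` -/
theorem ge_11 (hq : 1 ≤ q) (h : Adm z1 z2 v g s) (hz : 2 * z2 ^ 2 ≤ 1) (hz2 : 1 / 2 ≤ z2) :
    11 ≤ FF q z1 z2 v g s := by
  have h1 := FF_ge_k hq h hz
  have h2 := expo_12 (by linarith) h.z1_nonneg (h.z1_lt.trans h.z2_lt) hz2 h.z2_lt (q := q)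
  have h3 := base_nonneg (q := q) h.z2_lt (adm_pos h)
  have h4 := kap_sq_one (adm_pos h).le hz
  linarith

/-- `z2 ≤ 1/2`, `ρ ≤ 2 z2` -/
theorem ge_rho {ρ L : ℝ} (hq : 1 ≤ q) (h : Adm z1 z2 v g s) (hz : 2 * z2 ^ 2 ≤ 1)
    (hz2 : z2 ≤ 1 / 2) (hρ : 0 < ρ) (hρ2 : ρ ≤ 2 * z2)
    (hL : L ≤ 4 * ρ * (1 - Real.log ρ)) :
    8 + L - 1 / 3 ≤ FF q z1 z2 v g s := by
  have h1 := FF_ge_k hq h hz
  have h2 := expo_bound (q := q) (by linarith) h.z1_nonneg (h.z1_lt.trans h.z2_lt)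
    (adm_pos h).le h.z2_lt hρ hρ2
  have h3 := base_nonneg (q := q) h.z2_lt (adm_pos h)
  have h4 := kap_sq_third (adm_pos h).le hz2
  linarith

end HardBAux

open HardBAux

/-- `FF_ge_k`; `z2 ≥ 1/2`: `base_pow_ge` with `n = 18`, `kpow_18`: `FF ≥ 11.4`;
`.3 < z2 ≤ 1/2` (`zlow_3`): `ρ = .6`, `κ² ≤ 1/3`: `8 + 3.62 - 1/3 = 11.28`; `ub_15`: `11.21414`. -/
theorem hard_c (h1 : 15 ≤ q) (h2 : q ≤ 88 / 5) (h : Adm z1 z2 v g s) (hz : 2 * z2 ^ 2 ≤ 1)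
    (hc : c0 q z2 < cc q z1 z2) : ∃ z, 0 < z ∧ z < 1 ∧ 2 * ph q z < FF q z1 z2 v g s := by
  have hq1 : 1 ≤ q := by linarith
  have hlow : 3 / 10 < z2 := zlow_3 h1 h2 (adm_pos h).le
    (lt_of_lt_of_le hc (cc_le_cbar (by linarith) h.z1_nonneg h.z1_lt h.z2_lt))
  rcases le_total (1 / 2) z2 with hz2 | hz2
  · refine ub_to (ub_15 h1) ?_
    have e1 := FF_ge_k hq1 h hz
    have e2 := expo_12 (by linarith) h.z1_nonneg (h.z1_lt.trans h.z2_lt) hz2 h.z2_lt (q := q)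
    have e3 : ((1 + kap z2 ^ 2) / 2) ^ 18 ≤ (2 - 2 * z2 ^ 2) ^ (-q) :=
      base_pow_ge (by push_cast; linarith) (adm_pos h).le hz
    have e4 := kpow_18 (kap_nonneg (adm_pos h).le) (kap_le_one (adm_pos h).le hz)
    linarith
  · refine ub_to (ub_15 h1) ?_
    have e1 := ge_rho hq1 h hz hz2 (ρ := 3 / 5) (by norm_num) (by linarith) rho_6
    linarith

/-- `FF_ge_k`; `z2 ≥ 1/2`: `FF ≥ 12 - κ² ≥ 11`; `1/4 < z2 ≤ 1/2` (`zlow_4`): `ρ = 1/2`,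
`8 + 3.386 - 1/3 = 11.05`; `ub_176`: `10.9859`. -/
theorem hard_d1 (h1 : 88 / 5 ≤ q) (h2 : q ≤ 30) (h : Adm z1 z2 v g s) (hz : 2 * z2 ^ 2 ≤ 1)
    (hc : c0 q z2 < cc q z1 z2) : ∃ z, 0 < z ∧ z < 1 ∧ 2 * ph q z < FF q z1 z2 v g s := by
  have hq1 : 1 ≤ q := by linarith
  have hlow : 1 / 4 < z2 := zlow_4 h1 h2 (adm_pos h).le
    (lt_of_lt_of_le hc (cc_le_cbar (by linarith) h.z1_nonneg h.z1_lt h.z2_lt))
  rcases le_total (1 / 2) z2 with hz2 | hz2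
  · refine ub_to (ub_176 h1) ?_
    have e1 := ge_11 hq1 h hz hz2
    linarith
  · refine ub_to (ub_176 h1) ?_
    have e1 := ge_rho hq1 h hz hz2 (ρ := 1 / 2) (by norm_num) (by linarith) rho_5
    linarith

/-- If `cc > 0` and `z2 ≤ 1/2` then `t = q z1 ≤ .44`: from `cc > 0`,
`2 z1 (q+1) (1+z1)^(q+1) (1-z2²) < (1-z1z2)^(q+2) ≤ 1`, so `(3/2) t (1+z1)^(q+1) < 1`, and
`(1+z1)^(q+1) ≥ 1 + t + t²/2` (`q ≥ 1`; e.g. `(1+z1)^(q+1) ≥ exp((q+1)(z1 - z1²/2))` or a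
second order Taylor bound, `(q+1)q z1²/2 ≥ t²/2`). `1.5·.44·(1+.44+.0968) = 1.014 > 1`. -/
theorem t_bound (hq : 1 ≤ q) (h : Adm z1 z2 v g s) (hz : z2 ≤ 1 / 2) (hc : 0 < cc q z1 z2) :
    q * z1 ≤ 11 / 25 := by
  have hz2 := adm_pos h
  have hz1 := h.z1_nonneg
  have hq0 : 0 < q := by linarith
  have hX : 0 < 1 + z1 := by linarith
  have hr : 3 / 4 ≤ 1 - z2 ^ 2 := by nlinarith
  have hA0 : 0 ≤ 1 - z1 * z2 := by nlinarith [h.z1_lt]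
  have hA1 : 1 - z1 * z2 ≤ 1 := by
    have := mul_nonneg hz1 hz2.le
    linarith
  have hAp : (1 - z1 * z2) ^ (q + 2) ≤ 1 := Real.rpow_le_one hA0 hA1 (by linarith)
  set P : ℝ := (1 + z1) ^ (q + 1) with hP
  have hP0 : 0 < P := Real.rpow_pos_of_pos hX _
  have e1 : (1 + z1) ^ (-(q + 1)) = P⁻¹ := by rw [hP, Real.rpow_neg hX.le]
  have e2 : (1 + z1) ^ (-2 * (q + 1)) = P⁻¹ * P⁻¹ := by
    rw [← e1, ← Real.rpow_add hX]
    congr 1
    ring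
  have hcc : 0 < q / (q + 1) * (P⁻¹ * P⁻¹) * (1 - z1 * z2) ^ (q + 2) / (1 - z2 ^ 2)
      - 2 * q * z1 * P⁻¹ := by
    have := hc
    rw [cc, e1, e2] at this
    exact this
  -- multiply by `P² (q+1)/q (1-z2²)`
  have key : 2 * z1 * (q + 1) * P * (1 - z2 ^ 2) < 1 := by
    have h3 : 0 < (q / (q + 1) * (P⁻¹ * P⁻¹) * (1 - z1 * z2) ^ (q + 2) / (1 - z2 ^ 2)
      - 2 * q * z1 * P⁻¹) * (P * P * ((q + 1) / q) * (1 - z2 ^ 2)) :=
      mul_pos hcc (by positivity)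
    have h4 : (q / (q + 1) * (P⁻¹ * P⁻¹) * (1 - z1 * z2) ^ (q + 2) / (1 - z2 ^ 2)
      - 2 * q * z1 * P⁻¹) * (P * P * ((q + 1) / q) * (1 - z2 ^ 2)) =
      (1 - z1 * z2) ^ (q + 2) - 2 * z1 * (q + 1) * P * (1 - z2 ^ 2) := by
      have hr' : (1 - z2 ^ 2) ≠ 0 := by linarith
      field_simp
    rw [h4] at h3
    linarith
  have key2 : 3 / 2 * (z1 * (q + 1)) * P < 1 := by
    have h5 : 0 ≤ z1 * (q + 1) * P := by positivity
    nlinarith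
  by_contra hcon
  push Not at hcon
  have hu : 11 / 25 < z1 * (q + 1) := by nlinarith
  rcases le_total q 3 with hq3 | hq3
  · have hb : 1 + (q + 1) * z1 ≤ P := by
      rw [hP]
      exact one_add_mul_self_le_rpow_one_add (by linarith) (by linarith)
    have hu2 : 44 / 75 < z1 * (q + 1) := by nlinarith
    nlinarith
  · have hb : 1 + ((q + 1) / 4) * z1 ≤ (1 + z1) ^ ((q + 1) / 4) :=
      one_add_mul_self_le_rpow_one_add (by linarith) (by linarith)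
    have hb4 : ((1 + z1) ^ ((q + 1) / 4)) ^ (4 : ℕ) = P := by
      rw [hP, ← Real.rpow_natCast, ← Real.rpow_mul hX.le]
      congr 1
      push_cast
      ring
    have hb5 : (111 / 100 : ℝ) ≤ (1 + z1) ^ ((q + 1) / 4) := by nlinarith
    have hb6 : (111 / 100 : ℝ) ^ 4 ≤ P := by
      rw [← hb4]
      exact pow_le_pow_left₀ (by norm_num) hb5 4
    have hb7 : (1.518 : ℝ) ≤ P := le_trans (by norm_num) hb6
    nlinarith

/-- `z2 ≥ 1/2`: `FF ≥ 11`. `z2 ≤ 1/2`: `FF_ge_k`, `expo_bound_t`, `κ² ≤ (4/3) z2²`, `t ≤ .44`: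
`FF ≥ 8 + 8 t z2 + 4 e^(-t) - (4/3) z2²`, concave in `z2`; at `z2 = 0`: `8 + 4e^(-.44) = 10.576`,
at `z2 = 1/2`: `≥ 8 + 4 t + 4e^(-t) - 1/3 ≥ 11.66`.  `ub_30`: `10.29234`. -/
theorem hard_d2 (h1 : 30 ≤ q) (h : Adm z1 z2 v g s) (hz : 2 * z2 ^ 2 ≤ 1)
    (hc : c0 q z2 < cc q z1 z2) : ∃ z, 0 < z ∧ z < 1 ∧ 2 * ph q z < FF q z1 z2 v g s := by
  have hq1 : 1 ≤ q := by linarith
  rcases le_total (1 / 2) z2 with hz2 | hz2
  · refine ub_to (ub_30 h1) ?_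
    have e1 := ge_11 hq1 h hz hz2
    linarith
  · refine ub_to (ub_30 h1) ?_
    have hz0 := adm_pos h
    have hc0 : 0 < cc q z1 z2 := by
      refine lt_trans ?_ hc
      rw [c0]
      have e1 : 0 < (1 + z2) ^ (-(q + 1)) := Real.rpow_pos_of_pos (by linarith) _
      have e2 : 0 < q * (1 - z2) + 1 := by
        have : 0 ≤ q * (1 - z2) := mul_nonneg (by linarith) (by linarith)
        linarith
      have e3 : 0 < q := by linarith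
      positivity
    have ht := t_bound (by linarith) h hz2 hc0
    have e1 := FF_ge_k hq1 h hz
    have e2 := expo_bound_t (q := q) (by linarith) h.z1_nonneg (h.z1_lt.trans h.z2_lt)
      hz0.le h.z2_lt
    have e3 := base_nonneg (q := q) h.z2_lt hz0
    have e4 := kap_sq_le hz0.le hz2
    have ht0 : 0 ≤ q * z1 := mul_nonneg (by linarith) h.z1_nonneg
    set t := q * z1 with htdef
    have e5 : (4 : ℝ) / 3 * z2 ^ 2 ≤ 2 / 3 * z2 := by nlinarith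
    rcases le_total (1 / 12) t with ht1 | ht1
    · have e6 : (0.89 : ℝ) ^ 4 ≤ Real.exp (-t) := by
        have e7 : Real.exp (-t) = Real.exp (-t / 4) ^ 4 := by
          rw [← Real.exp_nat_mul]
          congr 1
          push_cast
          ring
        rw [e7]
        refine pow_le_pow_left₀ (by norm_num) ?_ 4
        have e8 := Real.add_one_le_exp (-t / 4)
        norm_num
        linarith
      have e9 : (0.627 : ℝ) ≤ Real.exp (-t) := le_trans (by norm_num) e6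
      have e10 : 0 ≤ (8 * t - 2 / 3) * z2 := mul_nonneg (by linarith) hz0.le
      nlinarith
    · have e6 := Real.add_one_le_exp (-t)
      have e7 : 0 ≤ t * z2 := mul_nonneg ht0 hz0.le
      nlinarith

end Pool.Agent.RieszFive
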