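import Pool.Agent.RieszFive.Defs

set_option autoImplicit false

namespace Pool.Agent.RieszFive

open Real

variable {z1 z2 v g s : ℝ}

/-- Elementary consequences of admissibility (`r = √(1 - z2²)`).
* `0 < z2`, `0 < r`, `r² = 1 - z2²`, `g ≤ 1`, `s²/2 ≤ 1 - g` (as `1 - g = s²/(1+g)`);
* `z1 z2 + r|v| ≤ z1/z2 < 1`: multiply by `z2`, use `v_le` and `r² = 1 - z2²`;
* `z1² + v² < 1`: `v² z2² ≤ z1² r²`, so `(z1² + v²) z2² ≤ z1² < z2²`;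
* `0 < 1 + z1 g - v s`: `(z1 g - v s)² ≤ (z1² + v²)(g² + s²) < 1`;
* `z2 g + r|s| ≤ 1`, `z2 |s| + r g ≤ 1`: Cauchy-Schwarz, `z2² + r² = 1`;
* `0 < 1 + z2 g - r|s|`: `(z2 g - r|s|)² + (z2|s| + r g)² = 1`, so `z2 g - r|s| ≤ -1` would force
  `z2|s| + r g = 0` and `g = z2 (z2 g - r|s|) + r (r g + z2|s|) ≤ -z2 < 0`. -/
structure Facts (z1 z2 v g s : ℝ) : Prop where
  z2_pos : 0 < z2
  r_pos : 0 < √(1 - z2 ^ 2)
  r_sq : √(1 - z2 ^ 2) ^ 2 = 1 - z2 ^ 2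
  g_le : g ≤ 1
  half : s ^ 2 / 2 ≤ 1 - g
  h1 : z1 * z2 + √(1 - z2 ^ 2) * |v| < 1
  h2 : z1 ^ 2 + v ^ 2 < 1
  h3 : 0 < 1 + z1 * g - v * s
  h4 : z2 * g + √(1 - z2 ^ 2) * |s| ≤ 1
  h5 : z2 * |s| + √(1 - z2 ^ 2) * g ≤ 1
  h6 : 0 < 1 + z2 * g - √(1 - z2 ^ 2) * |s|

theorem Adm.facts (h : Adm z1 z2 v g s) : Facts z1 z2 v g s := by
  obtain ⟨h1, h2, h3, h4, h5, h6, h7⟩ := h
  have hz2 : 0 < z2 := lt_of_le_of_lt h1 h2
  have hrr : 0 < 1 - z2 ^ 2 := by nlinarith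
  set r := √(1 - z2 ^ 2) with hr
  have hr0 : 0 < r := Real.sqrt_pos.2 hrr
  have hr2 : r ^ 2 = 1 - z2 ^ 2 := Real.sq_sqrt hrr.le
  have hg1 : g ≤ 1 := by nlinarith [sq_nonneg s]
  have hV := abs_nonneg v
  have hS := abs_nonneg s
  have hV2 : |v| ^ 2 = v ^ 2 := sq_abs v
  have hS2 : |s| ^ 2 = s ^ 2 := sq_abs s
  have f1 : z1 * z2 + r * |v| < 1 := by
    have e1 : r * (|v| * z2) ≤ r * (z1 * r) := mul_le_mul_of_nonneg_left h6 hr0.le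
    have e2 : z2 * (z1 * z2 + r * |v|) ≤ z1 := by
      have : z2 * (z1 * z2 + r * |v|) = z1 * z2 ^ 2 + r * (|v| * z2) := by ring
      have e3 : r * (z1 * r) = z1 * (1 - z2 ^ 2) := by rw [← hr2]; ring
      linarith
    by_contra hcon
    push Not at hcon
    have e3 : z2 * 1 ≤ z2 * (z1 * z2 + r * |v|) := mul_le_mul_of_nonneg_left hcon hz2.le
    linarith
  have f2 : z1 ^ 2 + v ^ 2 < 1 := by
    have e1 : (|v| * z2) ^ 2 ≤ (z1 * r) ^ 2 := pow_le_pow_left₀ (by positivity) h6 2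
    have e2 : (z1 ^ 2 + v ^ 2) * z2 ^ 2 ≤ z1 ^ 2 := by
      rw [mul_pow, mul_pow, hV2, hr2] at e1
      linarith
    have e3 : z1 ^ 2 < z2 ^ 2 := by nlinarith
    by_contra hcon
    push Not at hcon
    have e4 : 1 * z2 ^ 2 ≤ (z1 ^ 2 + v ^ 2) * z2 ^ 2 :=
      mul_le_mul_of_nonneg_right hcon (by positivity)
    linarith
  have f3 : 0 < 1 + z1 * g - v * s := by
    have e1 : (z1 * g - v * s) ^ 2 < 1 := by
      have e2 : (z1 * g - v * s) ^ 2 + (z1 * s + v * g) ^ 2 = (z1 ^ 2 + v ^ 2) * (g ^ 2 + s ^ 2) := by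
        ring
      rw [h5, mul_one] at e2
      nlinarith [sq_nonneg (z1 * s + v * g)]
    have e3 := (abs_lt.1 ((sq_lt_one_iff_abs_lt_one _).1 e1)).1
    linarith
  have f4 : z2 * g + r * |s| ≤ 1 := by
    have e2 : (z2 * g + r * |s|) ^ 2 + (z2 * |s| - r * g) ^ 2 =
        (z2 ^ 2 + r ^ 2) * (g ^ 2 + |s| ^ 2) := by ring
    rw [hr2, hS2, h5, mul_one] at e2
    have e1 : (z2 * g + r * |s|) ^ 2 ≤ 1 := by nlinarith [sq_nonneg (z2 * |s| - r * g)]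
    exact (abs_le.1 ((sq_le_one_iff_abs_le_one _).1 e1)).2
  have f5 : z2 * |s| + r * g ≤ 1 := by
    have e2 : (z2 * |s| + r * g) ^ 2 + (z2 * g - r * |s|) ^ 2 =
        (z2 ^ 2 + r ^ 2) * (g ^ 2 + |s| ^ 2) := by ring
    rw [hr2, hS2, h5, mul_one] at e2
    have e1 : (z2 * |s| + r * g) ^ 2 ≤ 1 := by nlinarith [sq_nonneg (z2 * g - r * |s|)]
    exact (abs_le.1 ((sq_le_one_iff_abs_le_one _).1 e1)).2
  have f6 : 0 < 1 + z2 * g - r * |s| := by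
    have e2 : (z2 * |s| + r * g) ^ 2 + (z2 * g - r * |s|) ^ 2 =
        (z2 ^ 2 + r ^ 2) * (g ^ 2 + |s| ^ 2) := by ring
    rw [hr2, hS2, h5, mul_one] at e2
    by_contra hcon
    push Not at hcon
    have e3 : z2 * g - r * |s| ≤ -1 := by linarith
    have e4 : 1 ≤ (z2 * g - r * |s|) ^ 2 := by nlinarith
    have e5 : (z2 * |s| + r * g) ^ 2 ≤ 0 := by linarith
    have e6 : z2 * |s| + r * g = 0 := pow_eq_zero_iff (two_ne_zero) |>.1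
      (le_antisymm e5 (sq_nonneg _))
    have e7 : g = z2 * (z2 * g - r * |s|) + r * (z2 * |s| + r * g) := by
      have : z2 * (z2 * g - r * |s|) + r * (z2 * |s| + r * g) = (z2 ^ 2 + r ^ 2) * g := by ring
      rw [this, hr2]
      ring
    rw [e6, mul_zero, add_zero] at e7
    have e8 : z2 * (z2 * g - r * |s|) ≤ z2 * (-1) := mul_le_mul_of_nonneg_left e3 hz2.le
    linarith
  exact ⟨hz2, hr0, hr2, hg1, by nlinarith, f1, f2, f3, f4, f5, f6⟩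

end Pool.Agent.RieszFive
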