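import Pool.Agent.RieszFive.Pow
import Pool.Agent.RieszFive.Facts

set_option autoImplicit false

namespace Pool.Agent.RieszFive

open Real

/-- `z2² ≥ 1/2`: the energy is at least that of the bipyramid.
`rpow_tangent` at `w = 1`: `T12 ≥ 12 + 4q(2z1z2 - z1 g + v s)` and
`2z1z2 - z1g + vs ≥ z1(2z2 - g) - |v||s| ≥ (z1/z2)(2z2² - (z2 g + r|s|)) ≥ 0`
(`|v| ≤ z1 r/z2`, `Facts.h4`).  `rpow_tangent` at `w = 3/2` for the three bases `2-2z2²`,
`1+z2g-rs`, `1+z2g+rs`, whose sum is `4 - 2z2² + 2z2g ≤ 4 - 2z2² + 2z2 ≤ 9/2`.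
`(2-2z1²-2v²)^(-q) ≥ 2^(-q)`. -/
theorem FF_ge_eT {q z1 z2 v g s : ℝ} (hq : 0 < q) (h : Adm z1 z2 v g s)
    (hz : 1 ≤ 2 * z2 ^ 2) : 2 * eT q ≤ FF q z1 z2 v g s := by
  have F := h.facts
  set r := √(1 - z2 ^ 2) with hr
  have hz2 := F.z2_pos
  have hrp := F.r_pos
  have hz2l := h.z2_lt
  have hz10 := h.z1_nonneg
  have hg0 := h.g_nonneg
  have hvr : |r * v| = r * |v| := by rw [abs_mul, abs_of_pos hrp]
  have hsr : |r * s| = r * |s| := by rw [abs_mul, abs_of_pos hrp]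
  have hv1 := neg_abs_le (r * v)
  have hv2 := le_abs_self (r * v)
  have hs1 := neg_abs_le (r * s)
  have hs2 := le_abs_self (r * s)
  rw [hvr] at hv1 hv2
  rw [hsr] at hs1 hs2
  have hA : 0 < 1 - z1 * z2 - r * v := by linarith [F.h1]
  have hB : 0 < 1 - z1 * z2 + r * v := by linarith [F.h1]
  have hC := F.h3
  have hD : 0 < 2 - 2 * z2 ^ 2 := by nlinarith
  have hE : 0 < 1 + z2 * g - r * s := by linarith [F.h6]
  have hF : 0 < 1 + z2 * g + r * s := by linarith [F.h6]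
  have hG : 0 < 2 - 2 * z1 ^ 2 - 2 * v ^ 2 := by linarith [F.h2]
  -- the linear combination
  have hX : 0 ≤ 2 * z1 * z2 - z1 * g + v * s := by
    have h1 : -(|v| * |s|) ≤ v * s := by
      rw [← abs_mul]
      exact neg_abs_le _
    have h2 : |v| * z2 * |s| ≤ z1 * r * |s| := mul_le_mul_of_nonneg_right h.v_le (abs_nonneg s)
    have h3 : 0 ≤ z1 * (2 * z2 ^ 2 - (z2 * g + r * |s|)) :=
      mul_nonneg hz10 (by linarith [F.h4])
    have h4 : z2 * (-(|v| * |s|)) ≤ z2 * (v * s) := mul_le_mul_of_nonneg_left h1 hz2.le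
    have h5 : 0 ≤ z2 * (2 * z1 * z2 - z1 * g + v * s) := by nlinarith
    exact nonneg_of_mul_nonneg_right h5 hz2
  have one1 : ∀ p : ℝ, (1 : ℝ) ^ p = 1 := fun p => Real.one_rpow p
  have tA := rpow_tangent hq hA one_pos
  have tB := rpow_tangent hq hB one_pos
  have tC := rpow_tangent hq hC one_pos
  rw [one1, one1] at tA tB tC
  have tD := rpow_tangent hq hD (w := 3 / 2) (by norm_num)
  have tE := rpow_tangent hq hE (w := 3 / 2) (by norm_num)
  have tF := rpow_tangent hq hF (w := 3 / 2) (by norm_num)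
  have hG2 : (2 : ℝ) ^ (-q) ≤ (2 - 2 * z1 ^ 2 - 2 * v ^ 2) ^ (-q) :=
    Real.rpow_le_rpow_of_nonpos hG (by nlinarith [sq_nonneg z1, sq_nonneg v]) (by linarith)
  have hT12 : 12 ≤ T12 q z1 z2 v g s := by
    unfold T12
    have h6 : 0 ≤ q * (2 * z1 * z2 - z1 * g + v * s) := mul_nonneg hq.le hX
    rw [← hr]
    nlinarith
  have hT3 : 6 * (3 / 2 : ℝ) ^ (-q) ≤ 2 * (2 - 2 * z2 ^ 2) ^ (-q) + T3 q z2 g s := by
    unfold T3
    rw [← hr]
    have h7 : 0 ≤ q * (3 / 2 : ℝ) ^ (-(q + 1)) := mul_nonneg hq.le (Real.rpow_nonneg (by norm_num) _)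
    have h8 : 0 ≤ 9 / 2 - (4 - 2 * z2 ^ 2 + 2 * (z2 * g)) := by
      have : z2 * g ≤ z2 * 1 := mul_le_mul_of_nonneg_left F.g_le hz2.le
      nlinarith [sq_nonneg (z2 - 1 / 2)]
    have h9 := mul_nonneg h7 h8
    nlinarith
  unfold FF eT
  linarith

end Pool.Agent.RieszFive
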