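import Pool.Agent.RieszFive.PhVal

/-!
# Boolean checks for the tables A and B
-/

set_option autoImplicit false

namespace Pool.Agent.RieszFive

open Real

/-- the check of `l/k ≤ (n/m)^(-a/b)` -/
def loB (l n m a b k : ℕ) : Bool := Nat.ble (l ^ b * n ^ a) (k ^ b * m ^ a)

/-- the check of `(n/m)^(-a/b) ≤ h/k` -/
def hiB (h n m a b k : ℕ) : Bool := Nat.ble (k ^ b * m ^ a) (h ^ b * n ^ a)

theorem lo_of_loB {l n m a b k : ℕ} (hn : 0 < n) (hm : 0 < m) (hb : 0 < b) (hk : 0 < k)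
    (h : loB l n m a b k = true) : (l : ℝ) / k ≤ ((n : ℝ) / m) ^ (-((a : ℝ) / b)) :=
  lo_of_check hk hn hm hb (Nat.le_of_ble_eq_true h)

theorem hi_of_hiB {h n m a b k : ℕ} (hn : 0 < n) (hm : 0 < m) (hb : 0 < b) (hk : 0 < k)
    (hc : hiB h n m a b k = true) : ((n : ℝ) / m) ^ (-((a : ℝ) / b)) ≤ (h : ℝ) / k :=
  hi_of_check hk hn hm hb (Nat.le_of_ble_eq_true hc)

/-- a chain of intervals from `s` to `t` -/
def chainB {α : Type} (f g : α → ℕ) : ℕ → ℕ → List α → Bool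
  | s, t, [] => Nat.beq s t
  | s, t, c :: l => Nat.beq (f c) s && chainB f g (g c) t l

theorem chain_find_lt {α : Type} (f g : α → ℕ) {K : ℝ} (l : List α) :
    ∀ (s t : ℕ), chainB f g s t l = true → ∀ x : ℝ, (s : ℝ) / K < x → x ≤ (t : ℝ) / K →
      ∃ c ∈ l, (f c : ℝ) / K ≤ x ∧ x ≤ (g c : ℝ) / K := by
  induction l with
  | nil =>
    intro s t h x h1 h2
    have h3 : s = t := Nat.eq_of_beq_eq_true h
    rw [h3] at h1
    exact absurd h1 (not_lt.2 h2)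
  | cons c l ih =>
    intro s t h x h1 h2
    unfold chainB at h
    rw [Bool.and_eq_true] at h
    have h3 : f c = s := Nat.eq_of_beq_eq_true h.1
    rcases le_or_gt x ((g c : ℝ) / K) with h4 | h4
    · exact ⟨c, List.mem_cons_self, by rw [h3]; exact h1.le, h4⟩
    · obtain ⟨d, hd, h5⟩ := ih (g c) t h.2 x h4 h2
      exact ⟨d, List.mem_cons_of_mem _ hd, h5⟩

theorem chain_find {α : Type} (f g : α → ℕ) {K : ℝ} (hK : 0 < K) {l : List α} {s t : ℕ}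
    (h : chainB f g s t l = true) (hst : s < t) (hfg : ∀ c ∈ l, f c ≤ g c) {x : ℝ}
    (h1 : (s : ℝ) / K ≤ x) (h2 : x ≤ (t : ℝ) / K) :
    ∃ c ∈ l, (f c : ℝ) / K ≤ x ∧ x ≤ (g c : ℝ) / K := by
  rcases lt_or_eq_of_le h1 with h3 | h3
  · exact chain_find_lt f g l s t h x h3 h2
  · cases l with
    | nil =>
      have h4 : s = t := Nat.eq_of_beq_eq_true h
      omega
    | cons c l =>
      unfold chainB at h
      rw [Bool.and_eq_true] at h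
      have h4 : f c = s := Nat.eq_of_beq_eq_true h.1
      refine ⟨c, List.mem_cons_self, by rw [h4]; exact h1, ?_⟩
      rw [← h3, ← h4]
      have h5 : (f c : ℝ) ≤ g c := by exact_mod_cast hfg c List.mem_cons_self
      exact div_le_div_of_nonneg_right h5 hK.le

/-- the check for the upper bound `ph (a/b) (Z/10^4) ≤ (2 t1 + 4 t2 + 4 t3)/10^8` -/
def uB (a b Z t1 t2 t3 : ℕ) : Bool :=
  Nat.ble 1 a && Nat.ble 1 b && Nat.ble 1 Z && Nat.ble (Z + 1) 10000 &&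
    Nat.ble ((10 ^ 8) ^ b * (10 ^ 8) ^ a) (t1 ^ b * (2 * 10 ^ 8 - 2 * Z ^ 2) ^ a) &&
    Nat.ble ((10 ^ 8) ^ b * (10 ^ 4) ^ a) (t2 ^ b * (10 ^ 4 + Z) ^ a) &&
    Nat.ble ((10 ^ 8) ^ b * (10 ^ 8) ^ a) (t3 ^ b * (10 ^ 8 - Z ^ 2) ^ a)

theorem UB_of_uB {a b Z t1 t2 t3 : ℕ} (hc : uB a b Z t1 t2 t3 = true) {q : ℝ}
    (hq : (a : ℝ) / b ≤ q) : UB q (((2 * t1 + 4 * t2 + 4 * t3 : ℕ) : ℝ) / 10 ^ 8) := by
  unfold uB at hc
  simp only [Bool.and_eq_true] at hc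
  obtain ⟨⟨⟨⟨⟨⟨ha, hb⟩, hZ⟩, hZ1⟩, c1⟩, c2⟩, c3⟩ := hc
  have ha' := Nat.le_of_ble_eq_true ha
  have hb' := Nat.le_of_ble_eq_true hb
  have hZ' := Nat.le_of_ble_eq_true hZ
  have hZ1' := Nat.le_of_ble_eq_true hZ1
  refine PhValAux.ub_of_check (a := a) (b := b) (z := Z) (t1 := t1) (t2 := t2) (t3 := t3)
    (by omega) (by omega) (by omega) (by omega) (Nat.le_of_ble_eq_true c1)
    (Nat.le_of_ble_eq_true c2) (Nat.le_of_ble_eq_true c3) hq ?_
  push_cast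
  exact le_refl _

theorem ub_of_uB_pos {a b Z t1 t2 t3 : ℕ} (hc : uB a b Z t1 t2 t3 = true) : 1 ≤ b := by
  unfold uB at hc
  simp only [Bool.and_eq_true] at hc
  exact Nat.le_of_ble_eq_true hc.1.1.1.1.1.2

end Pool.Agent.RieszFive
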