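import Pool.Agent.RieszFive.PhVal
import Pool.Agent.RieszFive.ZLow
import Pool.Agent.RieszFive.Chk

set_option autoImplicit false

namespace Pool.Agent.RieszFive

open Real

/-- a cell of table A -/
structure CA where
  Za : ℕ
  Zb : ℕ
  L1 : ℕ
  L2 : ℕ
  D : ℕ
  E : ℕ

/-- a slab of table A -/
structure SA where
  a1 : ℕ
  a2 : ℕ
  ZC : ℕ
  L5 : ℕ
  ua : ℕ
  ub : ℕ
  uZ : ℕ
  t1 : ℕ
  t2 : ℕ
  t3 : ℕ
  cells : List CA

/-- the check of a cell -/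
def CA.ok (a1 a2 L5 U : ℕ) (c : CA) : Bool :=
  Nat.ble c.Za c.Zb && Nat.ble c.Zb 7072 && Nat.ble 1 c.L1 &&
    loB c.L1 (10 ^ 4 + c.Zb) (10 ^ 4) a2 32 (10 ^ 8) &&
    loB c.L2 (2 * 10 ^ 8 - 2 * c.Za ^ 2) (10 ^ 8) a2 32 (10 ^ 8) &&
    Nat.ble (a2 * 10 ^ 8 * 32 ^ 2 * 10 ^ 8 * 10 ^ 6)
      ((a2 + 32) * (10 ^ 4 - c.Zb) * ((10 ^ 4 + c.Zb) * c.D * 32 ^ 2 * 10 ^ 8 +
        2 * 10 ^ 6 * a1 * c.L1 * (a1 * (10 ^ 4 - c.Zb) + 32 * 10 ^ 4))) &&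
    Nat.ble (c.D ^ 2 * 6 * 32 ^ 4 * 10 ^ 8 * (10 ^ 4 + c.Zb) ^ 2)
      (4 * 10 ^ 6 * c.E * (a1 * (a1 + 32) * (a1 + 64) * (a1 + 96)) * c.L1 *
        (10 ^ 4 - c.Zb) ^ 2) &&
    Nat.ble (2 * U + 100 * c.E + 1) (12 * 10 ^ 8 + 2 * L5 + 2 * c.L2 + 4 * c.L1)

/-- the check of a slab -/
def SA.ok (s : SA) : Bool :=
  Nat.ble 32 s.a1 && Nat.ble s.a1 s.a2 && Nat.ble 5000 s.ZC && Nat.ble (s.ZC + 1) 7072 &&
    uB s.ua s.ub s.uZ s.t1 s.t2 s.t3 &&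
    (Nat.ble (s.ua * 32) (s.a1 * s.ub) || (Nat.beq s.ua 7705 && Nat.beq s.ub 1024)) &&
    loB s.L5 2 1 s.a2 32 (10 ^ 8) &&
    hiB (2 * (s.a1 + 32) * (10 ^ 8 - s.ZC ^ 2) * (s.a1 * (10 ^ 4 - s.ZC) + 32 * 10 ^ 4))
      (10 ^ 4) (10 ^ 4 + s.ZC) (s.a2 + 32) 32 (32 ^ 2 * 10 ^ 12) &&
    chainB CA.Za CA.Zb s.ZC 7072 s.cells &&
    s.cells.all (CA.ok s.a1 s.a2 s.L5 (2 * s.t1 + 4 * s.t2 + 4 * s.t3))

/-- table A -/
def tabA : List SA := [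
  { a1 := 240, a2 := 248, ZC := 5627, L5 := 464534, ua := 7705, ub := 1024, uZ := 1391,
    t1 := 629179, t2 := 37532303, t3 := 115837178,
    cells := [
      ⟨5627, 5827, 2848792, 8880564, 226050, 6087⟩,
      ⟨5827, 6122, 2468899, 11566537, 518852, 44454⟩,
      ⟨6122, 6440, 2122076, 17693365, 802773, 152766⟩,
      ⟨6440, 6744, 1841158, 29514878, 1056894, 378460⟩,
      ⟨6744, 7030, 1614680, 51145160, 1292130, 801938⟩,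
      ⟨7030, 7072, 1584148, 91462176, 1327051, 891466⟩] },
  { a1 := 248, a2 := 260, ZC := 5504, L5 := 358204, ua := 248, ub := 32, uZ := 1372,
    t1 := 538243, t2 := 36920231, t3 := 115867290,
    cells := [
      ⟨5504, 5641, 2639981, 6722983, 160565, 2654⟩,
      ⟨5641, 5849, 2371290, 8048478, 375472, 18291⟩,
      ⟨5849, 6090, 2097645, 10755365, 600927, 61524⟩,
      ⟨6090, 6330, 1859889, 15467754, 807078, 146337⟩,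
      ⟨6330, 6556, 1663363, 22945988, 990231, 287501⟩,
      ⟨6556, 6770, 1498541, 34393825, 1158603, 509601⟩,
      ⟨6770, 6978, 1355726, 52183073, 1321793, 858436⟩,
      ⟨6978, 7072, 1296251, 81079441, 1396543, 1079481⟩] },
  { a1 := 260, a2 := 272, ZC := 5413, L5 := 276213, ua := 260, ub := 32, uZ := 1341,
    t1 := 415111, t2 := 35971437, t3 := 115886380,
    cells := [
      ⟨5413, 5832, 2013473, 5262713, 449385, 25993⟩,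
      ⟨5832, 6143, 1706608, 9458131, 726860, 97405⟩,
      ⟨6143, 6386, 1503072, 15497334, 924140, 209800⟩,
      ⟨6386, 6591, 1352331, 23731527, 1082636, 368734⟩,
      ⟨6591, 6776, 1230689, 35075085, 1222810, 590877⟩,
      ⟨6776, 6953, 1125652, 51290355, 1357096, 909715⟩,
      ⟨6953, 7072, 1060675, 75811204, 1448801, 1208376⟩] },
  { a1 := 272, a2 := 284, ZC := 5324, L5 := 212989, ua := 272, ub := 32, uZ := 1312,
    t1 := 320142, t2 := 35068334, t3 := 115903547,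
    cells := [
      ⟨5324, 5941, 1594683, 4102464, 632180, 59466⟩,
      ⟨5941, 6253, 1342656, 10146449, 888035, 170004⟩,
      ⟨6253, 6467, 1195491, 17373242, 1050753, 308645⟩,
      ⟨6467, 6638, 1090755, 26069364, 1176756, 478316⟩,
      ⟨6638, 6789, 1006710, 36942959, 1286962, 691923⟩,
      ⟨6789, 6933, 933225, 51266151, 1392607, 974480⟩,
      ⟨6933, 7072, 867912, 71410255, 1496423, 1349340⟩] },
  { a1 := 284, a2 := 296, ZC := 5236, L5 := 164237, ua := 284, ub := 32, uZ := 1285,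
    t1 := 246908, t2 := 34201774, t3 := 115924579,
    cells := [
      ⟨5236, 6013, 1284184, 3181833, 767467, 98055⟩,
      ⟨6013, 6307, 1085275, 10426111, 993217, 234889⟩,
      ⟨6307, 6491, 978284, 17895909, 1126291, 379566⟩,
      ⟨6491, 6631, 904701, 25881635, 1225378, 536035⟩,
      ⟨6631, 6751, 846492, 34881353, 1309825, 714018⟩,
      ⟨6751, 6862, 796326, 45646856, 1388236, 926128⟩,
      ⟨6862, 6973, 749433, 59227556, 1467572, 1197516⟩,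
      ⟨6973, 7072, 710181, 77775084, 1539639, 1503898⟩] },
  { a1 := 296, a2 := 308, ZC := 5150, L5 := 126644, ua := 296, ub := 32, uZ := 1259,
    t1 := 190397, t2 := 33390789, t3 := 115927458,
    cells := [
      ⟨5150, 6064, 1043898, 2459520, 874810, 140186⟩,
      ⟨6064, 6334, 889168, 10443335, 1070606, 293774⟩,
      ⟨6334, 6490, 811430, 17628609, 1178510, 433691⟩,
      ⟨6490, 6602, 760249, 24448740, 1254795, 567546⟩,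
      ⟨6602, 6693, 721284, 31298056, 1316521, 702889⟩,
      ⟨6693, 6774, 688449, 38560142, 1371555, 848079⟩,
      ⟨6774, 6850, 659137, 46726596, 1423486, 1009826⟩,
      ⟨6850, 6925, 631555, 56275987, 1475209, 1198396⟩,
      ⟨6925, 7003, 604215, 67996802, 1529714, 1431014⟩,
      ⟨7003, 7072, 581115, 83304397, 1578717, 1673826⟩] },
  { a1 := 308, a2 := 316, ZC := 5116, L5 := 106494, ua := 308, ub := 32, uZ := 1234,
    t1 := 146801, t2 := 32629184, t3 := 115915657,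
    cells := [
      ⟨5116, 6156, 876401, 2131719, 971370, 190067⟩,
      ⟨6156, 6421, 746326, 11756991, 1156189, 376828⟩,
      ⟨6421, 6574, 681012, 20270336, 1259245, 544607⟩,
      ⟨6574, 6685, 637571, 28474669, 1333456, 706076⟩,
      ⟨6685, 6778, 603518, 36904775, 1395760, 874778⟩,
      ⟨6778, 6862, 574477, 46267895, 1452446, 1059686⟩,
      ⟨6862, 6944, 547605, 57168105, 1508426, 1276566⟩,
      ⟨6944, 7029, 521203, 70779424, 1567401, 1547618⟩,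
      ⟨7029, 7072, 508383, 89006617, 1597697, 1705932⟩] },
  { a1 := 316, a2 := 324, ZC := 5059, L5 := 89551, ua := 316, ub := 32, uZ := 1218,
    t1 := 123433, t2 := 32142902, t3 := 115904401,
    cells := [
      ⟨5059, 6169, 771050, 1786528, 1018782, 219062⟩,
      ⟨6169, 6416, 661329, 11431908, 1185734, 407474⟩,
      ⟨6416, 6551, 608701, 19253665, 1274306, 561242⟩,
      ⟨6551, 6645, 574779, 26141607, 1335591, 697867⟩,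
      ⟨6645, 6719, 549535, 32653971, 1383880, 826711⟩,
      ⟨6719, 6783, 528683, 39129468, 1425820, 956127⟩,
      ⟨6783, 6841, 510534, 45954141, 1464071, 1090135⟩,
      ⟨6841, 6898, 493364, 53352722, 1501974, 1239620⟩,
      ⟨6898, 6955, 476825, 61996284, 1540272, 1409292⟩,
      ⟨6955, 7016, 459799, 72295247, 1581790, 1616557⟩,
      ⟨7016, 7072, 444754, 85566013, 1620485, 1833754⟩] },
  { a1 := 324, a2 := 328, ZC := 5052, L5 := 82118, ua := 324, ub := 32, uZ := 1202,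
    t1 := 103769, t2 := 31687091, t3 := 115876349,
    cells := [
      ⟨5052, 6230, 698610, 1683439, 1069174, 253765⟩,
      ⟨6230, 6479, 597666, 12623473, 1235001, 467758⟩,
      ⟨6479, 6619, 548024, 21755773, 1326149, 648814⟩,
      ⟨6619, 6719, 515340, 30236355, 1391173, 816003⟩,
      ⟨6719, 6802, 489835, 38678812, 1445442, 985217⟩,
      ⟨6802, 6877, 467976, 47806647, 1494938, 1167037⟩,
      ⟨6877, 6949, 447995, 58251000, 1543046, 1372472⟩,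
      ⟨6949, 7024, 428172, 70824431, 1593965, 1624845⟩,
      ⟨7024, 7072, 415991, 87362194, 1627079, 1810403⟩] }
]

theorem tabA_ok : (chainB SA.a1 SA.a2 240 328 tabA && tabA.all SA.ok) = true := by
  decide +kernel

theorem CA_real {q qa qb z za zb l1 l2 l5 D E U : ℝ} (hqa : 0 < qa) (hq1 : qa ≤ q) (hq2 : q ≤ qb)
    (hza : 0 ≤ za) (h1 : za ≤ z) (h2 : z ≤ zb) (hzb : zb < 1) (hz : 2 * z ^ 2 ≤ 1)
    (hl0 : 0 < l1) (hl1 : l1 ≤ (1 + zb) ^ (-qb)) (hl2 : l2 ≤ (2 - 2 * za ^ 2) ^ (-qb))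
    (hl5 : l5 ≤ 2 ^ (-qb)) (hD0 : 0 ≤ D)
    (hD : qb / (qb + 1) / (1 - zb ^ 2) ≤ D + 2 * qa * (l1 / (1 + zb)) * (qa * (1 - zb) + 1))
    (hE : D ^ 2 ≤ E * (4 * (qa * (qa + 1) * (qa + 2) * (qa + 3) / 6 * (l1 / (1 + zb) ^ 4) *
      (1 - zb ^ 2) ^ 2)))
    (hf : U < 12 + 2 * l5 + 2 * l2 + 4 * l1 - E) :
    U < 12 + 2 * 2 ^ (-q) + 2 * (2 - 2 * z ^ 2) ^ (-q) + 4 * (1 + z) ^ (-q)
        - (max (cbar q z - c0 q z) 0) ^ 2 / (4 * c1 q z) := by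
  have hq0 : 0 < q := by linarith
  have hz0 : 0 ≤ z := hza.trans h1
  have hzb0 : 0 ≤ zb := hz0.trans h2
  have hz1 : z < 1 := by linarith
  have e1 : (1 + zb) ^ (-qb) ≤ (1 + z) ^ (-q) := by
    calc (1 + zb) ^ (-qb) ≤ (1 + zb) ^ (-q) :=
          Real.rpow_le_rpow_of_exponent_le (by linarith) (by linarith)
      _ ≤ (1 + z) ^ (-q) := Real.rpow_le_rpow_of_nonpos (by linarith) (by linarith) (by linarith)
  have e2 : (2 - 2 * za ^ 2) ^ (-qb) ≤ (2 - 2 * z ^ 2) ^ (-q) := by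
    have h3 : za ^ 2 ≤ z ^ 2 := pow_le_pow_left₀ hza h1 2
    calc (2 - 2 * za ^ 2) ^ (-qb) ≤ (2 - 2 * za ^ 2) ^ (-q) :=
          Real.rpow_le_rpow_of_exponent_le (by linarith) (by linarith)
      _ ≤ (2 - 2 * z ^ 2) ^ (-q) :=
          Real.rpow_le_rpow_of_nonpos (by linarith) (by linarith) (by linarith)
  have e5 : (2 : ℝ) ^ (-qb) ≤ 2 ^ (-q) :=
    Real.rpow_le_rpow_of_exponent_le (by norm_num) (by linarith)
  have hl1z : l1 ≤ (1 + z) ^ (-q) := hl1.trans e1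
  have hzz : 0 < 1 + z := by linarith
  have hzzb : 0 < 1 + zb := by linarith
  have hw : 0 < 1 - zb ^ 2 := by nlinarith
  have hw2 : 1 - zb ^ 2 ≤ 1 - z ^ 2 := by nlinarith
  -- c0
  have k0 : 2 * qa * (l1 / (1 + zb)) * (qa * (1 - zb) + 1) ≤ c0 q z := by
    unfold c0
    have g1 : (1 + z) ^ (-(q + 1)) = (1 + z) ^ (-q) / (1 + z) := by
      rw [show -(q + 1) = -q - 1 by ring, Real.rpow_sub_one hzz.ne']
    have g2 : l1 / (1 + zb) ≤ (1 + z) ^ (-(q + 1)) := by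
      rw [g1]
      exact div_le_div₀ (Real.rpow_nonneg hzz.le _) hl1z hzz (by linarith)
    have g3 : 2 * qa * (l1 / (1 + zb)) ≤ 2 * q * (1 + z) ^ (-(q + 1)) :=
      mul_le_mul (by linarith) g2 (by positivity) (by linarith)
    have g4 : qa * (1 - zb) + 1 ≤ q * (1 - z) + 1 := by
      have : qa * (1 - zb) ≤ q * (1 - z) := mul_le_mul hq1 (by linarith) (by linarith) hq0.le
      linarith
    have g5 : 0 ≤ qa * (1 - zb) + 1 := by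
      have : 0 ≤ qa * (1 - zb) := mul_nonneg hqa.le (by linarith)
      linarith
    refine mul_le_mul g3 g4 g5 ?_
    have := Real.rpow_nonneg hzz.le (-(q + 1))
    positivity
  -- c1
  have k1 : qa * (qa + 1) * (qa + 2) * (qa + 3) / 6 * (l1 / (1 + zb) ^ 4) * (1 - zb ^ 2) ^ 2 ≤
      c1 q z := by
    unfold c1
    have g1 : (1 + z) ^ (-(q + 4)) = (1 + z) ^ (-q) / (1 + z) ^ 4 := by
      rw [show -(q + 4) = -q - ((4 : ℕ) : ℝ) by push_cast; ring, Real.rpow_sub_natCast hzz.ne']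
    have g2 : l1 / (1 + zb) ^ 4 ≤ (1 + z) ^ (-(q + 4)) := by
      rw [g1]
      exact div_le_div₀ (Real.rpow_nonneg hzz.le _) hl1z (by positivity)
        (pow_le_pow_left₀ hzz.le (by linarith) 4)
    have g3 : qa * (qa + 1) * (qa + 2) * (qa + 3) / 6 ≤ q * (q + 1) * (q + 2) * (q + 3) / 6 := by
      have : qa * (qa + 1) * (qa + 2) * (qa + 3) ≤ q * (q + 1) * (q + 2) * (q + 3) := by
        gcongr
      linarith
    have g4 : (1 - zb ^ 2) ^ 2 ≤ (1 - z ^ 2) ^ 2 := pow_le_pow_left₀ hw.le hw2 2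
    refine mul_le_mul (mul_le_mul g3 g2 (by positivity) (by positivity)) g4 (by positivity) ?_
    have := Real.rpow_nonneg hzz.le (-(q + 4))
    positivity
  have k1p : 0 < qa * (qa + 1) * (qa + 2) * (qa + 3) / 6 * (l1 / (1 + zb) ^ 4) *
      (1 - zb ^ 2) ^ 2 := by positivity
  -- cbar
  have k2 : cbar q z ≤ qb / (qb + 1) / (1 - zb ^ 2) := by
    unfold cbar
    have g1 : q / (q + 1) ≤ qb / (qb + 1) := by
      rw [div_le_div_iff₀ (by linarith) (by linarith)]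
      nlinarith
    exact div_le_div₀ (by
      have : 0 < qb := by linarith
      positivity) g1 hw hw2
  have k3 : max (cbar q z - c0 q z) 0 ≤ D := max_le (by linarith) hD0
  have k4 : (max (cbar q z - c0 q z) 0) ^ 2 ≤ D ^ 2 := pow_le_pow_left₀ (le_max_right _ _) k3 2
  have k5 : (max (cbar q z - c0 q z) 0) ^ 2 / (4 * c1 q z) ≤ E := by
    have hc1 : 0 < c1 q z := lt_of_lt_of_le k1p k1
    have hE0 : 0 ≤ E := by
      by_contra hneg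
      push Not at hneg
      have : E * (4 * (qa * (qa + 1) * (qa + 2) * (qa + 3) / 6 * (l1 / (1 + zb) ^ 4) *
        (1 - zb ^ 2) ^ 2)) < 0 := mul_neg_of_neg_of_pos hneg (by linarith)
      linarith [sq_nonneg D]
    rw [div_le_iff₀ (by linarith)]
    refine k4.trans (hE.trans ?_)
    exact mul_le_mul_of_nonneg_left (by linarith) hE0
  linarith

private theorem ca_D {a1 a2 Z D L : ℝ} (h1 : 0 ≤ a2) (h2 : 0 ≤ Z) (h3 : Z < 10 ^ 4)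
    (h : a2 * 10 ^ 8 * 32 ^ 2 * 10 ^ 8 * 10 ^ 6 ≤
      (a2 + 32) * (10 ^ 4 - Z) * ((10 ^ 4 + Z) * D * 32 ^ 2 * 10 ^ 8 +
        2 * 10 ^ 6 * a1 * L * (a1 * (10 ^ 4 - Z) + 32 * 10 ^ 4))) :
    a2 / 32 / (a2 / 32 + 1) / (1 - (Z / 10 ^ 4) ^ 2) ≤
      D / 10 ^ 6 + 2 * (a1 / 32) * (L / 10 ^ 8 / (1 + Z / 10 ^ 4)) *
        (a1 / 32 * (1 - Z / 10 ^ 4) + 1) := by
  have p1 : 0 < 10 ^ 4 - Z := by linarith
  have p2 : 0 < 10 ^ 4 + Z := by linarith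
  have p3 : 0 < a2 + 32 := by linarith
  have eL : a2 / 32 / (a2 / 32 + 1) / (1 - (Z / 10 ^ 4) ^ 2) =
      a2 * 10 ^ 8 / ((a2 + 32) * (10 ^ 4 - Z) * (10 ^ 4 + Z)) := by
    have x1 : a2 / 32 + 1 = (a2 + 32) / 32 := by ring
    have x2 : 1 - (Z / 10 ^ 4) ^ 2 = (10 ^ 4 - Z) * (10 ^ 4 + Z) / 10 ^ 8 := by ring
    rw [x1, x2]
    field_simp
  have eR : D / 10 ^ 6 + 2 * (a1 / 32) * (L / 10 ^ 8 / (1 + Z / 10 ^ 4)) *
        (a1 / 32 * (1 - Z / 10 ^ 4) + 1) =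
      ((10 ^ 4 + Z) * D * 32 ^ 2 * 10 ^ 8 +
        2 * 10 ^ 6 * a1 * L * (a1 * (10 ^ 4 - Z) + 32 * 10 ^ 4)) /
        (10 ^ 6 * 32 ^ 2 * 10 ^ 8 * (10 ^ 4 + Z)) := by
    have x1 : 1 + Z / 10 ^ 4 = (10 ^ 4 + Z) / 10 ^ 4 := by ring
    rw [x1, div_div_eq_mul_div, eq_div_iff (by positivity)]
    have x3 : L / 10 ^ 8 * 10 ^ 4 / (10 ^ 4 + Z) * (10 ^ 4 + Z) = L / 10 ^ 8 * 10 ^ 4 :=
      div_mul_cancel₀ _ p2.ne'
    generalize L / 10 ^ 8 * 10 ^ 4 / (10 ^ 4 + Z) = W at x3 ⊢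
    linear_combination (10 ^ 6 * 32 ^ 2 * 10 ^ 8 * 2 * (a1 / 32) *
        (a1 / 32 * (1 - Z / 10 ^ 4) + 1)) * x3
  rw [eL, eR, div_le_div_iff₀ (by positivity) (by positivity)]
  calc a2 * 10 ^ 8 * (10 ^ 6 * 32 ^ 2 * 10 ^ 8 * (10 ^ 4 + Z))
      = (a2 * 10 ^ 8 * 32 ^ 2 * 10 ^ 8 * 10 ^ 6) * (10 ^ 4 + Z) := by ring
    _ ≤ ((a2 + 32) * (10 ^ 4 - Z) * ((10 ^ 4 + Z) * D * 32 ^ 2 * 10 ^ 8 +
        2 * 10 ^ 6 * a1 * L * (a1 * (10 ^ 4 - Z) + 32 * 10 ^ 4))) * (10 ^ 4 + Z) :=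
        mul_le_mul_of_nonneg_right h p2.le
    _ = _ := by ring

private theorem ca_E {a1 Z D E L : ℝ} (h2 : 0 ≤ Z)
    (h : D ^ 2 * 6 * 32 ^ 4 * 10 ^ 8 * (10 ^ 4 + Z) ^ 2 ≤
      (4 * 10 ^ 6 * E * (a1 * (a1 + 32) * (a1 + 64) * (a1 + 96)) * L * (10 ^ 4 - Z) ^ 2)) :
    (D / 10 ^ 6) ^ 2 ≤ E / 10 ^ 6 * (4 * (a1 / 32 * (a1 / 32 + 1) * (a1 / 32 + 2) *
      (a1 / 32 + 3) / 6 * (L / 10 ^ 8 / (1 + Z / 10 ^ 4) ^ 4) * (1 - (Z / 10 ^ 4) ^ 2) ^ 2)) := by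
  have p2 : 0 < 10 ^ 4 + Z := by linarith
  have eR : E / 10 ^ 6 * (4 * (a1 / 32 * (a1 / 32 + 1) * (a1 / 32 + 2) *
      (a1 / 32 + 3) / 6 * (L / 10 ^ 8 / (1 + Z / 10 ^ 4) ^ 4) * (1 - (Z / 10 ^ 4) ^ 2) ^ 2)) =
      (4 * 10 ^ 6 * E * (a1 * (a1 + 32) * (a1 + 64) * (a1 + 96)) * L * (10 ^ 4 - Z) ^ 2) /
        (10 ^ 12 * (6 * 32 ^ 4 * 10 ^ 8 * (10 ^ 4 + Z) ^ 2)) := by
    have x1 : 1 + Z / 10 ^ 4 = (10 ^ 4 + Z) / 10 ^ 4 := by ring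
    have x2 : 1 - (Z / 10 ^ 4) ^ 2 = (10 ^ 4 - Z) * (10 ^ 4 + Z) / 10 ^ 8 := by ring
    have x3 : L / 10 ^ 8 / ((10 ^ 4 + Z) / 10 ^ 4) ^ 4 * ((10 ^ 4 - Z) * (10 ^ 4 + Z) / 10 ^ 8) ^ 2
        = L / 10 ^ 8 * (10 ^ 4 - Z) ^ 2 / (10 ^ 4 + Z) ^ 2 := by
      field_simp
    rw [x1, x2, mul_assoc _ (L / 10 ^ 8 / ((10 ^ 4 + Z) / 10 ^ 4) ^ 4), x3,
      eq_div_iff (by positivity)]
    have x4 : L / 10 ^ 8 * (10 ^ 4 - Z) ^ 2 / (10 ^ 4 + Z) ^ 2 * (10 ^ 4 + Z) ^ 2 =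
        L / 10 ^ 8 * (10 ^ 4 - Z) ^ 2 := div_mul_cancel₀ _ (by positivity)
    generalize L / 10 ^ 8 * (10 ^ 4 - Z) ^ 2 / (10 ^ 4 + Z) ^ 2 = W at x4 ⊢
    linear_combination (E / 10 ^ 6 * 4 * (a1 / 32 * (a1 / 32 + 1) * (a1 / 32 + 2) *
      (a1 / 32 + 3) / 6) * (10 ^ 12 * (6 * 32 ^ 4 * 10 ^ 8))) * x4
  rw [eR, div_pow, div_le_div_iff₀ (by positivity) (by positivity)]
  calc D ^ 2 * (10 ^ 12 * (6 * 32 ^ 4 * 10 ^ 8 * (10 ^ 4 + Z) ^ 2))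
      = 10 ^ 12 * (D ^ 2 * 6 * 32 ^ 4 * 10 ^ 8 * (10 ^ 4 + Z) ^ 2) := by ring
    _ ≤ 10 ^ 12 * (4 * 10 ^ 6 * E * (a1 * (a1 + 32) * (a1 + 64) * (a1 + 96)) * L *
        (10 ^ 4 - Z) ^ 2) := mul_le_mul_of_nonneg_left h (by positivity)
    _ = _ := by ring

theorem CA.sound {a1 a2 L5 U : ℕ} {c : CA} (hc : c.ok a1 a2 L5 U = true) (ha : 32 ≤ a1)
    (hL5 : (L5 : ℝ) / 10 ^ 8 ≤ 2 ^ (-((a2 : ℝ) / 32))) {q z : ℝ}
    (hqa : (a1 : ℝ) / 32 ≤ q) (hqb : q ≤ (a2 : ℝ) / 32) (hz2 : 2 * z ^ 2 ≤ 1)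
    (hz : (c.Za : ℝ) / 10 ^ 4 ≤ z) (hz' : z ≤ (c.Zb : ℝ) / 10 ^ 4) :
    2 * ((U : ℝ) / 10 ^ 8) < 12 + 2 * 2 ^ (-q) + 2 * (2 - 2 * z ^ 2) ^ (-q) + 4 * (1 + z) ^ (-q)
        - (max (cbar q z - c0 q z) 0) ^ 2 / (4 * c1 q z) := by
  unfold CA.ok at hc
  simp only [Bool.and_eq_true] at hc
  obtain ⟨⟨⟨⟨⟨⟨⟨g1, g2⟩, g3⟩, g4⟩, g5⟩, g6⟩, g7⟩, g8⟩ := hc
  have hZab : c.Za ≤ c.Zb := Nat.le_of_ble_eq_true g1
  have hZb : c.Zb ≤ 7072 := Nat.le_of_ble_eq_true g2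
  have hL1 : 1 ≤ c.L1 := Nat.le_of_ble_eq_true g3
  have hZa2 : 2 * c.Za ^ 2 < 2 * 10 ^ 8 := by
    have h2 : c.Za ^ 2 ≤ 7072 ^ 2 := Nat.pow_le_pow_left (hZab.trans hZb) 2
    omega
  have e4 := lo_of_loB (by omega) (by norm_num) (by norm_num) (by norm_num) g4
  have e5 := lo_of_loB (by omega) (by norm_num) (by norm_num) (by norm_num) g5
  have hZbR : (c.Zb : ℝ) ≤ 7072 := by exact_mod_cast hZb
  have haR : (32 : ℝ) ≤ a1 := by exact_mod_cast ha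
  have hL1R : (1 : ℝ) ≤ c.L1 := by exact_mod_cast hL1
  have b4 : ((10 ^ 4 + c.Zb : ℕ) : ℝ) / ((10 ^ 4 : ℕ) : ℝ) = 1 + (c.Zb : ℝ) / 10 ^ 4 := by
    push_cast; ring
  have b5 : ((2 * 10 ^ 8 - 2 * c.Za ^ 2 : ℕ) : ℝ) / ((10 ^ 8 : ℕ) : ℝ) =
      2 - 2 * ((c.Za : ℝ) / 10 ^ 4) ^ 2 := by
    rw [Nat.cast_sub hZa2.le]
    push_cast
    ring
  have b32 : ((32 : ℕ) : ℝ) = 32 := by norm_num
  have b8 : ((10 ^ 8 : ℕ) : ℝ) = 10 ^ 8 := by norm_num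
  rw [b4, b32, b8] at e4
  rw [b5, b32, b8] at e5
  refine CA_real (qa := (a1 : ℝ) / 32) (qb := (a2 : ℝ) / 32) (za := (c.Za : ℝ) / 10 ^ 4)
    (zb := (c.Zb : ℝ) / 10 ^ 4) (l1 := (c.L1 : ℝ) / 10 ^ 8) (l2 := (c.L2 : ℝ) / 10 ^ 8)
    (l5 := (L5 : ℝ) / 10 ^ 8) (D := (c.D : ℝ) / 10 ^ 6) (E := (c.E : ℝ) / 10 ^ 6)
    (by positivity) hqa hqb (by positivity) hz hz' (by linarith) hz2 (by positivity) e4 e5 hL5
    (by positivity) ?_ ?_ ?_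
  · have h6 := Nat.le_of_ble_eq_true g6
    have h6R : (a2 : ℝ) * 10 ^ 8 * 32 ^ 2 * 10 ^ 8 * 10 ^ 6 ≤
        (a2 + 32) * (10 ^ 4 - c.Zb) * ((10 ^ 4 + c.Zb) * c.D * 32 ^ 2 * 10 ^ 8 +
        2 * 10 ^ 6 * a1 * c.L1 * (a1 * (10 ^ 4 - c.Zb) + 32 * 10 ^ 4)) := by
      have h7 : ((10 ^ 4 - c.Zb : ℕ) : ℝ) = 10 ^ 4 - c.Zb := by
        rw [Nat.cast_sub (by omega)]; norm_num
      have h8 : ((a2 * 10 ^ 8 * 32 ^ 2 * 10 ^ 8 * 10 ^ 6 : ℕ) : ℝ) ≤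
        (((a2 + 32) * (10 ^ 4 - c.Zb) * ((10 ^ 4 + c.Zb) * c.D * 32 ^ 2 * 10 ^ 8 +
        2 * 10 ^ 6 * a1 * c.L1 * (a1 * (10 ^ 4 - c.Zb) + 32 * 10 ^ 4)) : ℕ) : ℝ) := by
        exact_mod_cast h6
      simp only [Nat.cast_mul, Nat.cast_add, h7, Nat.cast_pow, Nat.cast_ofNat] at h8
      exact h8
    exact ca_D (by positivity) (by positivity) (by linarith) h6R
  · have h6 := Nat.le_of_ble_eq_true g7
    have h6R : (c.D : ℝ) ^ 2 * 6 * 32 ^ 4 * 10 ^ 8 * (10 ^ 4 + c.Zb) ^ 2 ≤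
      (4 * 10 ^ 6 * c.E * (a1 * (a1 + 32) * (a1 + 64) * (a1 + 96)) * c.L1 *
        (10 ^ 4 - c.Zb) ^ 2) := by
      have h7 : ((10 ^ 4 - c.Zb : ℕ) : ℝ) = 10 ^ 4 - c.Zb := by
        rw [Nat.cast_sub (by omega)]; norm_num
      have h8 : ((c.D ^ 2 * 6 * 32 ^ 4 * 10 ^ 8 * (10 ^ 4 + c.Zb) ^ 2 : ℕ) : ℝ) ≤
        ((4 * 10 ^ 6 * c.E * (a1 * (a1 + 32) * (a1 + 64) * (a1 + 96)) * c.L1 *
        (10 ^ 4 - c.Zb) ^ 2 : ℕ) : ℝ) := by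
        exact_mod_cast h6
      simp only [Nat.cast_mul, Nat.cast_add, h7, Nat.cast_pow, Nat.cast_ofNat] at h8
      exact h8
    exact ca_E (by positivity) h6R
  · have h6 := Nat.le_of_ble_eq_true g8
    have h6R : 2 * (U : ℝ) + 100 * c.E + 1 ≤ 12 * 10 ^ 8 + 2 * L5 + 2 * c.L2 + 4 * c.L1 := by
      exact_mod_cast h6
    linarith

theorem SA.sound {s : SA} (hs : s.ok = true) {q z : ℝ} (hq1 : (s.a1 : ℝ) / 32 ≤ q)
    (hq2 : q ≤ (s.a2 : ℝ) / 32) (hq0 : 7705 / 1024 ≤ q) (hz0 : 0 ≤ z) (hz : 2 * z ^ 2 ≤ 1) :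
    cbar q z ≤ c0 q z ∨ (1 / 2 ≤ z ∧ ∃ y, 0 < y ∧ y < 1 ∧ 2 * ph q y <
      12 + 2 * 2 ^ (-q) + 2 * (2 - 2 * z ^ 2) ^ (-q) + 4 * (1 + z) ^ (-q)
        - (max (cbar q z - c0 q z) 0) ^ 2 / (4 * c1 q z)) := by
  unfold SA.ok at hs
  simp only [Bool.and_eq_true] at hs
  obtain ⟨⟨⟨⟨⟨⟨⟨⟨⟨g1, g2⟩, g3⟩, g4⟩, g5⟩, g6⟩, g7⟩, g8⟩, g9⟩, g10⟩ := hs
  have k1 := Nat.le_of_ble_eq_true g1
  have k3 := Nat.le_of_ble_eq_true g3
  have k4 := Nat.le_of_ble_eq_true g4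
  have hq0' : 0 < q := by linarith
  have k1R : (32 : ℝ) ≤ s.a1 := by exact_mod_cast k1
  have k3R : (5000 : ℝ) ≤ s.ZC := by exact_mod_cast k3
  have k4R : (s.ZC : ℝ) + 1 ≤ 7072 := by exact_mod_cast k4
  rcases le_total z ((s.ZC : ℝ) / 10 ^ 4) with h5 | h5
  · left
    have hZ2 : s.ZC ^ 2 < 10 ^ 8 := by
      have h2 : s.ZC ^ 2 ≤ 7072 ^ 2 := Nat.pow_le_pow_left (by omega) 2
      omega
    have f1 := hi_of_hiB (by norm_num) (by omega) (by norm_num) (by norm_num) g8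
    refine cbar_le_c0 (qa := (s.a1 : ℝ) / 32) (qb := (s.a2 : ℝ) / 32) (by positivity) hq1 hq2 hz0
      h5 (by linarith) ?_
    have x1 : (((10 ^ 4 : ℕ) : ℝ) / ((10 ^ 4 + s.ZC : ℕ) : ℝ)) = (1 + (s.ZC : ℝ) / 10 ^ 4)⁻¹ := by
      push_cast
      have : (0 : ℝ) < 10000 + s.ZC := by positivity
      field_simp
      ring
    have x2 : ((s.a2 + 32 : ℕ) : ℝ) / ((32 : ℕ) : ℝ) = (s.a2 : ℝ) / 32 + 1 := by
      push_cast; ring
    have x3 : ((2 * (s.a1 + 32) * (10 ^ 8 - s.ZC ^ 2) *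
        (s.a1 * (10 ^ 4 - s.ZC) + 32 * 10 ^ 4) : ℕ) : ℝ) / ((32 ^ 2 * 10 ^ 12 : ℕ) : ℝ) =
        2 * ((s.a1 : ℝ) / 32 + 1) * (1 - ((s.ZC : ℝ) / 10 ^ 4) ^ 2) *
          ((s.a1 : ℝ) / 32 * (1 - (s.ZC : ℝ) / 10 ^ 4) + 1) := by
      have h7 : ((10 ^ 4 - s.ZC : ℕ) : ℝ) = 10 ^ 4 - s.ZC := by
        rw [Nat.cast_sub (by omega)]; norm_num
      have h8 : ((10 ^ 8 - s.ZC ^ 2 : ℕ) : ℝ) = 10 ^ 8 - (s.ZC : ℝ) ^ 2 := by
        rw [Nat.cast_sub hZ2.le]; norm_num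
      simp only [Nat.cast_mul, Nat.cast_add, h7, h8, Nat.cast_pow, Nat.cast_ofNat]
      ring
    have hp : (0 : ℝ) ≤ 1 + (s.ZC : ℝ) / 10 ^ 4 := by positivity
    rw [x1, x2, x3, Real.rpow_neg (inv_nonneg.2 hp), Real.inv_rpow hp, inv_inv] at f1
    exact f1
  · right
    have hzh : 1 / 2 ≤ z := by
      refine le_trans ?_ h5
      rw [div_le_div_iff₀ (by norm_num) (by norm_num)]
      linarith
    refine ⟨hzh, ?_⟩
    have hcov : z ≤ ((7072 : ℕ) : ℝ) / 10 ^ 4 := by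
      by_contra hneg
      push Not at hneg
      have h7 : (7072 : ℝ) / 10 ^ 4 < z := by
        have := hneg; push_cast at this; exact this
      have h8 : ((7072 : ℝ) / 10 ^ 4) ^ 2 < z ^ 2 := pow_lt_pow_left₀ h7 (by norm_num) (by norm_num)
      norm_num at h8
      linarith
    have hall := List.all_eq_true.1 g10
    obtain ⟨c, hc, hc1, hc2⟩ := chain_find CA.Za CA.Zb (K := 10 ^ 4) (by norm_num) g9
      (by omega) (by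
        intro c hc
        have h3 := hall c hc
        unfold CA.ok at h3
        simp only [Bool.and_eq_true] at h3
        obtain ⟨⟨⟨⟨⟨⟨⟨h4, _⟩, _⟩, _⟩, _⟩, _⟩, _⟩, _⟩ := h3
        exact Nat.le_of_ble_eq_true h4) h5 hcov
    have hL5 := lo_of_loB (by norm_num) (by norm_num) (by norm_num) (by norm_num) g7
    have hL5' : (s.L5 : ℝ) / 10 ^ 8 ≤ 2 ^ (-((s.a2 : ℝ) / 32)) := by
      have := hL5
      simp only [Nat.cast_pow, Nat.cast_ofNat, Nat.cast_one, div_one] at this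
      exact this
    have h6 := CA.sound (hall c hc) k1 hL5' hq1 hq2 hz hc1 hc2
    have hu : (s.ua : ℝ) / s.ub ≤ q := by
      have hub : 1 ≤ s.ub := ub_of_uB_pos g5
      have hubR : (1 : ℝ) ≤ s.ub := by exact_mod_cast hub
      rw [Bool.or_eq_true] at g6
      rcases g6 with h | h
      · have h7 := Nat.le_of_ble_eq_true h
        have h7' : (s.ua : ℝ) * 32 ≤ s.a1 * s.ub := by exact_mod_cast h7
        refine le_trans ?_ hq1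
        rw [div_le_div_iff₀ (by linarith) (by norm_num)]
        exact h7'
      · rw [Bool.and_eq_true] at h
        rw [Nat.eq_of_beq_eq_true h.1, Nat.eq_of_beq_eq_true h.2]
        exact_mod_cast hq0
    obtain ⟨y, hy0, hy1, hy⟩ := UB_of_uB g5 hu
    exact ⟨y, hy0, hy1, by linarith⟩

/-- Table A (`tabA.py`, `tabA.json`): 9 slabs `[a1/32, a2/32]` covering `[7.5, 10.25]`.
Slab: if `z2 ≤ ZC/10^4` use `cbar_le_c0` (check `(1+zc)^(a2+b) ≤ rhs^b`), otherwise the cell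
`[Za,Zb]` of `z2`: `c0 ≥ 2 qa l1/(1+zb) (qa(1-zb)+1)`, `l1 = L1/10^8 ≤ (1+zb)^(-qb)`,
`c1 ≥ qa(qa+1)(qa+2)(qa+3)/6 l1 (1+zb)^(-4) (1-zb²)²`, `cbar ≤ qb/(qb+1)/(1-zb²)`, `D/10^6` is an
upper bound of `max (cbar-c0) 0`, `E/10^6` one of `D²/(4c1)`, `L2/10^8 ≤ (2-2za²)^(-qb)`,
`L5/10^8 ≤ 2^(-qb)`, and `12 + 2 L5 + 2 L2 + 4 L1 - E > U2` with `U2 ≥ 2 ph` (from
`ph_ub_of_check`, `UB_of`). -/
theorem tabA_sound {q z2 : ℝ} (h1 : 7705 / 1024 ≤ q) (h2 : q ≤ 41 / 4) (hz0 : 0 ≤ z2)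
    (hz : 2 * z2 ^ 2 ≤ 1) :
    cbar q z2 ≤ c0 q z2 ∨ (1 / 2 ≤ z2 ∧ ∃ z, 0 < z ∧ z < 1 ∧ 2 * ph q z <
      12 + 2 * 2 ^ (-q) + 2 * (2 - 2 * z2 ^ 2) ^ (-q) + 4 * (1 + z2) ^ (-q)
        - (max (cbar q z2 - c0 q z2) 0) ^ 2 / (4 * c1 q z2)) := by
  have h := tabA_ok
  rw [Bool.and_eq_true] at h
  have hall := List.all_eq_true.1 h.2
  obtain ⟨s, hs, hs1, hs2⟩ := chain_find (K := 32) SA.a1 SA.a2 (by norm_num) h.1 (by norm_num) (by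
      intro c hc
      have h3 := hall c hc
      unfold SA.ok at h3
      simp only [Bool.and_eq_true] at h3
      obtain ⟨⟨⟨⟨⟨⟨⟨⟨⟨_, h4⟩, _⟩, _⟩, _⟩, _⟩, _⟩, _⟩, _⟩, _⟩ := h3
      exact Nat.le_of_ble_eq_true h4) (x := q) (by norm_num; linarith) (by norm_num; linarith)
  exact SA.sound (hall s hs) hs1 hs2 h1 hz0 hz

end Pool.Agent.RieszFive
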