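import Pool.Agent.RieszFive.HardA
import Pool.Agent.RieszFive.HardB
import Pool.Agent.RieszFive.TabA
import Pool.Agent.RieszFive.II4

set_option autoImplicit false

namespace Pool.Agent.RieszFive

open Real

/-- Part II. -/
theorem partII {q z1 z2 v g s : ℝ} (hq : 7705 / 1024 ≤ q) (h : Adm z1 z2 v g s) :
    2 * ee q z1 z2 ≤ FF q z1 z2 v g s ∨ 2 * eT q ≤ FF q z1 z2 v g s ∨
      ∃ z, 0 < z ∧ z < 1 ∧ 2 * ph q z < FF q z1 z2 v g s := by
  have hq0 : 0 < q := by linarith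
  rcases le_or_gt (cc q z1 z2) (c0 q z2) with hc | hc
  · exact Or.inl (FF_ge_ee hq0 h hc)
  rcases le_or_gt 1 (2 * z2 ^ 2) with hz | hz
  · exact Or.inr (Or.inl (FF_ge_eT hq0 h hz))
  refine Or.inr (Or.inr ?_)
  rcases le_or_gt q (41 / 4) with h1 | h1
  · have hcb := cc_le_cbar hq0 h.z1_nonneg h.z1_lt h.z2_lt
    rcases tabA_sound hq h1 h.facts.z2_pos.le hz.le with h2 | ⟨h2, z, hz0, hz1, hz2⟩
    · linarith
    · exact ⟨z, hz0, hz1, lt_of_lt_of_le hz2 (FF_ge_quart hq0 h h2)⟩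
  rcases le_or_gt q 11 with h2 | h2
  · exact hard_b1 h1.le h2 h hz.le hc
  rcases le_or_gt q 15 with h3 | h3
  · exact hard_b2 h2.le h3 h hz.le hc
  rcases le_or_gt q (88 / 5) with h4 | h4
  · exact hard_c h3.le h4 h hz.le hc
  rcases le_or_gt q 30 with h5 | h5
  · exact hard_d1 h4.le h5 h hz.le hc
  · exact hard_d2 h5.le h hz.le hc

end Pool.Agent.RieszFive
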