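import Pool.Agent.RieszFive.MonoZone
import Pool.Agent.RieszFive.PhVal

set_option autoImplicit false

namespace Pool.Agent.RieszFive

open Real

namespace LargeAux

theorem exp_411 : Real.exp (4 / 11) ≤ 1.4387 := by
  have h1 : Real.exp (4 / 11) ^ 11 = Real.exp 1 ^ 4 := by
    rw [← Real.exp_nat_mul, ← Real.exp_nat_mul]
    congr 1
    norm_num
  have h2 : Real.exp 1 ^ 4 ≤ (1.4387 : ℝ) ^ 11 := by
    have h3 : Real.exp 1 ≤ 2.7182818286 := Real.exp_one_lt_d9.le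
    calc Real.exp 1 ^ 4 ≤ (2.7182818286 : ℝ) ^ 4 := pow_le_pow_left₀ (Real.exp_pos _).le h3 4
      _ ≤ (1.4387 : ℝ) ^ 11 := by norm_num
  rw [← h1] at h2
  exact (pow_le_pow_iff_left₀ (Real.exp_pos _).le (by norm_num) (by norm_num)).1 h2

/-- `(1 - x)^(-q) ≥ exp (q x)` -/
theorem exp_le_rpow {q x : ℝ} (hq : 0 < q) (hx : x < 1) : Real.exp (q * x) ≤ (1 - x) ^ (-q) := by
  have h0 : 0 < 1 - x := by linarith
  rw [Real.rpow_def_of_pos h0]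
  apply Real.exp_le_exp.2
  have h1 := Real.log_le_sub_one_of_pos h0
  nlinarith

theorem poly (y : ℝ) : 0 ≤ 4 * y ^ 4 - 5.9 * y ^ 3 + 2 := by
  nlinarith [sq_nonneg (2 * y ^ 2 - 1.475 * y - 0.8158), sq_nonneg (y - 1.1063)]

end LargeAux

open LargeAux

/-- `((1+3/q²)/(1-1/q²))^(q+1) = (1+4/(q²-1))^(q+1) ≤ exp(4/(q-1)) ≤ exp(4/11) ≤ 1.4387`,
`(2/3)·1.4387 = .9592`; `(2/q)(2(1-1/q))^(-(q+1)) ≤ (1/6)(11/6)^(-13) ≤ .001`. -/
theorem HH_large {q : ℝ} (hq : 12 ≤ q) : HH q (1 / 3) := by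
  have hq0 : 0 < q := by linarith
  have hq1 : 0 < q - 1 := by linarith
  have hq2 : 0 < q ^ 2 - 1 := by nlinarith
  unfold HH
  have e1 : (1 + 1 / (q ^ 2 * (1 / 3))) / (1 - 1 / q ^ 2) = 1 + 4 / (q ^ 2 - 1) := by
    field_simp
    ring
  rw [e1]
  have t1 : (1 + 4 / (q ^ 2 - 1)) ^ (q + 1) ≤ 1.4387 := by
    have h1 : 1 + 4 / (q ^ 2 - 1) ≤ Real.exp (4 / (q ^ 2 - 1)) := by
      have := Real.add_one_le_exp (4 / (q ^ 2 - 1))
      linarith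
    have h2 : (1 + 4 / (q ^ 2 - 1)) ^ (q + 1) ≤ (Real.exp (4 / (q ^ 2 - 1))) ^ (q + 1) :=
      Real.rpow_le_rpow (by positivity) h1 (by linarith)
    rw [← Real.exp_mul] at h2
    have h3 : 4 / (q ^ 2 - 1) * (q + 1) = 4 / (q - 1) := by
      field_simp
      ring
    have h4 : 4 / (q - 1) ≤ 4 / 11 := by
      apply div_le_div_of_nonneg_left <;> linarith
    rw [h3] at h2
    exact h2.trans ((Real.exp_le_exp.2 h4).trans exp_411)
  have h5 : 1 / q ≤ 1 / 12 := one_div_le_one_div_of_le (by norm_num) hq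
  have h6 : 11 / 6 ≤ 2 * (1 - 1 / q) := by linarith
  have t2 : (2 * (1 - 1 / q)) ^ (-(q + 1)) ≤ 0.2 := by
    calc (2 * (1 - 1 / q)) ^ (-(q + 1)) ≤ (2 * (1 - 1 / q)) ^ (-(3 : ℝ)) :=
          Real.rpow_le_rpow_of_exponent_le (by linarith) (by linarith)
      _ ≤ (11 / 6 : ℝ) ^ (-(3 : ℝ)) :=
          Real.rpow_le_rpow_of_nonpos (by norm_num) h6 (by norm_num)
      _ ≤ 0.2 := by
          rw [Real.rpow_neg (by norm_num), show (3 : ℝ) = ((3 : ℕ) : ℝ) by norm_num,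
            Real.rpow_natCast]
          norm_num
  have t3 : 2 / q ≤ 1 / 6 := by
    have : 2 / q = 2 * (1 / q) := by ring
    rw [this]
    linarith
  have t4 : 0 ≤ 2 / q := by positivity
  have t5 : 0 ≤ (2 * (1 - 1 / q)) ^ (-(q + 1)) := Real.rpow_nonneg (by linarith) _
  have t6 : 2 / q * (2 * (1 - 1 / q)) ^ (-(q + 1)) ≤ 1 / 6 * 0.2 :=
    mul_le_mul t3 t2 t5 (by norm_num)
  linarith

/-- `z2 ∈ [1/3, 1/2]` (`z2 ≥ 1/3` suffices), `t = q z1`: `ee ≥ 4e^(t z2) + 2e^(-t) ≥ 4y + 2/y³`,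
`y = e^(t/3) ≥ 1`, and `4y⁴ - 5.9y³ + 2 ≥ 0`. -/
theorem ee_large {q z1 z2 : ℝ} (hq : 12 ≤ q) (h0 : 0 ≤ z1) (h1 : z1 < z2) (hz : 1 / 3 ≤ z2)
    (h2 : z2 < 1) : 5.9 ≤ ee q z1 z2 := by
  have hq0 : 0 < q := by linarith
  have hz1 : z1 < 1 := by linarith
  have hz2 : 0 < z2 := by linarith
  have s1 : 0 ≤ (2 - 2 * z1 ^ 2) ^ (-q) := Real.rpow_nonneg (by nlinarith) _
  have s2 : 0 ≤ (2 - 2 * z2 ^ 2) ^ (-q) := Real.rpow_nonneg (by nlinarith) _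
  have s3 : 0 ≤ (1 + z2) ^ (-q) := Real.rpow_nonneg (by linarith) _
  have e1 : Real.exp (q * (z1 * z2)) ≤ (1 - z1 * z2) ^ (-q) :=
    exp_le_rpow hq0 (by nlinarith)
  have e2 : Real.exp (q * (-z1)) ≤ (1 + z1) ^ (-q) := by
    have := exp_le_rpow (q := q) (x := -z1) hq0 (by linarith)
    rwa [sub_neg_eq_add] at this
  set y := Real.exp (q * z1 / 3) with hy
  have hy0 : 0 < y := Real.exp_pos _
  have e3 : y ≤ Real.exp (q * (z1 * z2)) := by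
    apply Real.exp_le_exp.2
    have : 0 ≤ q * z1 := mul_nonneg hq0.le h0
    nlinarith
  have e4 : Real.exp (q * (-z1)) = 1 / y ^ 3 := by
    rw [hy, ← Real.exp_nat_mul, one_div, ← Real.exp_neg]
    congr 1
    push_cast
    ring
  have e5 : 5.9 ≤ 4 * y + 2 * (1 / y ^ 3) := by
    have h3 : 4 * y + 2 * (1 / y ^ 3) - 5.9 = (4 * y ^ 4 - 5.9 * y ^ 3 + 2) / y ^ 3 := by
      field_simp
      ring
    have h4 : 0 ≤ (4 * y ^ 4 - 5.9 * y ^ 3 + 2) / y ^ 3 := div_nonneg (poly y) (by positivity)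
    linarith
  unfold ee
  rw [e4] at e2
  linarith

end Pool.Agent.RieszFive
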