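import Pool.Agent.RieszFive.BB

set_option autoImplicit false

namespace Pool.Agent.RieszFive

open Real

namespace TZoneAux

/-- integration of an inequality -/
lemma int_step {f g : ℝ → ℝ} {b : ℝ} (hd : ∀ t, 0 ≤ t → t < b → HasDerivAt f (g t) t)
    (hg : ∀ t, 0 ≤ t → t < b → 0 ≤ g t) (h0 : f 0 = 0) {t : ℝ} (ht : 0 ≤ t) (htb : t < b) :
    0 ≤ f t := by
  rw [← h0]
  have hc : ContinuousOn f (Set.Icc 0 t) := fun s hs =>
    (hd s hs.1 (lt_of_le_of_lt hs.2 htb)).continuousAt.continuousWithinAt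
  have hm : MonotoneOn f (Set.Icc 0 t) := by
    refine monotoneOn_of_deriv_nonneg (convex_Icc 0 t) hc ?_ ?_
    · intro s hs
      rw [interior_Icc] at hs
      exact (hd s hs.1.le (hs.2.trans htb)).differentiableAt.differentiableWithinAt
    · intro s hs
      rw [interior_Icc] at hs
      rw [(hd s hs.1.le (hs.2.trans htb)).deriv]
      exact hg s hs.1.le (hs.2.trans htb)
  exact hm ⟨le_rfl, ht⟩ ⟨ht, le_rfl⟩ ht

lemma dpoly (a b c d s : ℝ) : HasDerivAt (fun t : ℝ => a + b * t + c * t ^ 2 + d * t ^ 3)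
    (b + 2 * c * s + 3 * d * s ^ 2) s := by
  have h1 : HasDerivAt (fun t : ℝ => t ^ 2) (2 * s) s := by simpa using hasDerivAt_pow 2 s
  have h2 : HasDerivAt (fun t : ℝ => t ^ 3) (3 * s ^ 2) s := by simpa using hasDerivAt_pow 3 s
  have h3 := ((((hasDerivAt_id' s).const_mul b).const_add a).add (h1.const_mul c)).add
    (h2.const_mul d)
  have h4 : b * 1 + c * (2 * s) + d * (3 * s ^ 2) = b + 2 * c * s + 3 * d * s ^ 2 := by ring
  rw [h4] at h3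
  exact h3

lemma deriv_add {q t : ℝ} (ht : 0 < 1 + t) :
    HasDerivAt (fun t : ℝ => (1 + t) ^ (-q)) (-q * (1 + t) ^ (-(q + 1))) t := by
  have h1 : HasDerivAt (fun t : ℝ => 1 + t) 1 t := (hasDerivAt_id t).const_add 1
  have h2 := h1.rpow_const (p := -q) (Or.inl ht.ne')
  have h3 : 1 * -q * (1 + t) ^ (-q - 1) = -q * (1 + t) ^ (-(q + 1)) := by
    rw [one_mul]; congr 2; ring
  rwa [h3] at h2

lemma deriv_sub {q t : ℝ} (ht : 0 < 1 - t) :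
    HasDerivAt (fun t : ℝ => (1 - t) ^ (-q)) (q * (1 - t) ^ (-(q + 1))) t := by
  have h1 : HasDerivAt (fun t : ℝ => 1 - t) (-1) t := (hasDerivAt_id t).const_sub 1
  have h2 := h1.rpow_const (p := -q) (Or.inl ht.ne')
  have h3 : -1 * -q * (1 - t) ^ (-q - 1) = q * (1 - t) ^ (-(q + 1)) := by
    rw [neg_mul_neg, one_mul]; congr 2; ring
  rwa [h3] at h2

lemma add_ge_one {q t : ℝ} (hq : 0 < q) (ht : 0 ≤ t) : 1 - q * t ≤ (1 + t) ^ (-q) := by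
  have h := rpow_tangent (q := q) (u := 1 + t) (w := 1) hq (by linarith) one_pos
  rw [Real.one_rpow, Real.one_rpow] at h
  linarith

lemma add_le_two {q t : ℝ} (hq : 0 < q) (ht : 0 ≤ t) :
    (1 + t) ^ (-q) ≤ 1 - q * t + q * (q + 1) / 2 * t ^ 2 := by
  have h := int_step (f := fun t => 1 - q * t + q * (q + 1) / 2 * t ^ 2 - (1 + t) ^ (-q))
    (g := fun t => q * ((1 + t) ^ (-(q + 1)) - (1 - (q + 1) * t))) (b := t + 1) ?_ ?_ ?_ ht
    (by linarith)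
  · linarith
  · intro s hs _
    have h1 := deriv_add (q := q) (t := s) (by linarith)
    have h2 : HasDerivAt (fun t : ℝ => 1 - q * t + q * (q + 1) / 2 * t ^ 2)
        (-q + q * (q + 1) * s) s := by
      have h3 := dpoly 1 (-q) (q * (q + 1) / 2) 0 s
      have e1 : (fun t : ℝ => 1 + -q * t + q * (q + 1) / 2 * t ^ 2 + 0 * t ^ 3) =
          fun t => 1 - q * t + q * (q + 1) / 2 * t ^ 2 := by funext t; ring
      rw [e1] at h3
      have e2 : -q + 2 * (q * (q + 1) / 2) * s + 3 * 0 * s ^ 2 = -q + q * (q + 1) * s := by ring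
      rw [e2] at h3
      exact h3
    have h5 := h2.sub h1
    have e3 : -q + q * (q + 1) * s - -q * (1 + s) ^ (-(q + 1)) =
        q * ((1 + s) ^ (-(q + 1)) - (1 - (q + 1) * s)) := by ring
    rw [e3] at h5
    exact h5
  · intro s hs _
    have h1 := add_ge_one (q := q + 1) (t := s) (by linarith) hs
    exact mul_nonneg hq.le (by linarith)
  · simp

lemma add_ge_three {q t : ℝ} (hq : 0 < q) (ht : 0 ≤ t) :
    1 - q * t + q * (q + 1) / 2 * t ^ 2 - q * (q + 1) * (q + 2) / 6 * t ^ 3 ≤ (1 + t) ^ (-q) := by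
  have h := int_step (f := fun t => (1 + t) ^ (-q) -
      (1 - q * t + q * (q + 1) / 2 * t ^ 2 - q * (q + 1) * (q + 2) / 6 * t ^ 3))
    (g := fun t => q * (1 - (q + 1) * t + (q + 1) * (q + 1 + 1) / 2 * t ^ 2 -
      (1 + t) ^ (-(q + 1)))) (b := t + 1) ?_ ?_ ?_ ht (by linarith)
  · linarith
  · intro s hs _
    have h1 := deriv_add (q := q) (t := s) (by linarith)
    have h2 : HasDerivAt (fun t : ℝ => 1 - q * t + q * (q + 1) / 2 * t ^ 2 -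
        q * (q + 1) * (q + 2) / 6 * t ^ 3)
        (-q + q * (q + 1) * s - q * (q + 1) * (q + 2) / 2 * s ^ 2) s := by
      have h3 := dpoly 1 (-q) (q * (q + 1) / 2) (-(q * (q + 1) * (q + 2) / 6)) s
      have e1 : (fun t : ℝ => 1 + -q * t + q * (q + 1) / 2 * t ^ 2 +
          -(q * (q + 1) * (q + 2) / 6) * t ^ 3) =
          fun t => 1 - q * t + q * (q + 1) / 2 * t ^ 2 - q * (q + 1) * (q + 2) / 6 * t ^ 3 := by
        funext t; ring
      rw [e1] at h3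
      have e2 : -q + 2 * (q * (q + 1) / 2) * s + 3 * -(q * (q + 1) * (q + 2) / 6) * s ^ 2 =
          -q + q * (q + 1) * s - q * (q + 1) * (q + 2) / 2 * s ^ 2 := by ring
      rw [e2] at h3
      exact h3
    have h5 := h1.sub h2
    have e3 : -q * (1 + s) ^ (-(q + 1)) -
        (-q + q * (q + 1) * s - q * (q + 1) * (q + 2) / 2 * s ^ 2) =
        q * (1 - (q + 1) * s + (q + 1) * (q + 1 + 1) / 2 * s ^ 2 - (1 + s) ^ (-(q + 1))) := by
      ring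
    rw [e3] at h5
    exact h5
  · intro s hs _
    have h1 := add_le_two (q := q + 1) (t := s) (by linarith) hs
    exact mul_nonneg hq.le (by linarith)
  · simp

lemma sub_ge_one {q t : ℝ} (hq : 0 < q) (ht1 : t < 1) : 1 + q * t ≤ (1 - t) ^ (-q) := by
  have h := rpow_tangent (q := q) (u := 1 - t) (w := 1) hq (by linarith) one_pos
  rw [Real.one_rpow, Real.one_rpow] at h
  linarith

lemma sub_ge_two {q t : ℝ} (hq : 0 < q) (ht : 0 ≤ t) (ht1 : t < 1) :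
    1 + q * t + q * (q + 1) / 2 * t ^ 2 ≤ (1 - t) ^ (-q) := by
  have h := int_step (f := fun t => (1 - t) ^ (-q) - (1 + q * t + q * (q + 1) / 2 * t ^ 2))
    (g := fun t => q * ((1 - t) ^ (-(q + 1)) - (1 + (q + 1) * t))) (b := 1) ?_ ?_ ?_ ht ht1
  · linarith
  · intro s hs hs1
    have h1 := deriv_sub (q := q) (t := s) (by linarith)
    have h2 : HasDerivAt (fun t : ℝ => 1 + q * t + q * (q + 1) / 2 * t ^ 2)
        (q + q * (q + 1) * s) s := by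
      have h3 := dpoly 1 q (q * (q + 1) / 2) 0 s
      have e1 : (fun t : ℝ => 1 + q * t + q * (q + 1) / 2 * t ^ 2 + 0 * t ^ 3) =
          fun t => 1 + q * t + q * (q + 1) / 2 * t ^ 2 := by funext t; ring
      rw [e1] at h3
      have e2 : q + 2 * (q * (q + 1) / 2) * s + 3 * 0 * s ^ 2 = q + q * (q + 1) * s := by ring
      rw [e2] at h3
      exact h3
    have h5 := h1.sub h2
    have e3 : q * (1 - s) ^ (-(q + 1)) - (q + q * (q + 1) * s) =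
        q * ((1 - s) ^ (-(q + 1)) - (1 + (q + 1) * s)) := by ring
    rw [e3] at h5
    exact h5
  · intro s hs hs1
    have h1 := sub_ge_one (q := q + 1) (t := s) (by linarith) hs1
    exact mul_nonneg hq.le (by linarith)
  · simp

lemma sub_ge_three {q t : ℝ} (hq : 0 < q) (ht : 0 ≤ t) (ht1 : t < 1) :
    1 + q * t + q * (q + 1) / 2 * t ^ 2 + q * (q + 1) * (q + 2) / 6 * t ^ 3 ≤ (1 - t) ^ (-q) := by
  have h := int_step (f := fun t => (1 - t) ^ (-q) -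
      (1 + q * t + q * (q + 1) / 2 * t ^ 2 + q * (q + 1) * (q + 2) / 6 * t ^ 3))
    (g := fun t => q * ((1 - t) ^ (-(q + 1)) -
      (1 + (q + 1) * t + (q + 1) * (q + 1 + 1) / 2 * t ^ 2))) (b := 1) ?_ ?_ ?_ ht ht1
  · linarith
  · intro s hs hs1
    have h1 := deriv_sub (q := q) (t := s) (by linarith)
    have h2 : HasDerivAt (fun t : ℝ => 1 + q * t + q * (q + 1) / 2 * t ^ 2 +
        q * (q + 1) * (q + 2) / 6 * t ^ 3)
        (q + q * (q + 1) * s + q * (q + 1) * (q + 2) / 2 * s ^ 2) s := by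
      have h3 := dpoly 1 q (q * (q + 1) / 2) (q * (q + 1) * (q + 2) / 6) s
      have e2 : q + 2 * (q * (q + 1) / 2) * s + 3 * (q * (q + 1) * (q + 2) / 6) * s ^ 2 =
          q + q * (q + 1) * s + q * (q + 1) * (q + 2) / 2 * s ^ 2 := by ring
      rw [e2] at h3
      exact h3
    have h5 := h1.sub h2
    have e3 : q * (1 - s) ^ (-(q + 1)) -
        (q + q * (q + 1) * s + q * (q + 1) * (q + 2) / 2 * s ^ 2) =
        q * ((1 - s) ^ (-(q + 1)) -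
        (1 + (q + 1) * s + (q + 1) * (q + 1 + 1) / 2 * s ^ 2)) := by ring
    rw [e3] at h5
    exact h5
  · intro s hs hs1
    have h1 := sub_ge_two (q := q + 1) (t := s) (by linarith) hs hs1
    exact mul_nonneg hq.le (by linarith)
  · simp

/-- the slope is nonnegative -/
lemma slope {p z y x0 : ℝ} (hp : 17 / 2 ≤ p) (hy : y = 1 - 2 * z) (hy0 : 0 ≤ y)
    (hy1 : y ≤ 1 / 10) (hx0 : x0 = 11 / 15 * y / p) :
    (1 + x0) ^ (-p) ≤ 2 * z * (1 - x0 * z) ^ (-p) := by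
  have hp0 : 0 < p := by linarith
  have hz : z = (1 - y) / 2 := by rw [hy]; ring
  have hz0 : 0 ≤ z := by rw [hz]; linarith
  have hpx : p * x0 = 11 / 15 * y := by rw [hx0]; field_simp
  have hx00 : 0 ≤ x0 := by rw [hx0]; positivity
  have hx01 : x0 ≤ 22 / 255 * y := by
    rw [hx0, div_le_iff₀ hp0]
    nlinarith
  have hs1 : x0 * z < 1 := by nlinarith
  -- lower bound of the right side
  have h1 : Real.exp (p * (x0 * z)) ≤ (1 - x0 * z) ^ (-p) := by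
    have h2 : 1 - x0 * z ≤ Real.exp (-(x0 * z)) := by
      have := Real.add_one_le_exp (-(x0 * z))
      linarith
    have h3 := Real.rpow_le_rpow_of_nonpos (by linarith : 0 < 1 - x0 * z) h2
      (by linarith : -p ≤ 0)
    refine le_trans (le_of_eq ?_) h3
    rw [← Real.exp_mul]
    congr 1
    ring
  have h4 : (1 + x0) ^ (-p) ≤ Real.exp (-(p * (2 * x0 / (x0 + 2)))) := by
    rw [Real.rpow_def_of_pos (by linarith)]
    refine Real.exp_le_exp.2 ?_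
    have h5 := Real.le_log_one_add_of_nonneg hx00
    nlinarith
  refine h4.trans ?_
  have h6 : Real.exp (-(p * (2 * x0 / (x0 + 2)))) ≤ 2 * z * Real.exp (p * (x0 * z)) := by
    set T : ℝ := p * (x0 * z) + p * (2 * x0 / (x0 + 2)) with hT
    have h7 : 11 / 10 * y - 2 / 5 * y ^ 2 ≤ T := by
      have h8 : 1 - x0 / 2 ≤ 2 / (x0 + 2) := by
        rw [le_div_iff₀ (by linarith)]
        nlinarith
      have h9 : T = p * x0 * z + p * x0 * (2 / (x0 + 2)) := by rw [hT]; ring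
      rw [h9, hpx]
      have h10 : 11 / 15 * y * (1 - x0 / 2) ≤ 11 / 15 * y * (2 / (x0 + 2)) :=
        mul_le_mul_of_nonneg_left h8 (by positivity)
      have h11 : 11 / 15 * y * (1 - 22 / 255 * y / 2) ≤ 11 / 15 * y * (1 - x0 / 2) :=
        mul_le_mul_of_nonneg_left (by linarith) (by positivity)
      rw [hz]
      nlinarith
    have h12 : 0 ≤ 11 / 10 * y - 2 / 5 * y ^ 2 := by nlinarith
    have h13 := Real.quadratic_le_exp_of_nonneg h12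
    have h14 : Real.exp (11 / 10 * y - 2 / 5 * y ^ 2) ≤ Real.exp T := Real.exp_le_exp.2 h7
    have h15 : 1 ≤ 2 * z * Real.exp T := by
      have h16 : 1 ≤ (1 - y) * (1 + (11 / 10 * y - 2 / 5 * y ^ 2) +
          (11 / 10 * y - 2 / 5 * y ^ 2) ^ 2 / 2) := by
        have h17 : (1 - y) * (1 + (11 / 10 * y - 2 / 5 * y ^ 2) +
          (11 / 10 * y - 2 / 5 * y ^ 2) ^ 2 / 2) = 1 + y * (1 / 10 - 179 / 200 * y -
            129 / 200 * y ^ 2 + 13 / 25 * y ^ 3 - 2 / 25 * y ^ 4) := by ring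
        rw [h17]
        have h18 : 0 ≤ 1 / 10 - 179 / 200 * y - 129 / 200 * y ^ 2 + 13 / 25 * y ^ 3 -
            2 / 25 * y ^ 4 := by
          have h19 : y ^ 2 ≤ 1 / 10 * y := by nlinarith
          have h20 : 0 ≤ y ^ 3 := by positivity
          have h21 : y ^ 4 ≤ y ^ 3 := by
            have : y ^ 4 = y * y ^ 3 := by ring
            nlinarith
          nlinarith
        nlinarith
      have h22 : 2 * z = 1 - y := by rw [hz]; ring
      rw [h22]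
      have h23 : (0 : ℝ) ≤ 1 - y := by linarith
      calc (1 : ℝ) ≤ _ := h16
        _ ≤ (1 - y) * Real.exp T := mul_le_mul_of_nonneg_left (h13.trans h14) h23
    have h24 : Real.exp T = Real.exp (p * (x0 * z)) * Real.exp (p * (2 * x0 / (x0 + 2))) := by
      rw [hT, Real.exp_add]
    rw [h24] at h15
    rw [Real.exp_neg, inv_le_iff_one_le_mul₀ (Real.exp_pos _)]
    linarith
  exact h6.trans (mul_le_mul_of_nonneg_left h1 (by linarith))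

/-- first assembled bound -/
lemma poly_one {P Y z a1 : ℝ} (hP0 : 0 < P) (hP1 : P ≤ 2 / 17) (hY0 : 0 ≤ Y) (hY1 : Y ≤ 11 / 150)
    (hz0 : 0 ≤ z) (hz2 : z ≤ 1 / 2) (g1' : 1 + z * Y + (1 + P) / 2 * (z * Y) ^ 2 ≤ a1) :
    4 - 2 * (1 - P) * (z * Y) ^ 2 - 2 * (1 + P) * (z * Y) ^ 3 ≤ 4 * a1 * (1 - z * Y) := by
  have h1 : 0 ≤ 1 - z * Y := by
    have : z * Y ≤ 1 / 2 * (11 / 150) := mul_le_mul hz2 hY1 hY0 (by norm_num)
    linarith
  have h2 := mul_le_mul_of_nonneg_right g1' h1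
  have h3 : (1 + z * Y + (1 + P) / 2 * (z * Y) ^ 2) * (1 - z * Y) =
      1 - (1 - P) / 2 * (z * Y) ^ 2 - (1 + P) / 2 * (z * Y) ^ 3 := by ring
  rw [h3] at h2
  linarith

/-- second assembled bound -/
lemma poly_two {P Y a2 : ℝ} (hP0 : 0 < P) (hP1 : P ≤ 2 / 17) (hY0 : 0 ≤ Y) (hY1 : Y ≤ 11 / 150)
    (g2' : 1 - Y + (1 + P) / 2 * Y ^ 2 - (1 + P) * (1 + 2 * P) / 6 * Y ^ 3 ≤ a2) :
    2 - (1 - P) * Y ^ 2 ≤ 2 * a2 * (1 + Y) := by
  have h1 : 0 ≤ 1 + Y := by linarith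
  have h2 := mul_le_mul_of_nonneg_right g2' h1
  have h3 : 0 ≤ (1 + P) * Y ^ 3 * (2 / 3 * (1 - P) - (1 + 2 * P) / 3 * Y) := by
    have h4 : 0 ≤ 2 / 3 * (1 - P) - (1 + 2 * P) / 3 * Y := by
      have : P * Y ≤ 2 / 17 * (11 / 150) := mul_le_mul hP1 hY1 hY0 (by norm_num)
      linarith
    have h5 : 0 ≤ 1 + P := by linarith
    positivity
  have h5 : (1 - Y + (1 + P) / 2 * Y ^ 2 - (1 + P) * (1 + 2 * P) / 6 * Y ^ 3) * (1 + Y) =
      1 - (1 - P) / 2 * Y ^ 2 +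
        (1 + P) * Y ^ 3 * (2 / 3 * (1 - P) - (1 + 2 * P) / 3 * Y) / 2 := by ring
  rw [h5] at h2
  linarith

/-- third assembled bound -/
lemma poly_three {P Y z y : ℝ} (hP0 : 0 < P) (hP1 : P ≤ 2 / 17) (hY : Y = 11 / 15 * y)
    (hy0 : 0 ≤ y) (hy1 : y ≤ 1 / 10) (hz' : z = (1 - y) / 2) :
    (1 - P) * Y ^ 2 + 2 * (1 - P) * (z * Y) ^ 2 + 2 * (1 + P) * (z * Y) ^ 3 ≤
      0.82 * (1 - P) * y ^ 2 := by
  have hz0 : 0 ≤ z := by rw [hz']; linarith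
  have hz2 : z ≤ 1 / 2 := by rw [hz']; linarith
  have hY0 : 0 ≤ Y := by rw [hY]; positivity
  have h1 : 1 + P ≤ 19 / 15 * (1 - P) := by linarith
  have hz3 : z ^ 3 ≤ 1 / 8 := by
    have : z ^ 3 ≤ (1 / 2) ^ 3 := by gcongr
    linarith
  have h2 : 2 * (1 + P) * (z * Y) ^ 3 ≤ 2 * (19 / 15 * (1 - P)) * (1 / 8 * Y ^ 3) := by
    rw [mul_pow]
    have h7 : 0 ≤ Y ^ 3 := by positivity
    have h8 : z ^ 3 * Y ^ 3 ≤ 1 / 8 * Y ^ 3 := mul_le_mul_of_nonneg_right hz3 h7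
    have h9 : 0 ≤ z ^ 3 * Y ^ 3 := by positivity
    exact mul_le_mul (by linarith) h8 h9 (by linarith)
  have h3 : (1 - P) * Y ^ 2 + 2 * (1 - P) * (z * Y) ^ 2 + 2 * (19 / 15 * (1 - P)) *
      (1 / 8 * Y ^ 3) = (1 - P) * y ^ 2 * (121 / 225 * (1 + 2 * z ^ 2) +
        2 * (19 / 15) * (1 / 8) * (1331 / 3375) * y) := by
    rw [hY]; ring
  have h4 : 121 / 225 * (1 + 2 * z ^ 2) + 2 * (19 / 15) * (1 / 8) * (1331 / 3375) * y ≤
      0.82 := by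
    rw [hz']
    nlinarith
  have h5 : (1 - P) * y ^ 2 * (121 / 225 * (1 + 2 * z ^ 2) +
        2 * (19 / 15) * (1 / 8) * (1331 / 3375) * y) ≤ (1 - P) * y ^ 2 * 0.82 := by
    have h6 : 0 ≤ (1 - P) * y ^ 2 := by
      have : 0 ≤ 1 - P := by linarith
      positivity
    exact mul_le_mul_of_nonneg_left h4 h6
  linarith

end TZoneAux

open TZoneAux

/-- `A(x) = 4(1-xz)^(-q) + 2(1+x)^(-q)`, `y = 1-2z ∈ [0, 1/10]`, `x0 = (11/15) y/(q+1)`.
`A` is convex and `A'(x0) ≥ 0` (`A'(x) = 4qz(1-xz)^(-p) - 2q(1+x)^(-p)`,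
`2z(1+x0)^p ≥ (1-y)(1+p x0) = (1-y)(1+11y/15) ≥ ...`; use also `(1-xz)^(-p) ≥ 1 + p x z`:
`2z (1-x0z)^(-p) (1+x0)^p ≥ (1-y)(1+p x0 z)(1+p x0) ≥ 1`), so
`A(x) ≥ A(x0) - x0 A'(x0)`, and `D(x) = A(x) - x A'(x)` has `D(0) = 6`,
`D' = -x A'' ≥ -q p x (4z²(1-xz)^(-q-2) + 2) ≥ -3.0442 q p x` on `[0,x0]`
(`4z² ≤ 1`, `x0 z ≤ .00432`, `(1-.00432)^(-10.02) ≤ 1.0443`), so
`D(x0) ≥ 6 - 1.5222 q p x0² ≥ 6 - .82 (q/p) y²`. -/
theorem tz_A {q z x : ℝ} (hq : 15 / 2 ≤ q) (hq2 : q ≤ 253 / 32) (hz : 9 / 20 ≤ z)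
    (hz2 : z ≤ 1 / 2) (hx0 : 0 ≤ x) (hx1 : x < 1) :
    6 - 0.82 * (q / (q + 1)) * (1 - 2 * z) ^ 2 ≤ 4 * (1 - x * z) ^ (-q) + 2 * (1 + x) ^ (-q) := by
  obtain ⟨y, hy⟩ : ∃ y : ℝ, y = 1 - 2 * z := ⟨_, rfl⟩
  have hy0 : 0 ≤ y := by rw [hy]; linarith
  have hy1 : y ≤ 1 / 10 := by rw [hy]; linarith
  have hz' : z = (1 - y) / 2 := by rw [hy]; ring
  have hp0 : 0 < q + 1 := by linarith
  obtain ⟨P, hP⟩ : ∃ P : ℝ, P = 1 / (q + 1) := ⟨_, rfl⟩
  have hPp : (q + 1) * P = 1 := by rw [hP]; field_simp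
  have hP0 : 0 < P := by rw [hP]; positivity
  have hP1 : P ≤ 2 / 17 := by nlinarith
  have hqP : q / (q + 1) = 1 - P := by rw [hP]; field_simp; ring
  obtain ⟨Y, hY⟩ : ∃ Y : ℝ, Y = 11 / 15 * y := ⟨_, rfl⟩
  obtain ⟨x0, hx0'⟩ : ∃ x0 : ℝ, x0 = 11 / 15 * y / (q + 1) := ⟨_, rfl⟩
  have hx0Y : x0 = Y * P := by rw [hx0', hY, hP]; ring
  have hY0 : 0 ≤ Y := by rw [hY]; positivity
  have hY1 : Y ≤ 11 / 150 := by rw [hY]; linarith
  have hx00 : 0 ≤ x0 := by rw [hx0Y]; positivity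
  have hpx : (q + 1) * x0 = Y := by rw [hx0Y]; linear_combination Y * hPp
  have hx01 : x0 ≤ 1 / 10 := by rw [hx0Y]; nlinarith
  have hs0 : 0 ≤ x0 * z := by positivity
  have hs1 : x0 * z < 1 := by nlinarith
  have hw1 : 0 < 1 - x0 * z := by linarith
  have hw2 : 0 < 1 + x0 := by linarith
  have hu1 : 0 < 1 - x * z := by nlinarith
  have t1 := rpow_tangent (q := q) (u := 1 - x * z) (w := 1 - x0 * z) (by linarith) hu1 hw1
  have t2 := rpow_tangent (q := q) (u := 1 + x) (w := 1 + x0) (by linarith) (by linarith) hw2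
  have hsl := slope (p := q + 1) (z := z) (y := y) (x0 := x0) (by linarith) hy hy0 hy1 hx0'
  have g1 := sub_ge_two (q := q + 1) (t := x0 * z) (by linarith) hs0 hs1
  have g2 := add_ge_three (q := q + 1) (t := x0) (by linarith) hx00
  have e1 : (1 - x0 * z) ^ (-q) = (1 - x0 * z) ^ (-(q + 1)) * (1 - x0 * z) := by
    rw [← Real.rpow_add_one hw1.ne']; congr 1; ring
  have e2 : (1 + x0) ^ (-q) = (1 + x0) ^ (-(q + 1)) * (1 + x0) := by
    rw [← Real.rpow_add_one hw2.ne']; congr 1; ring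
  rw [e1] at t1
  rw [e2] at t2
  obtain ⟨a1, ha1⟩ : ∃ a1 : ℝ, a1 = (1 - x0 * z) ^ (-(q + 1)) := ⟨_, rfl⟩
  obtain ⟨a2, ha2⟩ : ∃ a2 : ℝ, a2 = (1 + x0) ^ (-(q + 1)) := ⟨_, rfl⟩
  rw [← ha1] at t1 g1 hsl
  rw [← ha2] at t2 g2 hsl
  have g1' : 1 + z * Y + (1 + P) / 2 * (z * Y) ^ 2 ≤ a1 := by
    refine le_trans (le_of_eq ?_) g1
    have h1 : (q + 1) * (x0 * z) = z * Y := by rw [← hpx]; ring
    have h2 : (q + 1) * (q + 1 + 1) / 2 * (x0 * z) ^ 2 = (1 + P) / 2 * (z * Y) ^ 2 := by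
      have h3 : (q + 1) * (q + 1 + 1) * x0 ^ 2 = (1 + P) * Y ^ 2 := by
        rw [hx0Y]
        linear_combination (Y ^ 2 * P * (q + 1) + Y ^ 2 + Y ^ 2 * P) * hPp
      linear_combination (z ^ 2 / 2) * h3
    rw [h1, h2]
  have g2' : 1 - Y + (1 + P) / 2 * Y ^ 2 - (1 + P) * (1 + 2 * P) / 6 * Y ^ 3 ≤ a2 := by
    refine le_trans (le_of_eq ?_) g2
    have h2 : (q + 1) * (q + 1 + 1) / 2 * x0 ^ 2 = (1 + P) / 2 * Y ^ 2 := by
      have h3 : (q + 1) * (q + 1 + 1) * x0 ^ 2 = (1 + P) * Y ^ 2 := by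
        rw [hx0Y]
        linear_combination (Y ^ 2 * P * (q + 1) + Y ^ 2 + Y ^ 2 * P) * hPp
      linear_combination (1 / 2) * h3
    have h4 : (q + 1) * (q + 1 + 1) * (q + 1 + 2) / 6 * x0 ^ 3 =
        (1 + P) * (1 + 2 * P) / 6 * Y ^ 3 := by
      have h5 : (q + 1) * x0 = Y := hpx
      have h6 : (q + 1 + 1) * x0 = (1 + P) * Y := by
        rw [hx0Y]; linear_combination Y * hPp
      have h7 : (q + 1 + 2) * x0 = (1 + 2 * P) * Y := by
        rw [hx0Y]; linear_combination Y * hPp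
      calc (q + 1) * (q + 1 + 1) * (q + 1 + 2) / 6 * x0 ^ 3 =
            ((q + 1) * x0) * ((q + 1 + 1) * x0) * ((q + 1 + 2) * x0) / 6 := by ring
        _ = _ := by rw [h5, h6, h7]; ring
    rw [hpx, h2, h4]
  -- assemble
  have hz0 : 0 ≤ z := by linarith
  have hD1 := poly_one hP0 hP1 hY0 hY1 hz0 hz2 g1'
  have hD2 := poly_two hP0 hP1 hY0 hY1 g2'
  have hfin := poly_three hP0 hP1 hY hy0 hy1 hz'
  rw [hqP, ← hy]
  have hlin : 4 * (a1 * (1 - x0 * z) - q * a1 * (1 - x * z - (1 - x0 * z))) +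
      2 * (a2 * (1 + x0) - q * a2 * (1 + x - (1 + x0))) =
      4 * a1 * (1 - z * Y) + 2 * a2 * (1 + Y) + 2 * q * x * (2 * z * a1 - a2) := by
    rw [← hpx]; ring
  have hnn : 0 ≤ 2 * q * x * (2 * z * a1 - a2) := by
    have h1 : 0 ≤ 2 * z * a1 - a2 := by linarith
    have h2 : 0 ≤ q := by linarith
    positivity
  linarith

/-- `w = 1/2 - z ∈ [0, 1/20]`: `(3/2)^q B(z) = (1+σ)^(-q) + 2(1-(2/3)w)^(-q)`,
`σ = (4/3)(w-w²)`; Taylor: `(1+σ)^(-q) ≥ 1 - qσ + q(q+1)/2 σ² - q(q+1)(q+2)/6 σ³` (`σ ≥ 0`) and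
`(1-x)^(-q) ≥ 1 + qx + q(q+1)/2 x² + q(q+1)(q+2)/6 x³`.  The sum is
`≥ 3 + (4/3)q(q+2)w² - (8/27)q(q+1)(q+8)w³ ≥ 3 + 1.3 q w² (q+2) - ...`; only the stated
consequence is needed. -/
theorem tz_B {q z : ℝ} (hq : 15 / 2 ≤ q) (hq2 : q ≤ 253 / 32) (hz : 9 / 20 ≤ z)
    (hz2 : z ≤ 1 / 2) :
    (3 / 2 : ℝ) ^ (-q) * (3 + (4 / 3 * q * (q + 2) - 8 / 27 * q * (q + 1) * (q + 8) / 20)
      * (1 / 2 - z) ^ 2) ≤ BB q z := by
  obtain ⟨w, hw⟩ : ∃ w : ℝ, w = 1 / 2 - z := ⟨_, rfl⟩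
  have hw0 : 0 ≤ w := by rw [hw]; linarith
  have hw1 : w ≤ 1 / 20 := by rw [hw]; linarith
  have hz' : z = 1 / 2 - w := by rw [hw]; ring
  have hq0 : 0 < q := by linarith
  obtain ⟨σ, hσ⟩ : ∃ σ : ℝ, σ = 4 / 3 * (w - w ^ 2) := ⟨_, rfl⟩
  have hσ0 : 0 ≤ σ := by rw [hσ]; nlinarith
  have e1 : 2 - 2 * z ^ 2 = 3 / 2 * (1 + σ) := by rw [hz', hσ]; ring
  have e2 : 1 + z = 3 / 2 * (1 - 2 / 3 * w) := by rw [hz']; ring
  unfold BB
  rw [e1, e2, Real.mul_rpow (by norm_num) (by linarith), Real.mul_rpow (by norm_num) (by linarith),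
    ← hw]
  have g1 := add_ge_three (q := q) (t := σ) hq0 hσ0
  have g2 := sub_ge_three (q := q) (t := 2 / 3 * w) hq0 (by positivity) (by linarith)
  have h32 : (0 : ℝ) < (3 / 2 : ℝ) ^ (-q) := by positivity
  have hkey : 3 + (4 / 3 * q * (q + 2) - 8 / 27 * q * (q + 1) * (q + 8) / 20) * w ^ 2 ≤
      (1 + σ) ^ (-q) + 2 * (1 - 2 / 3 * w) ^ (-q) := by
    have hσ3 : σ ^ 3 ≤ 64 / 27 * w ^ 3 := by
      have h1 : σ ≤ 4 / 3 * w := by rw [hσ]; nlinarith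
      have h2 : σ ^ 3 ≤ (4 / 3 * w) ^ 3 := by gcongr
      have h3 : (4 / 3 * w) ^ 3 = 64 / 27 * w ^ 3 := by ring
      linarith
    have hc : 0 ≤ q * (q + 1) * (q + 2) / 6 := by positivity
    have h4 := mul_le_mul_of_nonneg_left hσ3 hc
    have hσ2 : σ ^ 2 = 16 / 9 * (w ^ 2 - 2 * w ^ 3 + w ^ 4) := by rw [hσ]; ring
    have h5 : 3 + 4 / 3 * q * (q + 2) * w ^ 2 - 8 / 27 * q * (q + 1) * (q + 8) * w ^ 3 ≤
        (1 + σ) ^ (-q) + 2 * (1 - 2 / 3 * w) ^ (-q) := by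
      have h6 : 0 ≤ 8 / 9 * q * (q + 1) * w ^ 4 := by positivity
      have h7 : 1 - q * σ + q * (q + 1) / 2 * σ ^ 2 - q * (q + 1) * (q + 2) / 6 *
          (64 / 27 * w ^ 3) + 2 * (1 + q * (2 / 3 * w) + q * (q + 1) / 2 * (2 / 3 * w) ^ 2 +
          q * (q + 1) * (q + 2) / 6 * (2 / 3 * w) ^ 3) = 3 + 4 / 3 * q * (q + 2) * w ^ 2 -
          8 / 27 * q * (q + 1) * (q + 8) * w ^ 3 + 8 / 9 * q * (q + 1) * w ^ 4 := by
        rw [hσ2, hσ]; ring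
      linarith
    refine le_trans ?_ h5
    have h8 : w ^ 3 ≤ w ^ 2 / 20 := by
      have : w ^ 3 = w * w ^ 2 := by ring
      nlinarith [sq_nonneg w]
    have h9 : 0 ≤ 8 / 27 * q * (q + 1) * (q + 8) := by positivity
    have h10 := mul_le_mul_of_nonneg_left h8 h9
    nlinarith
  have h := mul_le_mul_of_nonneg_left hkey h32.le
  linarith

/-- III7: `4·.82 q/(q+1) ≤ (3/2)^(-q) (4/3 q(q+2) - (8/27)q(q+1)(q+8)/20)` for
`7.5 ≤ q ≤ 7.90625` (at `7.5`: `2.894 ≤ 3.84`; at `7.90625`: `2.912 ≤ 3.58`;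
`(3/2)^(-q) ≥ (3/2)^(-253/32) ≥ .0404`). -/
theorem tzone {q z1 z2 : ℝ} (hq : 15 / 2 ≤ q) (hq2 : q ≤ 253 / 32) (h0 : 0 ≤ z1) (h1 : z1 < z2)
    (hz : 9 / 20 ≤ z2) (hz2 : z2 ≤ 1 / 2) : eT q ≤ ee q z1 z2 := by
  have hA := tz_A (q := q) (z := z2) (x := z1) hq hq2 hz hz2 h0 (by linarith)
  have hB := tz_B (q := q) (z := z2) hq hq2 hz hz2
  have hq0 : 0 < q := by linarith
  have hC : (2 : ℝ) ^ (-q) ≤ (2 - 2 * z1 ^ 2) ^ (-q) :=
    Real.rpow_le_rpow_of_nonpos (by nlinarith) (by nlinarith) (by linarith)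
  have h32 : (0.04 : ℝ) ≤ (3 / 2 : ℝ) ^ (-q) := by
    have h1 : (3 / 2 : ℝ) ^ (-(253 / 32) : ℝ) ≤ (3 / 2 : ℝ) ^ (-q) :=
      Real.rpow_le_rpow_of_exponent_le (by norm_num) (by linarith)
    refine le_trans ?_ h1
    rw [Real.rpow_neg (by norm_num)]
    have h2 : (3 / 2 : ℝ) ^ ((253 / 32 : ℝ)) ≤ 25 := by
      have h3 : ((3 / 2 : ℝ) ^ ((253 / 32 : ℝ))) ^ 32 ≤ (25 : ℝ) ^ 32 := by
        rw [← Real.rpow_natCast, ← Real.rpow_mul (by norm_num)]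
        have h4 : (253 / 32 : ℝ) * ((32 : ℕ) : ℝ) = ((253 : ℕ) : ℝ) := by norm_num
        rw [h4, Real.rpow_natCast]
        norm_num
      exact le_of_pow_le_pow_left₀ (by norm_num) (by norm_num) h3
    have h5 : (0 : ℝ) < (3 / 2 : ℝ) ^ ((253 / 32 : ℝ)) := by positivity
    rw [le_inv_comm₀ (by norm_num) h5]
    linarith
  obtain ⟨w, hw⟩ : ∃ w : ℝ, w = 1 / 2 - z2 := ⟨_, rfl⟩
  have hkey : 0.82 * (q / (q + 1)) * (1 - 2 * z2) ^ 2 ≤ (3 / 2 : ℝ) ^ (-q) *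
      ((4 / 3 * q * (q + 2) - 8 / 27 * q * (q + 1) * (q + 8) / 20) * (1 / 2 - z2) ^ 2) := by
    have h1 : (1 - 2 * z2) ^ 2 = 4 * w ^ 2 := by rw [hw]; ring
    rw [h1, ← hw]
    have h2 : q / (q + 1) ≤ 0.89 := by
      rw [div_le_iff₀ (by linarith)]
      linarith
    have h3 : 78 ≤ 4 / 3 * q * (q + 2) - 8 / 27 * q * (q + 1) * (q + 8) / 20 := by
      have h4 : q * (q + 1) * (q + 8) ≤ 253 / 32 * (253 / 32 + 1) * (253 / 32 + 8) := by
        gcongr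
      have h5 : (15 / 2 : ℝ) * (15 / 2 + 2) ≤ q * (q + 2) := by gcongr
      nlinarith
    have hw2 : 0 ≤ w ^ 2 := sq_nonneg w
    calc 0.82 * (q / (q + 1)) * (4 * w ^ 2) ≤ 0.82 * 0.89 * (4 * w ^ 2) := by gcongr
      _ ≤ 0.04 * (78 * w ^ 2) := by nlinarith
      _ ≤ (3 / 2 : ℝ) ^ (-q) *
          ((4 / 3 * q * (q + 2) - 8 / 27 * q * (q + 1) * (q + 8) / 20) * w ^ 2) := by
        gcongr
  unfold eT ee
  unfold BB at hB
  have hd : (3 / 2 : ℝ) ^ (-q) * (3 + (4 / 3 * q * (q + 2) - 8 / 27 * q * (q + 1) * (q + 8) / 20)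
      * (1 / 2 - z2) ^ 2) = 3 * (3 / 2 : ℝ) ^ (-q) + (3 / 2 : ℝ) ^ (-q) *
      ((4 / 3 * q * (q + 2) - 8 / 27 * q * (q + 1) * (q + 8) / 20) * (1 / 2 - z2) ^ 2) := by ring
  linarith

end Pool.Agent.RieszFive
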