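import Pool.Agent.RieszFive.Defs

set_option autoImplicit false

namespace Pool.Agent.RieszFive

open Real

namespace PowAux

/-- the difference of the two sides, factored -/
lemma fact {q u w : ℝ} (hu : 0 < u) (hw : 0 < w) :
    u ^ (-q) - (w ^ (-q) - q * w ^ (-(q + 1)) * (u - w)) =
      w ^ (-q) * (exp (-(q * log (u / w))) - 1 + q * (u / w - 1)) := by
  have h1 : u ^ (-q) = w ^ (-q) * exp (-(q * log (u / w))) := by
    rw [rpow_def_of_pos hu, rpow_def_of_pos hw, ← exp_add, log_div hu.ne' hw.ne']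
    congr 1
    ring
  have h2 : w ^ (-(q + 1)) = w ^ (-q) * w⁻¹ := by
    rw [show -(q + 1) = -q + -1 by ring, rpow_add hw, rpow_neg_one]
  rw [h1, h2]
  field_simp
  ring

end PowAux

/-- Tangent line inequality for `u ↦ u^(-q)`.
Proof: `convexOn_rpow_left`-type convexity, or: with `y = u/w` Bernoulli `y^(-q) ≥ 1 - q (y-1)`
(`Real.one_add_mul_self_le_rpow_one_add` for negative exponents, or `log y ≤ y - 1` and
`exp x ≥ 1 + x`: `y^(-q) = exp(-q log y) ≥ 1 - q log y ≥ 1 - q (y - 1)`). -/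
theorem rpow_tangent {q u w : ℝ} (hq : 0 < q) (hu : 0 < u) (hw : 0 < w) :
    w ^ (-q) - q * w ^ (-(q + 1)) * (u - w) ≤ u ^ (-q) := by
  have h := PowAux.fact (q := q) hu hw
  have hy : 0 < u / w := div_pos hu hw
  have h1 : log (u / w) ≤ u / w - 1 := log_le_sub_one_of_pos hy
  have h2 : -(q * log (u / w)) + 1 ≤ exp (-(q * log (u / w))) := add_one_le_exp _
  have h3 : 0 ≤ w ^ (-q) * (exp (-(q * log (u / w))) - 1 + q * (u / w - 1)) := by
    refine mul_nonneg (rpow_pos_of_pos hw _).le ?_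
    nlinarith [mul_le_mul_of_nonneg_left h1 hq.le]
  linarith

/-- Strict form (`log y < y - 1` for `y ≠ 1`). -/
theorem rpow_tangent_lt {q u w : ℝ} (hq : 0 < q) (hu : 0 < u) (hw : 0 < w) (huw : u ≠ w) :
    w ^ (-q) - q * w ^ (-(q + 1)) * (u - w) < u ^ (-q) := by
  have h := PowAux.fact (q := q) hu hw
  have hy : 0 < u / w := div_pos hu hw
  have hy1 : u / w ≠ 1 := fun h => huw ((div_eq_one_iff_eq hw.ne').1 h)
  have h1 : log (u / w) < u / w - 1 := log_lt_sub_one_of_pos hy hy1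
  have h2 : -(q * log (u / w)) + 1 ≤ exp (-(q * log (u / w))) := add_one_le_exp _
  have h3 : 0 < w ^ (-q) * (exp (-(q * log (u / w))) - 1 + q * (u / w - 1)) := by
    refine mul_pos (rpow_pos_of_pos hw _) ?_
    nlinarith [mul_lt_mul_of_pos_left h1 hq]
  linarith

end Pool.Agent.RieszFive
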