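import Pool.Agent.RieszFive.PhVal
import Pool.Agent.RieszFive.Pow

set_option autoImplicit false

namespace Pool.Agent.RieszFive

open Real

namespace UTAux

lemma two_lo : (543157 : ℝ) / 100000000 ≤ (2 : ℝ) ^ (-(7705 / 1024 : ℝ)) := by
  have h := lo_of_check (l := 543157) (k := 10 ^ 8) (n := 2) (m := 1) (a := 7705) (b := 1024)
    (by norm_num) (by norm_num) (by norm_num) (by norm_num) (by decide +kernel)
  push_cast at h
  rw [div_one] at h
  exact h

lemma th_lo : (4731691 : ℝ) / 100000000 ≤ (3 / 2 : ℝ) ^ (-(7705 / 1024 : ℝ)) := by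
  have h := lo_of_check (l := 4731691) (k := 10 ^ 8) (n := 3) (m := 2) (a := 7705) (b := 1024)
    (by norm_num) (by norm_num) (by norm_num) (by norm_num) (by decide +kernel)
  push_cast at h
  exact h

lemma two_hi : (2 : ℝ) ^ (-(7705 / 1024 : ℝ)) ≤ (543158 : ℝ) / 100000000 := by
  have h := hi_of_check (l := 543158) (k := 10 ^ 8) (n := 2) (m := 1) (a := 7705) (b := 1024)
    (by norm_num) (by norm_num) (by norm_num) (by norm_num) (by decide +kernel)
  push_cast at h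
  rw [div_one] at h
  exact h

lemma th_hi : (3 / 2 : ℝ) ^ (-(7705 / 1024 : ℝ)) ≤ (4731692 : ℝ) / 100000000 := by
  have h := hi_of_check (l := 4731692) (k := 10 ^ 8) (n := 3) (m := 2) (a := 7705) (b := 1024)
    (by norm_num) (by norm_num) (by norm_num) (by norm_num) (by decide +kernel)
  push_cast at h
  exact h

lemma log_th : Real.log (3 / 2) ≤ 0.4056 := by
  rw [Real.log_le_iff_le_exp (by norm_num)]
  refine le_trans ?_ (Real.sum_le_exp_of_nonneg (by norm_num : (0 : ℝ) ≤ 0.4056) 6)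
  norm_num [Finset.sum_range_succ, Nat.factorial]

lemma slope_pow {a q0 q : ℝ} (ha : 0 < a) :
    a ^ (-q0) * (1 - (q - q0) * Real.log a) ≤ a ^ (-q) := by
  have h1 : a ^ (-q) = a ^ (-q0) * Real.exp (-((q - q0) * Real.log a)) := by
    rw [Real.rpow_def_of_pos ha, Real.rpow_def_of_pos ha, ← Real.exp_add]
    congr 1
    ring
  rw [h1]
  apply mul_le_mul_of_nonneg_left _ (Real.rpow_nonneg ha.le _)
  have := Real.add_one_le_exp (-((q - q0) * Real.log a))
  linarith

lemma ph_eq {q z : ℝ} : ph q z = 2 * (2 - 2 * z ^ 2) ^ (-q) + 4 * (1 + z) ^ (-q)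
    + 4 * (1 - z ^ 2) ^ (-q) := by
  unfold ph ee
  rw [← sq]
  ring

/-- `(1-θ²x)^(-q) ≤ (1-x)^(-q0) exp (- q0 x h / q)` -/
lemma third {q0 q x : ℝ} (hq0 : 0 < q0) (hq : q0 ≤ q) (hx1 : x < 1) :
    (1 - (q0 / q) ^ 2 * x) ^ (-q) ≤ (1 - x) ^ (-q0) * Real.exp (-(q0 * x * (q - q0) / q)) := by
  have hqp : 0 < q := lt_of_lt_of_le hq0 hq
  have hx : 0 < 1 - x := by linarith
  set θ := q0 / q with hθ
  have hθ0 : 0 < θ := by positivity
  have hθ1 : θ ≤ 1 := by rw [hθ, div_le_one hqp]; exact hq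
  have hθ2 : θ ^ 2 ≤ 1 := by nlinarith
  have hθq : θ * q = q0 := by rw [hθ]; field_simp
  -- Bernoulli
  have h1 : (1 - x) ^ (θ ^ 2) ≤ 1 - θ ^ 2 * x := by
    have := rpow_one_add_le_one_add_mul_self (s := -x) (by linarith) (p := θ ^ 2)
      (by positivity) hθ2
    have e1 : 1 + -x = 1 - x := by ring
    have e2 : 1 + θ ^ 2 * -x = 1 - θ ^ 2 * x := by ring
    rw [e1, e2] at this
    exact this
  have h2 : (1 - θ ^ 2 * x) ^ (-q) ≤ ((1 - x) ^ (θ ^ 2)) ^ (-q) :=
    Real.rpow_le_rpow_of_nonpos (Real.rpow_pos_of_pos hx _) h1 (by linarith)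
  refine h2.trans ?_
  rw [← Real.rpow_mul hx.le]
  have e3 : θ ^ 2 * -q = -q0 + q0 * (1 - θ) := by
    have : θ ^ 2 * q = θ * q0 := by rw [sq, mul_assoc, hθq]
    linear_combination -this
  rw [e3, Real.rpow_add hx]
  apply mul_le_mul_of_nonneg_left _ (Real.rpow_nonneg hx.le _)
  rw [Real.rpow_def_of_pos hx]
  apply Real.exp_le_exp.2
  have h4 := Real.log_le_sub_one_of_pos hx
  have h5 : q0 * x * (q - q0) / q = x * (q0 * (1 - θ)) := by
    rw [hθ]; field_simp
  rw [h5]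
  have h6 : 0 ≤ q0 * (1 - θ) := mul_nonneg hq0.le (by linarith)
  nlinarith

lemma slope_aux {q q0 z0 : ℝ} (hq0def : q0 = 7705 / 1024) (hz0def : z0 = 0.1391) (h1 : q0 ≤ q)
    (h2 : q ≤ 8) : ph q (q0 * z0 / q) ≤ ph q0 z0 - 0.0614 * (q - q0) := by
  have hq0 : (0 : ℝ) < q0 := by rw [hq0def]; norm_num
  have hqp : 0 < q := lt_of_lt_of_le hq0 h1
  have hz0 : 0 < z0 := by rw [hz0def]; norm_num
  have hz1 : z0 < 1 := by rw [hz0def]; norm_num
  have hx1 : z0 ^ 2 < 1 := by nlinarith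
  have hx : 0 < 1 - z0 ^ 2 := by linarith
  have t3 := third (x := z0 ^ 2) hq0 h1 hx1
  have ez : (q0 * z0 / q) ^ 2 = (q0 / q) ^ 2 * z0 ^ 2 := by ring
  rw [ph_eq, ph_eq, ez]
  set Z := (q0 / q) ^ 2 * z0 ^ 2 with hZ
  have hθ1 : q0 / q ≤ 1 := by rw [div_le_one hqp]; exact h1
  have hθ0 : 0 < q0 / q := by positivity
  have hZ1 : Z < 1 := by
    rw [hZ]; nlinarith [mul_pos hθ0 hθ0, mul_pos hz0 hz0]
  have hZp : 0 < 1 - Z := by linarith
  -- the exponential
  have hy0 : 0 ≤ q0 * z0 ^ 2 * (q - q0) / q := by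
    have : 0 ≤ q - q0 := by linarith
    positivity
  have hexp1 : Real.exp (-(q0 * z0 ^ 2 * (q - q0) / q)) ≤ 1 := by
    rw [Real.exp_le_one_iff]; linarith
  have hone : 1 ≤ (1 - z0 ^ 2) ^ (-q0) :=
    Real.one_le_rpow_of_pos_of_le_one_of_nonpos hx (by nlinarith [sq_nonneg z0]) (by linarith)
  have t1 : (1 - Z) ^ (-q) ≤ (1 - z0 ^ 2) ^ (-q0) :=
    t3.trans (mul_le_of_le_one_right (by positivity) hexp1)
  have s1 : (2 - 2 * Z) ^ (-q) ≤ (2 - 2 * z0 ^ 2) ^ (-q0) := by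
    have e1 : 2 - 2 * Z = 2 * (1 - Z) := by ring
    have e2 : 2 - 2 * z0 ^ 2 = 2 * (1 - z0 ^ 2) := by ring
    rw [e1, e2, Real.mul_rpow (by norm_num) hZp.le, Real.mul_rpow (by norm_num) hx.le]
    apply mul_le_mul _ t1 (by positivity) (by positivity)
    exact Real.rpow_le_rpow_of_exponent_le (by norm_num) (by linarith)
  have s2 : (1 + q0 * z0 / q) ^ (-q) ≤ (1 + z0) ^ (-q0) := by
    have b := rpow_one_add_le_one_add_mul_self (s := z0) (by linarith) (p := q0 / q)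
      hθ0.le hθ1
    have e1 : 1 + q0 * z0 / q = 1 + q0 / q * z0 := by ring
    rw [e1]
    have c := Real.rpow_le_rpow_of_nonpos (Real.rpow_pos_of_pos (by linarith : 0 < 1 + z0) _) b
      (z := -q) (by linarith)
    rw [← Real.rpow_mul (by linarith)] at c
    have e2 : q0 / q * -q = -q0 := by field_simp
    rwa [e2] at c
  -- `1 - exp (-y) ≥ ...`
  set y := q0 * z0 ^ 2 * (q - q0) / q with hy
  have hh : 0 ≤ q - q0 := by linarith
  have hyl : 0.0181 * (q - q0) ≤ y := by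
    rw [hy, le_div_iff₀ hqp]
    have : 0.0181 * q ≤ q0 * z0 ^ 2 := by
      rw [hq0def, hz0def]
      norm_num
      linarith
    nlinarith
  have hyu : y ≤ 0.01 := by
    rw [hy, div_le_iff₀ hqp]
    have e : q0 * z0 ^ 2 ≤ 0.146 := by
      rw [hq0def, hz0def]
      norm_num
    have e' : q - q0 ≤ 0.476 := by
      rw [hq0def]; linarith
    have e'' : 7.5 ≤ q := by
      have : (7.5 : ℝ) ≤ q0 := by rw [hq0def]; norm_num
      linarith
    have : q0 * z0 ^ 2 * (q - q0) ≤ 0.146 * 0.476 := by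
      apply mul_le_mul e e' hh (by norm_num)
    norm_num at this e'' ⊢
    linarith
  have hexp2 : Real.exp (-y) ≤ 1 - 0.9 * y := by
    -- `exp (-y) ≤ 1/(1+y)`
    have e1 : 1 + y ≤ Real.exp y := by
      have := Real.add_one_le_exp y
      linarith
    have e2 : Real.exp (-y) ≤ 1 / (1 + y) := by
      rw [Real.exp_neg, ← one_div]
      exact one_div_le_one_div_of_le (by linarith) e1
    refine e2.trans ?_
    rw [div_le_iff₀ (by linarith)]
    nlinarith
  have hfin : (1 - z0 ^ 2) ^ (-q0) * Real.exp (-y) ≤ (1 - z0 ^ 2) ^ (-q0) - 0.9 * y := by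
    have e1 : (1 - z0 ^ 2) ^ (-q0) * Real.exp (-y) ≤ (1 - z0 ^ 2) ^ (-q0) * (1 - 0.9 * y) :=
      mul_le_mul_of_nonneg_left hexp2 (by positivity)
    nlinarith
  have : 0.0614 * (q - q0) ≤ 4 * (0.9 * y) := by
    norm_num at hyl ⊢
    linarith
  linarith [t3]

end UTAux

open UTAux

/-- `eT` is antitone. -/
theorem eT_anti {q q' : ℝ} (h : q ≤ q') : eT q' ≤ eT q := by
  unfold eT
  have h1 : (2 : ℝ) ^ (-q') ≤ 2 ^ (-q) :=
    Real.rpow_le_rpow_of_exponent_le (by norm_num) (by linarith)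
  have h2 : (3 / 2 : ℝ) ^ (-q') ≤ (3 / 2) ^ (-q) :=
    Real.rpow_le_rpow_of_exponent_le (by norm_num) (by linarith)
  linarith

/-- `eT q0 ≥ 6.1473823` by `lo_of_check` (`(2,1)`, `(3,2)` with `a = 7705`, `b = 1024`,
`k = 10^8`; `l = 543204`-ish and `4731...`: compute the largest admissible values). -/
theorem eT_q0 : (6.1473823 : ℝ) ≤ eT (7705 / 1024) := by
  unfold eT
  have h1 := two_lo
  have h2 := th_lo
  norm_num at h1 h2 ⊢
  linarith

/-- convexity of `q ↦ c^(-q)`: `eT q ≥ eT q0 - .0614 (q - q0)`: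
`2^(-q0) log 2 + 3 (3/2)^(-q0) log (3/2) = .003765 + .057571 = .061336`
(`eT q0 ≤ 6.14741`, `a^(-q) ≥ a^(-q0)(1 - (q-q0) log a)`). -/
theorem eT_slope {q : ℝ} (h1 : 7705 / 1024 ≤ q) :
    eT (7705 / 1024) - 0.0614 * (q - 7705 / 1024) ≤ eT q := by
  have a1 := slope_pow (a := 2) (q0 := 7705 / 1024) (q := q) (by norm_num)
  have a2 := slope_pow (a := 3 / 2) (q0 := 7705 / 1024) (q := q) (by norm_num)
  have b1 := two_hi
  have b2 := th_hi
  have b1' : 0 < (2 : ℝ) ^ (-(7705 / 1024 : ℝ)) := by positivity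
  have b2' : 0 < (3 / 2 : ℝ) ^ (-(7705 / 1024 : ℝ)) := by positivity
  have l1 := Real.log_two_lt_d9
  have l1' : 0 < Real.log 2 := Real.log_pos (by norm_num)
  have l2 := log_th
  have l2' : 0 < Real.log (3 / 2) := Real.log_pos (by norm_num)
  have c1 : (2 : ℝ) ^ (-(7705 / 1024 : ℝ)) * Real.log 2 ≤ 543158 / 100000000 * 0.6931471808 :=
    mul_le_mul b1 l1.le l1'.le (by norm_num)
  have c2 : (3 / 2 : ℝ) ^ (-(7705 / 1024 : ℝ)) * Real.log (3 / 2) ≤ 4731692 / 100000000 * 0.4056 :=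
    mul_le_mul b2 l2 l2'.le (by norm_num)
  unfold eT
  set A := (2 : ℝ) ^ (-(7705 / 1024 : ℝ))
  set B := (3 / 2 : ℝ) ^ (-(7705 / 1024 : ℝ))
  have hh : 0 ≤ q - 7705 / 1024 := by linarith
  have c3 : A * Real.log 2 + 3 * (B * Real.log (3 / 2)) ≤ 0.0614 := by
    norm_num at c1 c2 ⊢
    linarith
  have c4 : (q - 7705 / 1024) * (A * Real.log 2 + 3 * (B * Real.log (3 / 2))) ≤
      (q - 7705 / 1024) * 0.0614 := mul_le_mul_of_nonneg_left c3 hh
  have a1' : A * (1 - (q - 7705 / 1024) * Real.log 2) =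
    A - (q - 7705 / 1024) * (A * Real.log 2) := by ring
  have a2' : B * (1 - (q - 7705 / 1024) * Real.log (3 / 2)) =
    B - (q - 7705 / 1024) * (B * Real.log (3 / 2)) := by ring
  rw [a1'] at a1
  rw [a2'] at a2
  linarith

/-- `q0 ≤ q ≤ 8`, `z0 = .1391`, `z = q0 z0/q`, `h = q-q0`: as in `ph_scale` all terms decrease,
and `(1-z²)^(-q) ≤ (1-z0²)^(-q0) exp(-q0 z0² h/q)`: `-q log(1-z²) = Σ (q z²)^k.../...`; precisely
`g(x) = -log(1-x)/x` is increasing so `-q log(1-z²) = q z² g(z²)`, `q z² = q0² z0²/q`, hence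
`-q0 log(1-z0²) + q log (1-z²) ≥ (q0 z0² - q z²) g(z²) ≥ q0 z0² - q0² z0²/q = q0 z0² h/q`.
`q0 z0² ≥ .14558`; `4(1-z0²)^(-q0) ≥ 4.63` (`≥ 4 exp(q0 z0²)`) and `1 - e^(-x) ≥ x - x²/2`. -/
theorem ph_slope {q : ℝ} (h1 : 7705 / 1024 ≤ q) (h2 : q ≤ 8) :
    ph q (7705 / 1024 * 0.1391 / q) ≤ ph (7705 / 1024) 0.1391 - 0.0614 * (q - 7705 / 1024) :=
  slope_aux rfl rfl h1 h2

/-- UT: the bipyramid is beaten by a square pyramid for all `q ≥ q0`.
`q ≤ 8`: `ph_slope`, `eT_slope`, `eT_q0` and the value `6.14736282` (inside `ub_q0`: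
`ph_ub_of_check` with `(7705, 1024, 1391, …)`); `[8,17/2]`: `eT q ≥ eT (17/2) ≥ 6.098 > 6.09557`;
`[17/2,9]`: `eT q ≥ eT 9 ≥ 6.079 > 6.04528`; `q ≥ 9`: `eT q > 6 > 5.99865`. -/
theorem beat_eT {q : ℝ} (h1 : 7705 / 1024 ≤ q) : Beat q (eT q) := by
  rcases le_total q 8 with h8 | h8
  · have hqp : 0 < q := lt_of_lt_of_le (by norm_num) h1
    refine ⟨7705 / 1024 * 0.1391 / q, by positivity, ?_, ?_⟩
    · rw [div_lt_one hqp]
      refine lt_of_lt_of_le ?_ h1
      norm_num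
    · have a := ph_slope h1 h8
      have b := eT_slope h1
      have c := eT_q0
      have d := ph_ub_of_check (a := 7705) (b := 1024) (z := 1391) (t1 := 629179)
        (t2 := 37532303) (t3 := 115837178) (by norm_num) (by norm_num) (by decide +kernel)
        (by decide +kernel) (by decide +kernel)
      have e : ((1391 : ℕ) : ℝ) / 10 ^ 4 = 0.1391 := by norm_num
      rw [e] at d
      push_cast at d
      norm_num at a b c d ⊢
      linarith
  · rcases le_total q (17 / 2) with h85 | h85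
    · refine (ub_8 h8).beat (lt_of_lt_of_le ?_ (eT_anti h85))
      unfold eT
      have a := lo_of_check (l := 318) (k := 10000) (n := 3) (m := 2) (a := 17) (b := 2)
        (by norm_num) (by norm_num) (by norm_num) (by norm_num) (by decide +kernel)
      have b := lo_of_check (l := 2) (k := 1000) (n := 2) (m := 1) (a := 17) (b := 2)
        (by norm_num) (by norm_num) (by norm_num) (by norm_num) (by decide +kernel)
      push_cast at a b
      rw [div_one] at b
      norm_num at a b ⊢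
      linarith
    · rcases le_total q 9 with h9 | h9
      · refine (ub_85 h85).beat (lt_of_lt_of_le ?_ (eT_anti h9))
        unfold eT
        have a := lo_of_check (l := 25) (k := 1000) (n := 3) (m := 2) (a := 9) (b := 1)
          (by norm_num) (by norm_num) (by norm_num) (by norm_num) (by decide +kernel)
        push_cast at a
        rw [div_one] at a
        have b : (0 : ℝ) < 2 ^ (-(9 : ℝ)) := by positivity
        have e : (6.04528 : ℝ) = 604528 / 100000 := by norm_num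
        rw [e]
        linarith
      · refine (ub_9 h9).beat ?_
        unfold eT
        have a : (0 : ℝ) < (3 / 2) ^ (-q) := by positivity
        have b : (0 : ℝ) < 2 ^ (-q) := by positivity
        norm_num
        linarith

end Pool.Agent.RieszFive
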