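import Pool.Agent.RieszFive.TabB
import Pool.Agent.RieszFive.TZone
import Pool.Agent.RieszFive.Large
import Pool.Agent.RieszFive.UT

set_option autoImplicit false

namespace Pool.Agent.RieszFive

open Real

theorem Beat.mono {q E E' : ℝ} (h : Beat q E) (hE : E ≤ E') : Beat q E' := by
  obtain ⟨z, h0, h1, h2⟩ := h
  exact ⟨z, h0, h1, lt_of_lt_of_le h2 hE⟩

/-- Part III. -/
theorem partIII {q z1 z2 : ℝ} (hq : 7705 / 1024 ≤ q) (h0 : 0 ≤ z1) (h1 : z1 < z2)
    (h2 : z2 < 1) : Beat q (ee q z1 z2) := by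
  have hq0 : 0 < q := by linarith
  have hq1 : 1 < q := by linarith
  have hz2 : 0 < z2 := lt_of_le_of_lt h0 h1
  rcases le_or_gt (1 / q ^ 2) (z1 * z2) with hp | hp
  · have hpos : 0 < 1 / q ^ 2 := by positivity
    have hz1 : 0 < z1 := by
      rcases h0.eq_or_lt with h | h
      · exfalso
        rw [← h, zero_mul] at hp
        linarith
      · exact h
    refine ⟨√(z1 * z2), Real.sqrt_pos.mpr (by positivity), ?_, ?_⟩
    · rw [Real.sqrt_lt' one_pos]
      nlinarith
    · refine sym_prod hq0 hz1 hz2 (by linarith) h2 (Real.sqrt_pos.mpr (by positivity)) ?_ h1.ne ?_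
      · rw [Real.sq_sqrt (by positivity)]
      · have h3 : 1 / q ≤ √(z1 * z2) := by
          apply Real.le_sqrt_of_sq_le
          rw [div_pow, one_pow]
          exact hp
        rw [div_le_iff₀ hq0] at h3
        linarith
  rcases le_or_gt (1 / 2) z2 with h3 | h3
  · exact (beat_eT hq).mono (ee_ge_eT hq0 h0 (by linarith) h3 h2)
  have hmono : ∀ zb, z2 ≤ zb → 1 / q ≤ zb → zb < 1 → HH q zb → Beat q (ee q z1 z2) := by
    intro zb ha hb hc hd
    refine ⟨1 / q, by positivity, ?_, mono_zone hq1 h0 h1 ha hb hc hp hd⟩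
    rw [div_lt_one hq0]
    exact hq1
  rcases le_or_gt q 12 with h4 | h4
  · rcases tabB_sound hq h4 h0 h1 h3.le with ⟨zb, ha, hb, hc, hd⟩ | ⟨ha, hb⟩ | h5
    · exact hmono zb ha hb hc hd
    · exact (beat_eT hq).mono (tzone (by linarith) ha h0 h1 hb h3.le)
    · exact h5
  · rcases le_or_gt z2 (1 / 3) with h5 | h5
    · refine hmono (1 / 3) h5 ?_ (by norm_num) (HH_large h4.le)
      rw [div_le_div_iff₀ hq0 (by norm_num)]
      linarith
    · exact (ub_12 h4.le).beat (lt_of_lt_of_le (by norm_num) (ee_large h4.le h0 h1 h5.le h2))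

end Pool.Agent.RieszFive
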