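import Pool.Agent.RieszFive.Pow

set_option autoImplicit false

namespace Pool.Agent.RieszFive

open Real

/-- `B(z) = (2-2z²)^(-q) + 2(1+z)^(-q)` -/
noncomputable def BB (q z : ℝ) : ℝ := (2 - 2 * z ^ 2) ^ (-q) + 2 * (1 + z) ^ (-q)

/-- tangent lines at `3/2` -/
theorem BB_ge {q z : ℝ} (hq : 0 < q) (h0 : 0 ≤ z) (h1 : z < 1) :
    3 * (3 / 2 : ℝ) ^ (-q) ≤ BB q z := by
  have hu : 0 < 2 - 2 * z ^ 2 := by nlinarith
  have a1 := rpow_tangent (w := 3 / 2) hq hu (by norm_num)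
  have a2 := rpow_tangent (u := 1 + z) (w := 3 / 2) hq (by linarith) (by norm_num)
  obtain ⟨P, hP⟩ : ∃ P : ℝ, P = (3 / 2 : ℝ) ^ (-(q + 1)) := ⟨_, rfl⟩
  rw [← hP] at a1 a2
  have hP0 : 0 ≤ q * P := by rw [hP]; positivity
  have h3 : 0 ≤ q * P * (z - 1 / 2) ^ 2 := mul_nonneg hP0 (sq_nonneg _)
  unfold BB
  nlinarith

/-- `B` decreases on `[0,1/2]`: convexity of `u^(-q)`:
`B(x) ≥ B(y) + q(4y(2-2y²)^(-p) - 2(1+y)^(-p))(x-y)` (tangent at `y`) and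
`2y(2-2y²)^(-p) ≤ (1+y)^(-p)` for `y ≤ 1/2` because `2y ≤ 1 ≤ (2(1-y))^p`. -/
theorem BB_anti {q x y : ℝ} (hq : 0 < q) (h0 : 0 ≤ x) (h1 : x ≤ y) (h2 : y ≤ 1 / 2) :
    BB q y ≤ BB q x := by
  have hux : 0 < 2 - 2 * x ^ 2 := by nlinarith
  have huy : 0 < 2 - 2 * y ^ 2 := by nlinarith
  have a1 := rpow_tangent hq hux huy
  have a2 := rpow_tangent (u := 1 + x) (w := 1 + y) hq (by linarith) (by linarith)
  have a3 : (2 - 2 * y ^ 2) ^ (-(q + 1)) ≤ (1 + y) ^ (-(q + 1)) := by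
    apply Real.rpow_le_rpow_of_nonpos (by linarith) _ (by linarith)
    nlinarith
  obtain ⟨P, hP⟩ : ∃ P : ℝ, P = (2 - 2 * y ^ 2) ^ (-(q + 1)) := ⟨_, rfl⟩
  obtain ⟨Q, hQ⟩ : ∃ Q : ℝ, Q = (1 + y) ^ (-(q + 1)) := ⟨_, rfl⟩
  rw [← hP] at a1 a3
  rw [← hQ] at a2 a3
  have hP0 : 0 ≤ P := by rw [hP]; positivity
  have h4 : (y + x) * P ≤ Q := by
    have : (y + x) * P ≤ 1 * P := mul_le_mul_of_nonneg_right (by linarith) hP0
    linarith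
  have h5 : 0 ≤ q * (y - x) * (Q - (y + x) * P) :=
    mul_nonneg (mul_nonneg hq.le (by linarith)) (by linarith)
  unfold BB
  nlinarith

/-- `B` decreases in `q` for `z ≤ 1/2` (bases `≥ 1`). -/
theorem BB_anti_q {q q' z : ℝ} (hq : 0 < q) (hqq : q ≤ q') (h0 : 0 ≤ z) (h1 : z ≤ 1 / 2) :
    BB q' z ≤ BB q z := by
  have _ := hq
  unfold BB
  have a1 : (2 - 2 * z ^ 2) ^ (-q') ≤ (2 - 2 * z ^ 2) ^ (-q) :=
    Real.rpow_le_rpow_of_exponent_le (by nlinarith) (by linarith)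
  have a2 : (1 + z) ^ (-q') ≤ (1 + z) ^ (-q) :=
    Real.rpow_le_rpow_of_exponent_le (by linarith) (by linarith)
  linarith

/-- III3: `ee ≥ eT` for `z2 ≥ 1/2`: `4(1-z1z2)^(-q) + 2(1+z1)^(-q) ≥ 6 + 4q z1z2 - 2q z1 ≥ 6`,
`(2-2z1²)^(-q) ≥ 2^(-q)`, `BB_ge`. -/
theorem ee_ge_eT {q z1 z2 : ℝ} (hq : 0 < q) (h0 : 0 ≤ z1) (h1 : z1 < 1) (h2 : 1 / 2 ≤ z2)
    (h3 : z2 < 1) : eT q ≤ ee q z1 z2 := by
  have a1 := BB_ge (z := z2) hq (by linarith) h3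
  have hz : z1 * z2 < 1 := by nlinarith
  have a2 := rpow_tangent (u := 1 - z1 * z2) (w := 1) hq (by linarith) one_pos
  have a3 := rpow_tangent (u := 1 + z1) (w := 1) hq (by linarith) one_pos
  have a4 : (2 : ℝ) ^ (-q) ≤ (2 - 2 * z1 ^ 2) ^ (-q) := by
    apply Real.rpow_le_rpow_of_nonpos (by nlinarith) _ (by linarith)
    nlinarith
  rw [Real.one_rpow, Real.one_rpow] at a2 a3
  have a5 : 0 ≤ q * (z1 * (2 * z2 - 1)) := mul_nonneg hq.le (mul_nonneg h0 (by linarith))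
  unfold BB at a1
  unfold eT ee
  nlinarith

end Pool.Agent.RieszFive
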