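import Pool.Agent.RieszFive.Defs

set_option autoImplicit false

namespace Pool.Agent.RieszFive

open Real

/-- Some square pyramid has (half) energy at most `U`. -/
def UB (q U : ℝ) : Prop := ∃ z : ℝ, 0 < z ∧ z < 1 ∧ ph q z ≤ U

theorem UB.beat {q U E : ℝ} (h : UB q U) (hE : U < E) : Beat q E := by
  obtain ⟨z, h0, h1, h2⟩ := h
  exact ⟨z, h0, h1, lt_of_le_of_lt h2 hE⟩

namespace BeatAux

/-- if `x ^ (qi/q) ≤ y` then `y ^ (-q) ≤ x ^ (-qi)` -/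
lemma term {qi q x y : ℝ} (hqi : 0 < qi) (hq : qi ≤ q) (hx : 0 < x)
    (h : x ^ (qi / q) ≤ y) : y ^ (-q) ≤ x ^ (-qi) := by
  have hq0 : 0 < q := lt_of_lt_of_le hqi hq
  have h1 : x ^ (-qi) = (x ^ (qi / q)) ^ (-q) := by
    rw [← Real.rpow_mul hx.le]
    congr 1
    field_simp
  rw [h1]
  exact Real.rpow_le_rpow_of_nonpos (Real.rpow_pos_of_pos hx _) h (by linarith)

lemma bern {θ s : ℝ} (hs : -1 ≤ s) (h0 : 0 ≤ θ) (h1 : θ ≤ 1) : (1 + s) ^ θ ≤ 1 + θ * s :=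
  _root_.rpow_one_add_le_one_add_mul_self hs h0 h1

end BeatAux

/-- `θ = qi/q ≤ 1`; termwise: `2^(-q) ≤ 2^(-qi)`, `(1-θ²z²)^(-q) ≤ (1-z²)^(-qi)` because
`(1-z²)^θ ≤ 1-θz² ≤ 1-θ²z²` (Bernoulli, `Real.rpow_one_add_le_one_add_mul_self`), and
`(1+θz)^(-q) ≤ (1+z)^(-qi)` because `(1+z)^θ ≤ 1+θz`. -/
theorem ph_scale {qi q z : ℝ} (hqi : 0 < qi) (hq : qi ≤ q) (h0 : 0 ≤ z) (h1 : z < 1) :
    ph q (qi * z / q) ≤ ph qi z := by
  have hq0 : 0 < q := lt_of_lt_of_le hqi hq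
  obtain ⟨θ, hθ⟩ : ∃ θ : ℝ, θ = qi / q := ⟨_, rfl⟩
  have hθ0 : 0 < θ := by rw [hθ]; positivity
  have hθ1 : θ ≤ 1 := by rw [hθ, div_le_one hq0]; exact hq
  have hz' : qi * z / q = θ * z := by rw [hθ]; ring
  have hz2 : 0 < 1 - z ^ 2 := by nlinarith
  have hz3 : 0 < 1 - (θ * z) ^ 2 := by
    have : θ * z < 1 := by nlinarith
    have : 0 ≤ θ * z := by positivity
    nlinarith
  -- the term `1 - z²`
  have t1 : (1 - (θ * z) ^ 2) ^ (-q) ≤ (1 - z ^ 2) ^ (-qi) := by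
    refine BeatAux.term hqi hq hz2 ?_
    rw [← hθ]
    have h2 := BeatAux.bern (θ := θ) (s := -z ^ 2) (by nlinarith) hθ0.le hθ1
    rw [show 1 + -z ^ 2 = 1 - z ^ 2 by ring] at h2
    refine h2.trans ?_
    have h3 : 0 ≤ θ * z ^ 2 * (1 - θ) := mul_nonneg (by positivity) (by linarith)
    nlinarith
  -- the term `1 + z`
  have t2 : (1 + θ * z) ^ (-q) ≤ (1 + z) ^ (-qi) := by
    refine BeatAux.term hqi hq (by linarith) ?_
    rw [← hθ]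
    exact BeatAux.bern (by linarith) hθ0.le hθ1
  -- the term `2`
  have t3 : (2 : ℝ) ^ (-q) ≤ 2 ^ (-qi) :=
    Real.rpow_le_rpow_of_exponent_le (by norm_num) (by linarith)
  have t4 : (2 - 2 * (θ * z) ^ 2) ^ (-q) ≤ (2 - 2 * z ^ 2) ^ (-qi) := by
    rw [show 2 - 2 * (θ * z) ^ 2 = 2 * (1 - (θ * z) ^ 2) by ring,
      show 2 - 2 * z ^ 2 = 2 * (1 - z ^ 2) by ring,
      Real.mul_rpow (by norm_num) hz3.le, Real.mul_rpow (by norm_num) hz2.le]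
    exact mul_le_mul t3 t1 (Real.rpow_nonneg hz3.le _) (Real.rpow_nonneg (by norm_num) _)
  unfold ph ee
  rw [hz', show 1 - θ * z * (θ * z) = 1 - (θ * z) ^ 2 by ring, show 1 - z * z = 1 - z ^ 2 by ring]
  linarith

theorem UB_of {qi q z U : ℝ} (hqi : 0 < qi) (hq : qi ≤ q) (h0 : 0 < z) (h1 : z < 1)
    (hU : ph qi z ≤ U) : UB q U := by
  have hq0 : 0 < q := lt_of_lt_of_le hqi hq
  refine ⟨qi * z / q, by positivity, ?_, le_trans (ph_scale hqi hq h0.le h1) hU⟩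
  rw [div_lt_one hq0]
  nlinarith

end Pool.Agent.RieszFive
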