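import Pool.Agent.RieszFive.BB

set_option autoImplicit false

namespace Pool.Agent.RieszFive

open Real

/-- III4.  `u0 = (1+z)/(1+az)`: `rpow_tangent` at `u0` for `(1-xz)^(-q)` and at `a u0` for
`(1+x)^(-q)`; the coefficient of `x` is `2q u0^(-p)(2z - a^(-p)) ≥ 0` (`p = q+1`), so take `x = 0`:
`u0^(-q)(4+4q+(2+2q)a^(-q)) - q u0^(-p)(4+2a^(-p))`, and `a^(-p) ≤ 2z`,
`(1+z)/u0 = 1+az`. -/
theorem G_cert {q z a x : ℝ} (hq : 0 < q) (hz : 0 < z) (hz1 : z ≤ 1 / 2) (ha : 0 < a)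
    (hx0 : 0 ≤ x) (hx1 : x < 1) (hap : 1 ≤ a ^ (q + 1) * (2 * z)) :
    4 * ((1 + z) / (1 + a * z)) ^ (-q) * ((q + 1) * (1 + a ^ (-q) / 2) - q * (1 + z * a))
      ≤ 4 * (1 - x * z) ^ (-q) + 2 * (1 + x) ^ (-q) := by
  have haz : 0 < 1 + a * z := by positivity
  set u0 : ℝ := (1 + z) / (1 + a * z) with hu0
  have hu0p : 0 < u0 := by positivity
  have hu : u0 * (1 + a * z) = 1 + z := by
    rw [hu0, div_mul_cancel₀ _ haz.ne']
  have hxz : 0 < 1 - x * z := by nlinarith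
  have hrec : ∀ y : ℝ, 0 < y → y ^ (-q) = y ^ (-(q + 1)) * y := by
    intro y hy
    nth_rewrite 3 [← rpow_one y]
    rw [← rpow_add hy]
    congr 1
    ring
  have t1 := rpow_tangent hq hxz hu0p
  have t2 := rpow_tangent hq (show (0 : ℝ) < 1 + x by linarith) (mul_pos ha hu0p)
  rw [mul_rpow ha.le hu0p.le, mul_rpow ha.le hu0p.le, hrec a ha, hrec u0 hu0p] at t2
  rw [hrec u0 hu0p] at t1
  rw [hrec a ha, hrec u0 hu0p]
  have hA : a ^ (-(q + 1)) ≤ 2 * z := by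
    rw [rpow_neg ha.le, inv_eq_one_div, div_le_iff₀ (rpow_pos_of_pos ha _)]
    linarith
  have hP : 0 < u0 ^ (-(q + 1)) := rpow_pos_of_pos hu0p _
  set P := u0 ^ (-(q + 1)) with hPdef
  set A := a ^ (-(q + 1)) with hAdef
  have key : 0 ≤ 2 * q * P * (1 + x) * (2 * z - A) :=
    mul_nonneg (by positivity) (by linarith)
  have e : 4 * (P * u0) * ((q + 1) * (1 + A * a / 2) - q * (1 + z * a))
      = 4 * (P * u0 - q * P * ((1 - x * z) - u0))
        + 2 * (A * a * (P * u0) - q * (A * P) * ((1 + x) - a * u0))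
        - 2 * q * P * (1 + x) * (2 * z - A) := by
    linear_combination (-4 * P * q) * hu
  rw [e]
  linarith

/-- III5.  `θ = q/q' ≤ 1`; Bernoulli `(1-y)^θ ≤ 1-θy`, `(1+x)^θ ≤ 1+θx`
(`Real.rpow_one_add_le_one_add_mul_self`). -/
theorem pow_trick {q q' x z : ℝ} (hq : 0 < q) (hqq : q ≤ q') (hx0 : 0 ≤ x) (hx1 : x < 1)
    (hz0 : 0 ≤ z) (hz1 : z ≤ 1) :
    4 * (1 - q / q' * x * z) ^ (-q') + 2 * (1 + q / q' * x) ^ (-q')
      ≤ 4 * (1 - x * z) ^ (-q) + 2 * (1 + x) ^ (-q) := by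
  have hq' : 0 < q' := lt_of_lt_of_le hq hqq
  have hθ0 : 0 ≤ q / q' := by positivity
  have hθ1 : q / q' ≤ 1 := (div_le_one hq').2 hqq
  have main : ∀ y : ℝ, -1 < y → (1 + q / q' * y) ^ (-q') ≤ (1 + y) ^ (-q) := by
    intro y hy
    have hy1 : 0 < 1 + y := by linarith
    have h1 : (1 + y) ^ (q / q') ≤ 1 + q / q' * y :=
      rpow_one_add_le_one_add_mul_self hy.le hθ0 hθ1
    have h2 : 0 < (1 + y) ^ (q / q') := rpow_pos_of_pos hy1 _
    have h3 := rpow_le_rpow_of_nonpos h2 h1 (show -q' ≤ 0 by linarith)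
    rw [← rpow_mul hy1.le] at h3
    have h4 : q / q' * -q' = -q := by field_simp
    rw [h4] at h3
    exact h3
  have hxz : x * z < 1 := by nlinarith
  have h1 := main (-(x * z)) (by linarith)
  have h2 := main x (by linarith)
  have e1 : 1 + q / q' * -(x * z) = 1 - q / q' * x * z := by ring
  have e2 : 1 + -(x * z) = 1 - x * z := by ring
  rw [e1, e2] at h1
  linarith

/-- III6: the bound on a cell `za ≤ z2 ≤ zb ≤ 1/2`, `q ≤ qb`.
`ee = [4(1-z1z2)^(-q) + 2(1+z1)^(-q)] + BB q z2 + (2-2z1²)^(-q)`; `z2 ≥ za`, `pow_trick`,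
`G_cert` (with `q := qb`, `x := (q/qb) z1`); `BB_anti`, `BB_anti_q`; `(2-2z1²)^(-q) ≥ 2^(-qb)`. -/
theorem cell_lower {q qb z1 z2 za zb a : ℝ} (hq : 0 < q) (hqq : q ≤ qb) (h0 : 0 ≤ z1)
    (h1 : z1 < 1) (hza : 0 < za) (h2 : za ≤ z2) (h3 : z2 ≤ zb) (h4 : zb ≤ 1 / 2) (ha : 0 < a)
    (hap : 1 ≤ a ^ (qb + 1) * (2 * za)) :
    4 * ((1 + za) / (1 + a * za)) ^ (-qb)
        * ((qb + 1) * (1 + a ^ (-qb) / 2) - qb * (1 + za * a))
      + BB qb zb + 2 ^ (-qb) ≤ ee q z1 z2 := by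
  have hqb : 0 < qb := lt_of_lt_of_le hq hqq
  have hza2 : za ≤ 1 / 2 := by linarith
  have hθ0 : 0 ≤ q / qb := by positivity
  have hθ1 : q / qb ≤ 1 := (div_le_one hqb).2 hqq
  have hx0 : 0 ≤ q / qb * z1 := mul_nonneg hθ0 h0
  have hx1 : q / qb * z1 < 1 := by nlinarith
  have g1 := G_cert (q := qb) (z := za) (a := a) (x := q / qb * z1) hqb hza hza2 ha hx0 hx1 hap
  have g2 := pow_trick (q := q) (q' := qb) (x := z1) (z := za) hq hqq h0 h1 hza.le (by linarith)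
  have g3 : (1 - z1 * za) ^ (-q) ≤ (1 - z1 * z2) ^ (-q) := by
    apply rpow_le_rpow_of_nonpos
    · nlinarith
    · nlinarith
    · linarith
  have g4 : BB q zb ≤ BB q z2 := BB_anti hq (by linarith) h3 h4
  have g5 : BB qb zb ≤ BB q zb := BB_anti_q hq hqq (by linarith) h4
  have g6 : (2 : ℝ) ^ (-qb) ≤ 2 ^ (-q) := by
    apply rpow_le_rpow_of_exponent_le <;> linarith
  have g7 : (2 : ℝ) ^ (-q) ≤ (2 - 2 * z1 ^ 2) ^ (-q) := by
    apply rpow_le_rpow_of_nonpos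
    · nlinarith
    · nlinarith [sq_nonneg z1]
    · linarith
  have g8 : BB q z2 = (2 - 2 * z2 ^ 2) ^ (-q) + 2 * (1 + z2) ^ (-q) := rfl
  unfold ee
  linarith

end Pool.Agent.RieszFive
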