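import Mathlib

/-!
# Five points on the sphere: common definitions

`q = s/2`.  See the document `proof/MP_743703_an_F5` for the paper proof.
-/

set_option autoImplicit false

namespace Pool.Agent.RieszFive

open Real

/-- Half the energy of the configuration with two pairs at heights `-u`, `-w` and a pole. -/
noncomputable def ee (q u w : ℝ) : ℝ :=
  (2 - 2 * u ^ 2) ^ (-q) + (2 - 2 * w ^ 2) ^ (-q) + 2 * (1 + u) ^ (-q) + 2 * (1 + w) ^ (-q)
    + 4 * (1 - u * w) ^ (-q)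

/-- Half the energy of the square pyramid with parameter `z`. -/
noncomputable def ph (q z : ℝ) : ℝ := ee q z z

/-- Half the energy of the triangular bipyramid. -/
noncomputable def eT (q : ℝ) : ℝ := 6 + 2 ^ (-q) + 3 * (3 / 2 : ℝ) ^ (-q)

/-- `E` is larger than the energy of some square pyramid (divided by two). -/
def Beat (q E : ℝ) : Prop := ∃ z : ℝ, 0 < z ∧ z < 1 ∧ ph q z < E

/-- Admissible data of a mirror symmetric configuration. -/
structure Adm (z1 z2 v g s : ℝ) : Prop where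
  z1_nonneg : 0 ≤ z1
  z1_lt : z1 < z2
  z2_lt : z2 < 1
  g_nonneg : 0 ≤ g
  gs : g ^ 2 + s ^ 2 = 1
  v_le : |v| * z2 ≤ z1 * √(1 - z2 ^ 2)
  s_le : |s| * z2 ≤ g * √(1 - z2 ^ 2)

/-- The part of the energy that comes from the pairs `{1,2} x {3,4,5}`. -/
noncomputable def T12 (q z1 z2 v g s : ℝ) : ℝ :=
  4 * ((1 - z1 * z2 - √(1 - z2 ^ 2) * v) ^ (-q) + (1 - z1 * z2 + √(1 - z2 ^ 2) * v) ^ (-q)
    + (1 + z1 * g - v * s) ^ (-q))

/-- The part of the energy that comes from the pairs `{3,5}`, `{4,5}`. -/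
noncomputable def T3 (q z2 g s : ℝ) : ℝ :=
  2 * ((1 + z2 * g - √(1 - z2 ^ 2) * s) ^ (-q) + (1 + z2 * g + √(1 - z2 ^ 2) * s) ^ (-q))

/-- The energy of a mirror symmetric configuration. -/
noncomputable def FF (q z1 z2 v g s : ℝ) : ℝ :=
  2 * (2 - 2 * z1 ^ 2 - 2 * v ^ 2) ^ (-q) + T12 q z1 z2 v g s
    + 2 * (2 - 2 * z2 ^ 2) ^ (-q) + T3 q z2 g s

/-- coefficient of `-s^2` in the lower bound of `T12` -/
noncomputable def cc (q z1 z2 : ℝ) : ℝ :=
  q / (q + 1) * (1 + z1) ^ (-2 * (q + 1)) * (1 - z1 * z2) ^ (q + 2) / (1 - z2 ^ 2)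
    - 2 * q * z1 * (1 + z1) ^ (-(q + 1))

/-- an upper bound of `cc` -/
noncomputable def cbar (q z2 : ℝ) : ℝ := q / (q + 1) / (1 - z2 ^ 2)

/-- coefficient of `s^2` in the lower bound of `T3` -/
noncomputable def c0 (q z2 : ℝ) : ℝ := 2 * q * (1 + z2) ^ (-(q + 1)) * (q * (1 - z2) + 1)

/-- coefficient of `s^4` in the lower bound of `T3` -/
noncomputable def c1 (q z2 : ℝ) : ℝ :=
  q * (q + 1) * (q + 2) * (q + 3) / 6 * (1 + z2) ^ (-(q + 4)) * (1 - z2 ^ 2) ^ 2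

/-- `κ = z2 / √(1 - z2^2)` -/
noncomputable def kap (z2 : ℝ) : ℝ := z2 / √(1 - z2 ^ 2)

end Pool.Agent.RieszFive
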