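import Pool.Agent.RieszFive.II5
import Pool.Agent.RieszFive.PhVal
import Pool.Agent.RieszFive.ZLow
import Pool.Agent.RieszFive.Expo
import Pool.Agent.RieszFive.KapB

set_option autoImplicit false

namespace Pool.Agent.RieszFive

open Real

variable {q z1 z2 v g s : ℝ}

namespace HardAAux

/-- `log 1.2 ≥ .18` -/
theorem log_six_fifths : (18 / 100 : ℝ) ≤ Real.log (6 / 5) := by
  rw [Real.le_log_iff_exp_le (by norm_num)]
  have h1 : (98 / 100 : ℝ) ≤ Real.exp (-(2 / 100)) := by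
    have := Real.add_one_le_exp (-(2 / 100 : ℝ))
    linarith
  have h2 : (98 / 100 : ℝ) ^ 9 ≤ Real.exp (-(2 / 100)) ^ 9 :=
    pow_le_pow_left₀ (by norm_num) h1 9
  have h3 : Real.exp (-(2 / 100)) ^ 9 = Real.exp (-(18 / 100)) := by
    rw [← Real.exp_nat_mul]
    congr 1
    norm_num
  rw [h3, Real.exp_neg] at h2
  have h4 : (0 : ℝ) < Real.exp (18 / 100) := Real.exp_pos _
  have h5 : Real.exp (18 / 100) * (98 / 100 : ℝ) ^ 9 ≤ 1 := by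
    calc Real.exp (18 / 100) * (98 / 100 : ℝ) ^ 9
        ≤ Real.exp (18 / 100) * (Real.exp (18 / 100))⁻¹ := mul_le_mul_of_nonneg_left h2 h4.le
      _ = 1 := mul_inv_cancel₀ h4.ne'
  by_contra hne
  push Not at hne
  have h6 : (6 / 5 : ℝ) * (98 / 100 : ℝ) ^ 9 < Real.exp (18 / 100) * (98 / 100 : ℝ) ^ 9 :=
    mul_lt_mul_of_pos_right hne (by norm_num)
  have h7 : (1 : ℝ) ≤ (6 / 5 : ℝ) * (98 / 100 : ℝ) ^ 9 := by norm_num
  linarith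

/-- lower bounds for the symmetric part in the three ranges of `z2` -/
theorem le_high {n : ℕ} {c : ℝ} (hq1 : 1 ≤ q)
    (hq2 : 4 / 5 ≤ q * (6 / 5 : ℝ) ^ (-(q + 1))) (hn : q ≤ n) (h : Adm z1 z2 v g s)
    (hz : 2 * z2 ^ 2 ≤ 1) (h5 : 1 / 2 ≤ z2)
    (hk : ∀ k : ℝ, 0 ≤ k → 1 / 3 ≤ k ^ 2 → k ≤ 1 →
      c ≤ 2 * ((1 + k ^ 2) / 2) ^ n - (k - 1 / 5) ^ 2) :
    12 + c ≤ FF q z1 z2 v g s := by
  have h0 : 0 ≤ z2 := by linarith
  have hF := FF_ge_k2 hq1 hq2 h hz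
  have hE := expo_12 (q := q) (z1 := z1) (z2 := z2) (by linarith) h.z1_nonneg
    (h.z1_lt.trans h.z2_lt) h5 h.z2_lt
  have hB := base_pow_ge hn h0 hz
  have hk0 := kap_nonneg h0
  have hk1 := kap_le_one h0 hz
  have hk2 : 1 / 3 ≤ kap z2 ^ 2 := by
    rw [kap_sq h0 h.z2_lt]
    have h1 : 0 < 1 - z2 ^ 2 := by nlinarith [h.z2_lt]
    rw [le_div_iff₀ h1]
    nlinarith
  have hk3 : 1 / 5 ≤ kap z2 := by
    by_contra hne
    push Not at hne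
    nlinarith
  have hmax : max (kap z2 - 1 / 5) 0 = kap z2 - 1 / 5 := max_eq_left (by linarith)
  rw [hmax] at hF
  have := hk (kap z2) hk0 hk2 hk1
  linarith

theorem le_low {ρ b K : ℝ} (hq1 : 1 ≤ q)
    (hq2 : 4 / 5 ≤ q * (6 / 5 : ℝ) ^ (-(q + 1))) (h : Adm z1 z2 v g s)
    (hz : 2 * z2 ^ 2 ≤ 1) (hρ : 0 < ρ) (hρ2 : ρ ≤ 2 * z2)
    (hb : b ≤ 4 * ρ * (1 - Real.log ρ)) (hK : kap z2 ≤ K) (hK5 : 1 / 5 ≤ K) :
    8 + b - (K - 1 / 5) ^ 2 ≤ FF q z1 z2 v g s := by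
  have h0 : 0 ≤ z2 := by linarith
  have hF := FF_ge_k2 hq1 hq2 h hz
  have hE := expo_bound (q := q) (z1 := z1) (z2 := z2) (by linarith) h.z1_nonneg
    (h.z1_lt.trans h.z2_lt) h0 h.z2_lt hρ hρ2
  have hB : 0 ≤ (2 - 2 * z2 ^ 2) ^ (-q) := Real.rpow_nonneg (by linarith) _
  have hm : (max (kap z2 - 1 / 5) 0) ^ 2 ≤ (K - 1 / 5) ^ 2 := by
    refine pow_le_pow_left₀ (le_max_right _ _) ?_ 2
    exact max_le (by linarith) (by linarith)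
  linarith

end HardAAux

/-- `q (6/5)^(-(q+1)) ≥ 4/5` for `6 ≤ q ≤ 15`: `15·1.2^(-16) = .8113`; the function decreases:
`1.2^(15-q) ≥ 1 + (15-q) log 1.2 ≥ 1 + .18 (15-q) ≥ 15/q`. -/
theorem w2_cond (h1 : 6 ≤ q) (h2 : q ≤ 15) : 4 / 5 ≤ q * (6 / 5 : ℝ) ^ (-(q + 1)) := by
  have h3 : (6 / 5 : ℝ) ^ (-(q + 1)) = (6 / 5 : ℝ) ^ (15 - q) * (6 / 5 : ℝ) ^ (-16 : ℝ) := by
    rw [← Real.rpow_add (by norm_num)]
    congr 1
    ring
  have h4 : (6 / 5 : ℝ) ^ (-16 : ℝ) = ((6 / 5 : ℝ) ^ 16)⁻¹ := by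
    rw [Real.rpow_neg (by norm_num)]
    congr 1
    exact_mod_cast Real.rpow_natCast (6 / 5 : ℝ) 16
  have h5 : 1 + 18 / 100 * (15 - q) ≤ (6 / 5 : ℝ) ^ (15 - q) := by
    rw [Real.rpow_def_of_pos (by norm_num)]
    have h6 := Real.add_one_le_exp (Real.log (6 / 5) * (15 - q))
    have h7 := mul_le_mul_of_nonneg_right HardAAux.log_six_fifths (by linarith : 0 ≤ 15 - q)
    linarith
  have h8 : 15 ≤ q * (1 + 18 / 100 * (15 - q)) := by nlinarith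
  have h9 : 15 ≤ q * (6 / 5 : ℝ) ^ (15 - q) :=
    h8.trans (mul_le_mul_of_nonneg_left h5 (by linarith))
  have h10 : (4 / 5 : ℝ) ≤ 15 * ((6 / 5 : ℝ) ^ 16)⁻¹ := by norm_num
  rw [h3, h4, ← mul_assoc]
  exact h10.trans (mul_le_mul_of_nonneg_right h9 (by positivity))

/-- `FF_ge_k2`; `z2 ≥ 1/2`: `expo_12`, `base_pow_ge` with `n = 11`, `kpow_11` (here
`kap z2 - 1/5 > 0`): `FF ≥ 12 - .19`; `.45 ≤ z2 ≤ .5`: `expo_bound` with `ρ = .9`, `rho_9`,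
`kap_50`: `FF ≥ 11.836`; `.4 ≤ z2 ≤ .45` (`zlow_1`, `cc ≤ cbar`): `ρ = .8`, `rho_8`, `kap_45`:
`FF ≥ 11.821`; `ub_1025`: `2 · 5.89497 = 11.78994`. -/
theorem hard_b1 (h1 : 41 / 4 ≤ q) (h2 : q ≤ 11) (h : Adm z1 z2 v g s) (hz : 2 * z2 ^ 2 ≤ 1)
    (hc : c0 q z2 < cc q z1 z2) : ∃ z, 0 < z ∧ z < 1 ∧ 2 * ph q z < FF q z1 z2 v g s := by
  obtain ⟨z, hz0, hz1, hz2⟩ := ub_1025 h1
  refine ⟨z, hz0, hz1, ?_⟩
  have hq1 : 1 ≤ q := by linarith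
  have hq2 := w2_cond (q := q) (by linarith) (by linarith)
  have h0 : 0 ≤ z2 := h.z1_nonneg.trans h.z1_lt.le
  have hlow : 2 / 5 < z2 :=
    zlow_1 h1 h2 h0 (lt_of_lt_of_le hc (cc_le_cbar (by linarith) h.z1_nonneg h.z1_lt h.z2_lt))
  rcases le_total (1 / 2) z2 with h5 | h5
  · have := HardAAux.le_high (n := 11) (c := -(19 / 100)) hq1 hq2 (by exact_mod_cast h2) h hz h5
      (fun k hk0 hk1 hk2 => kpow_11 hk0 hk1 hk2)
    linarith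
  · rcases le_total (9 / 20) z2 with h6 | h6
    · have := HardAAux.le_low (K := 0.5774) hq1 hq2 h hz (ρ := 9 / 10) (by norm_num)
        (by linarith) rho_9 (kap_50 h0 h5) (by norm_num)
      norm_num at this hz2
      linarith
    · have := HardAAux.le_low (K := 0.504) hq1 hq2 h hz (ρ := 4 / 5) (by norm_num)
        (by linarith) rho_8 (kap_45 h0 h6) (by norm_num)
      norm_num at this hz2
      linarith

/-- the same with `kpow_15`, `n = 15`: `FF ≥ 12 - .28`; `.45 ≤ z2 ≤ .5`: `11.836`;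
`.37 < z2 ≤ .45` (`zlow_2`): `rho_74`: `8 + 3.851 - (.304)² = 11.758`; `ub_11`: `11.6798`. -/
theorem hard_b2 (h1 : 11 ≤ q) (h2 : q ≤ 15) (h : Adm z1 z2 v g s) (hz : 2 * z2 ^ 2 ≤ 1)
    (hc : c0 q z2 < cc q z1 z2) : ∃ z, 0 < z ∧ z < 1 ∧ 2 * ph q z < FF q z1 z2 v g s := by
  obtain ⟨z, hz0, hz1, hz2⟩ := ub_11 h1
  refine ⟨z, hz0, hz1, ?_⟩
  have hq1 : 1 ≤ q := by linarith
  have hq2 := w2_cond (q := q) (by linarith) (by linarith)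
  have h0 : 0 ≤ z2 := h.z1_nonneg.trans h.z1_lt.le
  have hlow : 37 / 100 < z2 :=
    zlow_2 h1 h2 h0 (lt_of_lt_of_le hc (cc_le_cbar (by linarith) h.z1_nonneg h.z1_lt h.z2_lt))
  rcases le_total (1 / 2) z2 with h5 | h5
  · have := HardAAux.le_high (n := 15) (c := -(28 / 100)) hq1 hq2 (by exact_mod_cast h2) h hz h5
      (fun k hk0 hk1 hk2 => kpow_15 hk0 hk1 hk2)
    linarith
  · rcases le_total (9 / 20) z2 with h6 | h6
    · have := HardAAux.le_low (K := 0.5774) hq1 hq2 h hz (ρ := 9 / 10) (by norm_num)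
        (by linarith) rho_9 (kap_50 h0 h5) (by norm_num)
      norm_num at this hz2
      linarith
    · have := HardAAux.le_low (K := 0.504) hq1 hq2 h hz (ρ := 74 / 100) (by norm_num)
        (by linarith) rho_74 (kap_45 h0 h6) (by norm_num)
      norm_num at this hz2
      linarith

end Pool.Agent.RieszFive
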