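import Pool.Agent.RieszFive.Pair
import Pool.Agent.RieszFive.Facts

set_option autoImplicit false

namespace Pool.Agent.RieszFive

open Real

/-- Lower bound for `T12`.  Write `A = 1 - z1 z2`, `r = √(1-z2²)`.
`pair2` with `t = r v` (`|t| < A` by `Facts.h1`):
`4((A-rv)^(-q) + (A+rv)^(-q)) ≥ 8A^(-q) + 4q(q+1)A^(-(q+2)) r² v²`.
`rpow_tangent` at `w = 1 + z1`, `u = 1 + z1 g - v s`:
`4u^(-q) ≥ 4(1+z1)^(-q) + 4q(1+z1)^(-(q+1))(z1(1-g) + v s)` and `1 - g ≥ s²/2`.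
Complete the square in `v`: `P v² + Q v s ≥ -Q² s²/(4P)`, `P = 4q(q+1)A^(-(q+2))r²`,
`Q = 4q(1+z1)^(-(q+1))`, `Q²/(4P) = q/(q+1) (1+z1)^(-2(q+1)) A^(q+2)/r²`. -/
theorem T12_lower {q z1 z2 v g s : ℝ} (hq : 0 < q) (h : Adm z1 z2 v g s) :
    8 * (1 - z1 * z2) ^ (-q) + 4 * (1 + z1) ^ (-q) - cc q z1 z2 * s ^ 2
      ≤ T12 q z1 z2 v g s := by
  have F := h.facts
  have hz1 := h.z1_nonneg
  have hr := F.r_pos
  have hr2 := F.r_sq
  have hA : 0 < 1 - z1 * z2 := by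
    have h1 := F.h1
    have h2 : 0 ≤ √(1 - z2 ^ 2) * |v| := mul_nonneg hr.le (abs_nonneg v)
    linarith
  have ht : |√(1 - z2 ^ 2) * v| < 1 - z1 * z2 := by
    rw [abs_mul, abs_of_pos hr]
    linarith [F.h1]
  have hR : 0 < 1 - z2 ^ 2 := by
    rw [← hr2]
    exact pow_pos hr 2
  have hP := pair2 hq ht
  have hT := rpow_tangent hq F.h3 (show (0 : ℝ) < 1 + z1 by linarith)
  rw [mul_pow, hr2] at hP
  have hq1 : 0 < q + 1 := by linarith
  have hW2 : (1 + z1) ^ (-2 * (q + 1)) = ((1 + z1) ^ (-(q + 1))) ^ 2 := by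
    rw [← Real.rpow_natCast, ← Real.rpow_mul (by linarith)]
    congr 1
    push_cast
    ring
  have hCB : (1 - z1 * z2) ^ (q + 2) * (1 - z1 * z2) ^ (-(q + 2)) = 1 := by
    rw [← Real.rpow_add hA, add_neg_cancel, Real.rpow_zero]
  have hC : 0 < (1 - z1 * z2) ^ (q + 2) := Real.rpow_pos_of_pos hA _
  have hW : 0 < (1 + z1) ^ (-(q + 1)) := Real.rpow_pos_of_pos (by linarith) _
  unfold T12 cc
  rw [hW2]
  generalize √(1 - z2 ^ 2) = r at hP hT hr hr2 ⊢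
  generalize 1 - z2 ^ 2 = R at hP hR hr2 ⊢
  generalize (1 - z1 * z2) ^ (q + 2) = C at hCB hC ⊢
  generalize (1 - z1 * z2) ^ (-(q + 2)) = B at hCB hP ⊢
  generalize (1 + z1) ^ (-(q + 1)) = W at hW hT ⊢
  generalize (1 - z1 * z2 - r * v) ^ (-q) = X at hP ⊢
  generalize (1 - z1 * z2 + r * v) ^ (-q) = Y at hP ⊢
  generalize (1 + z1 * g - v * s) ^ (-q) = Z at hT ⊢
  generalize (1 - z1 * z2) ^ (-q) = U at hP ⊢
  generalize (1 + z1) ^ (-q) = V at hT ⊢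
  have hsq : 0 ≤ q / (q + 1) * (C / R) * (2 * (q + 1) * B * R * v + W * s) ^ 2 :=
    mul_nonneg (mul_nonneg (div_nonneg hq.le hq1.le) (div_nonneg hC.le hR.le)) (sq_nonneg _)
  have hid : q / (q + 1) * (C / R) * (2 * (q + 1) * B * R * v + W * s) ^ 2
      = 4 * (q * (q + 1) * B * (R * v ^ 2)) + 4 * q * W * (v * s)
        + q / (q + 1) * W ^ 2 * C / R * s ^ 2 := by
    have hq1' := hq1.ne'
    have hR' := hR.ne'
    field_simp
    linear_combination (4 * (q + 1) ^ 2 * B * R ^ 2 * v ^ 2 + 4 * (q + 1) * R * v * W * s) * hCB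
  have hg : 0 ≤ 4 * q * W * z1 * (1 - g - s ^ 2 / 2) :=
    mul_nonneg (by positivity) (by linarith [F.half])
  rw [hid] at hsq
  nlinarith [hsq, hg, hP, hT]

end Pool.Agent.RieszFive
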