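import Pool.Agent.RieszFive.Pair4
import Pool.Agent.RieszFive.Facts

set_option autoImplicit false

namespace Pool.Agent.RieszFive

open Real

/-- Lower bound for `T3`.  `u = 1 + z2 g ≤ 1 + z2`, `t = r s` (`|t| < u` by `Facts.h6`), `pair4`:
`T3 ≥ 4u^(-q) + 2q(q+1)u^(-(q+2))r²s² + q(q+1)(q+2)(q+3)/6 u^(-(q+4)) r⁴s⁴`;
`u^(-(q+2)) ≥ (1+z2)^(-(q+2))` etc., and by `rpow_tangent` at `1 + z2`:
`4u^(-q) ≥ 4(1+z2)^(-q) + 4q(1+z2)^(-(q+1)) z2(1-g) ≥ 4(1+z2)^(-q) + 2q(1+z2)^(-(q+1)) z2 s²`.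
`(1+z2)^(-(q+2)) (1-z2²) = (1+z2)^(-(q+1)) (1-z2)`. -/
theorem T3_lower {q z1 z2 v g s : ℝ} (hq : 0 < q) (h : Adm z1 z2 v g s) :
    4 * (1 + z2) ^ (-q) + c0 q z2 * s ^ 2 + c1 q z2 * s ^ 4 ≤ T3 q z2 g s := by
  have hf := h.facts
  have hz2 := hf.z2_pos
  have hr := hf.r_pos
  have hr2 := hf.r_sq
  have hg := h.g_nonneg
  have hg1 := hf.g_le
  have hhalf := hf.half
  have h6 := hf.h6
  set r := √(1 - z2 ^ 2) with hrdef
  set u := 1 + z2 * g with hu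
  set w := 1 + z2 with hw
  have hw0 : 0 < w := by rw [hw]; linarith
  have hu0 : 0 < u := by rw [hu]; positivity
  have huw : u ≤ w := by
    rw [hu, hw]
    have : z2 * g ≤ z2 * 1 := mul_le_mul_of_nonneg_left hg1 hz2.le
    linarith
  have ht : |r * s| < u := by
    rw [abs_mul, abs_of_pos hr]
    linarith
  have hp := pair4 (q := q) (A := u) (t := r * s) hq ht
  have htan := rpow_tangent (q := q) (u := u) (w := w) hq hu0 hw0
  have m2 : w ^ (-(q + 2)) ≤ u ^ (-(q + 2)) :=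
    Real.rpow_le_rpow_of_nonpos hu0 huw (by linarith)
  have m4 : w ^ (-(q + 4)) ≤ u ^ (-(q + 4)) :=
    Real.rpow_le_rpow_of_nonpos hu0 huw (by linarith)
  have e1 : w ^ (-(q + 2)) * w = w ^ (-(q + 1)) := by
    rw [← Real.rpow_add_one hw0.ne']
    congr 1
    ring
  have hw1 : 0 < w ^ (-(q + 1)) := Real.rpow_pos_of_pos hw0 _
  have hs2 : 0 ≤ s ^ 2 := sq_nonneg s
  -- the tangent part
  have t1 : 4 * w ^ (-q) + 2 * q * w ^ (-(q + 1)) * z2 * s ^ 2 ≤ 4 * u ^ (-q) := by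
    have e2 : u - w = -(z2 * (1 - g)) := by rw [hu, hw]; ring
    rw [e2] at htan
    have e3 : q * w ^ (-(q + 1)) * (z2 * (s ^ 2 / 2)) ≤ q * w ^ (-(q + 1)) * (z2 * (1 - g)) := by
      have : 0 ≤ q * w ^ (-(q + 1)) := by positivity
      apply mul_le_mul_of_nonneg_left _ this
      exact mul_le_mul_of_nonneg_left hhalf hz2.le
    nlinarith [htan, e3]
  have t2 : 2 * q * (q + 1) * (w ^ (-(q + 1)) * (1 - z2)) * s ^ 2 ≤
      2 * (q * (q + 1) * u ^ (-(q + 2)) * (r * s) ^ 2) := by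
    have e2 : (r * s) ^ 2 = (1 - z2) * w * s ^ 2 := by
      rw [mul_pow, hr2, hw]; ring
    rw [e2, ← e1]
    have e3 : 0 ≤ 1 - z2 := by have := h.z2_lt; linarith
    have e4 : 0 ≤ q * (q + 1) * ((1 - z2) * w * s ^ 2) := by positivity
    nlinarith [mul_le_mul_of_nonneg_left m2 e4]
  have t4 : q * (q + 1) * (q + 2) * (q + 3) / 6 * w ^ (-(q + 4)) * (1 - z2 ^ 2) ^ 2 * s ^ 4 ≤
      2 * (q * (q + 1) * (q + 2) * (q + 3) / 12 * u ^ (-(q + 4)) * (r * s) ^ 4) := by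
    have e2 : (r * s) ^ 4 = (1 - z2 ^ 2) ^ 2 * s ^ 4 := by
      rw [mul_pow, show (4 : ℕ) = 2 * 2 from rfl, pow_mul, hr2, pow_mul]
    rw [e2]
    have e4 : 0 ≤ q * (q + 1) * (q + 2) * (q + 3) / 6 * ((1 - z2 ^ 2) ^ 2 * s ^ 4) := by positivity
    nlinarith [mul_le_mul_of_nonneg_left m4 e4]
  have key : c0 q z2 * s ^ 2 = 2 * q * w ^ (-(q + 1)) * z2 * s ^ 2 +
      2 * q * (q + 1) * (w ^ (-(q + 1)) * (1 - z2)) * s ^ 2 := by
    unfold c0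
    rw [← hw]
    ring
  have key2 : c1 q z2 * s ^ 4 =
      q * (q + 1) * (q + 2) * (q + 3) / 6 * w ^ (-(q + 4)) * (1 - z2 ^ 2) ^ 2 * s ^ 4 := by
    unfold c1
    rw [← hw]
  have hT : T3 q z2 g s = 2 * ((u - r * s) ^ (-q) + (u + r * s) ^ (-q)) := rfl
  rw [hT, key, key2]
  linarith

end Pool.Agent.RieszFive
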