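import Pool.Agent.RieszFive.II1
import Pool.Agent.RieszFive.II2

set_option autoImplicit false

namespace Pool.Agent.RieszFive

open Real

namespace II3Aux

lemma c1_pos {q z2 : ℝ} (hq : 0 < q) (h0 : 0 < z2) (h2 : z2 < 1) : 0 < c1 q z2 := by
  unfold c1
  have h3 : 0 < 1 - z2 ^ 2 := by nlinarith
  have h4 : 0 < (1 + z2) ^ (-(q + 4)) := rpow_pos_of_pos (by linarith) _
  positivity

end II3Aux

/-- `cc ≤ cbar`: `(1+z1)^(-2(q+1)) ≤ 1`, `(1-z1z2)^(q+2) ≤ 1` and the second term is `≥ 0`. -/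
theorem cc_le_cbar {q z1 z2 : ℝ} (hq : 0 < q) (h0 : 0 ≤ z1) (h1 : z1 < z2) (h2 : z2 < 1) :
    cc q z1 z2 ≤ cbar q z2 := by
  unfold cc cbar
  have hz2 : 0 < z2 := lt_of_le_of_lt h0 h1
  have hz12 : 0 ≤ z1 * z2 := by positivity
  have hz12' : z1 * z2 < 1 := by nlinarith
  have ha : (1 + z1) ^ (-2 * (q + 1)) ≤ 1 :=
    rpow_le_one_of_one_le_of_nonpos (by linarith) (by linarith)
  have ha0 : 0 ≤ (1 + z1) ^ (-2 * (q + 1)) := rpow_nonneg (by linarith) _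
  have hb : (1 - z1 * z2) ^ (q + 2) ≤ 1 :=
    rpow_le_one (by linarith) (by linarith) (by linarith)
  have hb0 : 0 ≤ (1 - z1 * z2) ^ (q + 2) := rpow_nonneg (by linarith) _
  have hc0 : 0 ≤ (1 + z1) ^ (-(q + 1)) := rpow_nonneg (by linarith) _
  have hd : 0 < 1 - z2 ^ 2 := by nlinarith
  have hq1 : 0 ≤ q / (q + 1) := by positivity
  have hab : (1 + z1) ^ (-2 * (q + 1)) * (1 - z1 * z2) ^ (q + 2) ≤ 1 := mul_le_one₀ ha hb0 hb
  have h3 : q / (q + 1) * (1 + z1) ^ (-2 * (q + 1)) * (1 - z1 * z2) ^ (q + 2) / (1 - z2 ^ 2)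
      ≤ q / (q + 1) / (1 - z2 ^ 2) := by
    apply div_le_div_of_nonneg_right _ hd.le
    rw [mul_assoc]
    calc q / (q + 1) * ((1 + z1) ^ (-2 * (q + 1)) * (1 - z1 * z2) ^ (q + 2))
        ≤ q / (q + 1) * 1 := mul_le_mul_of_nonneg_left hab hq1
      _ = q / (q + 1) := mul_one _
  have h4 : 0 ≤ 2 * q * z1 * (1 + z1) ^ (-(q + 1)) := by positivity
  linarith

/-- If `cc ≤ c0` then the configuration has at least the energy of the symmetric one.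
`T12_lower`, `T3_lower`, `(2-2z1²-2v²)^(-q) ≥ (2-2z1²)^(-q)`, `c1 ≥ 0`. -/
theorem FF_ge_ee {q z1 z2 v g s : ℝ} (hq : 0 < q) (h : Adm z1 z2 v g s)
    (hc : cc q z1 z2 ≤ c0 q z2) : 2 * ee q z1 z2 ≤ FF q z1 z2 v g s := by
  have hf := h.facts
  have h12 := T12_lower hq h
  have h3 := T3_lower hq h
  have hc1 : 0 < c1 q z2 := II3Aux.c1_pos hq hf.z2_pos h.z2_lt
  have hb : (2 - 2 * z1 ^ 2) ^ (-q) ≤ (2 - 2 * z1 ^ 2 - 2 * v ^ 2) ^ (-q) := by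
    apply Real.rpow_le_rpow_of_nonpos
    · have := hf.h2
      linarith
    · nlinarith [sq_nonneg v]
    · linarith
  have hs : cc q z1 z2 * s ^ 2 ≤ c0 q z2 * s ^ 2 := mul_le_mul_of_nonneg_right hc (sq_nonneg s)
  have hs4 : 0 ≤ c1 q z2 * s ^ 4 := by positivity
  unfold ee FF
  linarith

/-- Energies when `z2 ≥ 1/2` and `cc > c0`: `8A^(-q) + 4(1+z1)^(-q) ≥ 12` (tangent lines at `1`:
`8(1 + q z1 z2) + 4(1 - q z1) ≥ 12`), `(2-2z1²-2v²)^(-q) ≥ 2^(-q)`, and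
`-(cc - c0)s² + c1 s⁴ ≥ -(cc-c0)²/(4c1) ≥ -(max (cbar-c0) 0)²/(4c1)`
(if `cc ≤ c0` the left side is `≥ 0`). -/
theorem FF_ge_quart {q z1 z2 v g s : ℝ} (hq : 0 < q) (h : Adm z1 z2 v g s) (hz : 1 / 2 ≤ z2) :
    12 + 2 * 2 ^ (-q) + 2 * (2 - 2 * z2 ^ 2) ^ (-q) + 4 * (1 + z2) ^ (-q)
      - (max (cbar q z2 - c0 q z2) 0) ^ 2 / (4 * c1 q z2) ≤ FF q z1 z2 v g s := by
  have hf := h.facts
  have h12 := T12_lower hq h
  have h3 := T3_lower hq h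
  have hz1 := h.z1_nonneg
  have hz1z2 := h.z1_lt
  have hz2 := h.z2_lt
  have hc1 : 0 < c1 q z2 := II3Aux.c1_pos hq hf.z2_pos h.z2_lt
  have hb : (2:ℝ) ^ (-q) ≤ (2 - 2 * z1 ^ 2 - 2 * v ^ 2) ^ (-q) := by
    apply Real.rpow_le_rpow_of_nonpos
    · have := hf.h2
      linarith
    · nlinarith [sq_nonneg v, sq_nonneg z1]
    · linarith
  have hA : 0 < 1 - z1 * z2 := by nlinarith
  have t1 := rpow_tangent (q := q) (u := 1 - z1 * z2) (w := 1) hq hA one_pos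
  have t2 := rpow_tangent (q := q) (u := 1 + z1) (w := 1) hq (by linarith) one_pos
  rw [one_rpow, one_rpow] at t1 t2
  have h12' : 12 ≤ 8 * (1 - z1 * z2) ^ (-q) + 4 * (1 + z1) ^ (-q) := by
    have h5 : 0 ≤ q * z1 * (2 * z2 - 1) := by
      apply mul_nonneg (by positivity) (by linarith)
    nlinarith [t1, t2, h5]
  have hcb := cc_le_cbar hq hz1 hz1z2 hz2
  set M := max (cbar q z2 - c0 q z2) 0 with hM
  have hM1 : cc q z1 z2 - c0 q z2 ≤ M := by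
    have := le_max_left (cbar q z2 - c0 q z2) 0
    linarith
  have hMs : (cc q z1 z2 - c0 q z2) * s ^ 2 ≤ M * s ^ 2 :=
    mul_le_mul_of_nonneg_right hM1 (sq_nonneg s)
  have hsq : M * s ^ 2 - c1 q z2 * s ^ 4 ≤ M ^ 2 / (4 * c1 q z2) := by
    rw [le_div_iff₀ (by positivity)]
    nlinarith [sq_nonneg (2 * c1 q z2 * s ^ 2 - M)]
  unfold FF
  linarith

end Pool.Agent.RieszFive
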