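import Pool.Agent.RieszFive.II3

set_option autoImplicit false

namespace Pool.Agent.RieszFive

open Real

namespace II5Aux

lemma neg_log_ge {x : ℝ} (h0 : 0 ≤ x) (h1 : x < 1) : x + x ^ 2 / 2 ≤ -Real.log (1 - x) := by
  have h := Real.hasSum_pow_div_log_of_abs_lt_one (x := x) (by rw [abs_of_nonneg h0]; exact h1)
  have h2 := sum_le_hasSum (Finset.range 2) (fun n _ => by positivity) h
  simp only [Finset.sum_range_succ, Finset.sum_range_zero] at h2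
  norm_num at h2
  linarith

lemma taylor2 {q x : ℝ} (hq : 0 < q) (h0 : 0 ≤ x) (h1 : x < 1) :
    1 + q * x + q * (q + 1) / 2 * x ^ 2 ≤ (1 - x) ^ (-q) := by
  have hx : 0 < 1 - x := by linarith
  rw [rpow_def_of_pos hx]
  have h2 := neg_log_ge h0 h1
  have h3 : q * (x + x ^ 2 / 2) ≤ Real.log (1 - x) * (-q) := by nlinarith
  have h4 : 0 ≤ q * (x + x ^ 2 / 2) := by positivity
  have h5 := Real.quadratic_le_exp_of_nonneg h4
  have h6 := Real.exp_le_exp.mpr h3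
  have h7 : 0 ≤ q ^ 2 * x ^ 3 := by positivity
  have h8 : 0 ≤ q ^ 2 * x ^ 4 := by positivity
  nlinarith

lemma kap_nonneg {z2 : ℝ} (h0 : 0 < z2) : 0 ≤ kap z2 := by
  unfold kap
  positivity

lemma kap_le_one {z2 : ℝ} (h0 : 0 < z2) (hz : 2 * z2 ^ 2 ≤ 1) : kap z2 ≤ 1 := by
  unfold kap
  have hr : 0 < √(1 - z2 ^ 2) := Real.sqrt_pos.mpr (by nlinarith)
  rw [div_le_one hr]
  apply Real.le_sqrt_of_sq_le
  linarith

end II5Aux

/-- the scalar inequality (W1). Case `w ≥ 1`: `(κ+1-w)² ≤ κ²`. Case `w < 1`: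
`2w^(-q) ≥ 2 + 2q(1-w) ≥ 2 + 2(1-w)` and `(κ+1-w)² ≤ κ² + 3(1-w)`, `1-w ≤ 1`. -/
theorem w1 {q k w : ℝ} (hq : 1 ≤ q) (hk0 : 0 ≤ k) (hk1 : k ≤ 1) (hw : 0 < w)
    (hkw : 0 ≤ k + 1 - w) : -k ^ 2 ≤ 2 * w ^ (-q) - (k + 1 - w) ^ 2 := by
  have hpos : 0 ≤ w ^ (-q) := rpow_nonneg hw.le _
  rcases le_total 1 w with h | h
  · nlinarith
  · have t := rpow_tangent (q := q) (u := w) (w := 1) (by linarith) hw one_pos
    rw [one_rpow, one_rpow] at t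
    nlinarith

/-- the scalar inequality (W2). Case `w ≥ 6/5`: `0 ≤ k+1-w ≤ k-1/5`.
Case `w < 6/5`, `y = 6/5 - w > 0`: by Taylor of order 2 at `6/5` (all terms of
`w^(-q) = (6/5)^(-q) (1 - 5y/6)^(-q)` are nonnegative)
`2w^(-q) ≥ 2q(6/5)^(-(q+1)) y + q(q+1)(6/5)^(-(q+2)) y² ≥ (8/5) y + (q+1)(2/3) y² ≥ (8/5)y + y²`,
and `(k+1-w)² = (k-1/5+y)² ≤ (max (k-1/5) 0)² + (8/5) y + y²`. -/
theorem w2 {q k w : ℝ} (hq : 1 ≤ q) (hq2 : 4 / 5 ≤ q * (6 / 5 : ℝ) ^ (-(q + 1)))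
    (hk0 : 0 ≤ k) (hk1 : k ≤ 1) (hw : 0 < w) (hkw : 0 ≤ k + 1 - w) :
    -(max (k - 1 / 5) 0) ^ 2 ≤ 2 * w ^ (-q) - (k + 1 - w) ^ 2 := by
  have hpos : 0 ≤ w ^ (-q) := rpow_nonneg hw.le _
  have hmax0 : 0 ≤ max (k - 1 / 5) 0 := le_max_right _ _
  have hmax1 : k - 1 / 5 ≤ max (k - 1 / 5) 0 := le_max_left _ _
  rcases le_total (6 / 5) w with h | h
  · have h1 : k + 1 - w ≤ max (k - 1 / 5) 0 := by linarith
    nlinarith
  · set x : ℝ := 1 - 5 / 6 * w with hx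
    have hx0 : 0 ≤ x := by rw [hx]; linarith
    have hx1 : x < 1 := by rw [hx]; linarith
    have ht := II5Aux.taylor2 (q := q) (by linarith) hx0 hx1
    have hw' : w = (6 / 5) * (1 - x) := by rw [hx]; ring
    have hwr : w ^ (-q) = (6 / 5 : ℝ) ^ (-q) * (1 - x) ^ (-q) := by
      rw [← mul_rpow (by norm_num) (by linarith), ← hw']
    have hc0 : 0 < (6 / 5 : ℝ) ^ (-q) := rpow_pos_of_pos (by norm_num) _
    have hc1 : (6 / 5 : ℝ) ^ (-(q + 1)) = (6 / 5 : ℝ) ^ (-q) * (5 / 6) := by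
      rw [show -(q + 1) = -q + (-1) by ring, rpow_add (by norm_num), rpow_neg_one]
      norm_num
    rw [hc1] at hq2
    set c := (6 / 5 : ℝ) ^ (-q) with hc
    -- `x = 5/6 y`
    have hy : (k + 1 - w) = (k - 1 / 5) + 6 / 5 * x := by rw [hx]; ring
    have h2 : 8 / 5 * (6 / 5 * x) + (6 / 5 * x) ^ 2 ≤ 2 * w ^ (-q) := by
      rw [hwr]
      have h3 : c * (1 + q * x + q * (q + 1) / 2 * x ^ 2) ≤ c * (1 - x) ^ (-q) :=
        mul_le_mul_of_nonneg_left ht hc0.le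
      have hqc : 24 / 25 ≤ q * c := by linarith
      have h4 : 0 ≤ (q * c - 24 / 25) * x := mul_nonneg (by linarith) hx0
      have h5 : 0 ≤ (q * c - 24 / 25) * (q + 1) * x ^ 2 := by
        apply mul_nonneg (mul_nonneg (by linarith) (by linarith)) (sq_nonneg x)
      have h6 : 0 ≤ (q - 1) * x ^ 2 := mul_nonneg (by linarith) (sq_nonneg x)
      have h7 : 0 ≤ x ^ 2 := sq_nonneg x
      nlinarith
    rcases le_total 0 (k - 1 / 5) with hk | hk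
    · have h8 : (k - 1 / 5) ^ 2 ≤ (max (k - 1 / 5) 0) ^ 2 := by nlinarith
      have h9 : (k + 1 - w) ^ 2 ≤ (k - 1 / 5) ^ 2 + 8 / 5 * (6 / 5 * x) + (6 / 5 * x) ^ 2 := by
        rw [hy]
        have : (k - 1 / 5) * x ≤ 4 / 5 * x := mul_le_mul_of_nonneg_right (by linarith) hx0
        nlinarith
      linarith
    · have h9 : (k + 1 - w) ^ 2 ≤ (6 / 5 * x) ^ 2 := by
        apply pow_le_pow_left₀ hkw
        rw [hy]; linarith
      have h10 : 0 ≤ (max (k - 1 / 5) 0) ^ 2 := sq_nonneg _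
      nlinarith

/-- The `w`-bound: with `w = 1 + z2 g - r|s| > 0` (`Facts.h6`) and `k = kap z2 = z2/r`:
`|s|/r = k (z2|s| + r g) - (w-1) ≤ k + 1 - w` (`Facts.h5`), so `s² ≤ r² (k+1-w)²`,
`cbar s² ≤ s²/r² ≤ (k+1-w)²`, `T3 ≥ 2w^(-q)` (one of the two terms of `T3` has the base `w`). -/
theorem w_bound {q z1 z2 v g s : ℝ} (hq : 1 ≤ q) (h : Adm z1 z2 v g s) :
    ∃ w : ℝ, 0 < w ∧ 0 ≤ kap z2 + 1 - w ∧
      2 * w ^ (-q) - (kap z2 + 1 - w) ^ 2 ≤ T3 q z2 g s - cbar q z2 * s ^ 2 := by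
  have hf := h.facts
  have hz2 := hf.z2_pos
  have hr := hf.r_pos
  have hr2 := hf.r_sq
  have h5 := hf.h5
  have h6 := hf.h6
  have hg := h.g_nonneg
  have hk : kap z2 = z2 / √(1 - z2 ^ 2) := rfl
  set r := √(1 - z2 ^ 2) with hrdef
  set w := 1 + z2 * g - r * |s| with hw
  have hs0 : 0 ≤ |s| := abs_nonneg s
  -- key bound
  have hkey : |s| ≤ r * (kap z2 + 1 - w) := by
    rw [hk]
    have e1 : r * (z2 / r + 1 - w) = z2 + r * (1 - w) := by field_simp; ring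
    rw [e1, hw]
    have e2 : |s| = z2 * (z2 * |s| + r * g) - r * (z2 * g - r * |s|) := by
      have : |s| = (z2 ^ 2 + r ^ 2) * |s| := by rw [hr2]; ring
      linear_combination this
    have e3 : z2 * (z2 * |s| + r * g) ≤ z2 * 1 := mul_le_mul_of_nonneg_left h5 hz2.le
    linarith
  have hkw : 0 ≤ kap z2 + 1 - w := by
    by_contra hcon
    push Not at hcon
    have : r * (kap z2 + 1 - w) < 0 := mul_neg_of_pos_of_neg hr hcon
    linarith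
  refine ⟨w, h6, hkw, ?_⟩
  have hs2 : s ^ 2 ≤ r ^ 2 * (kap z2 + 1 - w) ^ 2 := by
    rw [← mul_pow, ← sq_abs s]
    exact pow_le_pow_left₀ hs0 hkey 2
  have hcb : cbar q z2 * s ^ 2 ≤ (kap z2 + 1 - w) ^ 2 := by
    unfold cbar
    rw [← hr2]
    have hr20 : 0 < r ^ 2 := by positivity
    have hq1 : q / (q + 1) ≤ 1 := by
      rw [div_le_one (by linarith)]; linarith
    have hq0 : 0 ≤ q / (q + 1) := by positivity
    calc q / (q + 1) / r ^ 2 * s ^ 2 = q / (q + 1) * (s ^ 2 / r ^ 2) := by ring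
      _ ≤ 1 * (s ^ 2 / r ^ 2) := mul_le_mul_of_nonneg_right hq1 (by positivity)
      _ = s ^ 2 / r ^ 2 := one_mul _
      _ ≤ (kap z2 + 1 - w) ^ 2 := by
        rw [div_le_iff₀ hr20]
        linarith
  have hT3 : 2 * w ^ (-q) ≤ T3 q z2 g s := by
    unfold T3
    rw [← hrdef]
    have hpos : 0 < 1 + z2 * g + r * |s| := by positivity
    rcases abs_cases s with ⟨hs, _⟩ | ⟨hs, _⟩
    · rw [hs] at hw hpos
      have h1 : 0 ≤ (1 + z2 * g + r * s) ^ (-q) := rpow_nonneg hpos.le _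
      rw [hw]
      linarith
    · rw [hs] at hw hpos
      have e1 : 1 + z2 * g - r * -s = 1 + z2 * g + r * s := by ring
      have e2 : 1 + z2 * g + r * -s = 1 + z2 * g - r * s := by ring
      rw [e2] at hpos
      have h1 : 0 ≤ (1 + z2 * g - r * s) ^ (-q) := rpow_nonneg hpos.le _
      rw [hw, e1]
      linarith
  linarith

/-- Combination with `T12_lower`, `cc_le_cbar`: (a) for all `q ≥ 1`, `2z2² ≤ 1` (so `kap z2 ≤ 1`). -/
theorem FF_ge_k {q z1 z2 v g s : ℝ} (hq : 1 ≤ q) (h : Adm z1 z2 v g s) (hz : 2 * z2 ^ 2 ≤ 1) :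
    8 * (1 - z1 * z2) ^ (-q) + 4 * (1 + z1) ^ (-q) + 2 * (2 - 2 * z2 ^ 2) ^ (-q)
      - kap z2 ^ 2 ≤ FF q z1 z2 v g s := by
  have hf := h.facts
  have hq0 : 0 < q := by linarith
  have h12 := T12_lower hq0 h
  have hcb := cc_le_cbar hq0 h.z1_nonneg h.z1_lt h.z2_lt
  obtain ⟨w, hw, hkw, hT⟩ := w_bound hq h
  have h1 := w1 hq (II5Aux.kap_nonneg hf.z2_pos) (II5Aux.kap_le_one hf.z2_pos hz) hw hkw
  have hs : cc q z1 z2 * s ^ 2 ≤ cbar q z2 * s ^ 2 := mul_le_mul_of_nonneg_right hcb (sq_nonneg s)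
  have hb : 0 ≤ (2 - 2 * z1 ^ 2 - 2 * v ^ 2) ^ (-q) := by
    apply rpow_nonneg
    have := hf.h2
    linarith
  unfold FF
  linarith

/-- (b) for `q` with `q (6/5)^(-(q+1)) ≥ 4/5`. -/
theorem FF_ge_k2 {q z1 z2 v g s : ℝ} (hq : 1 ≤ q)
    (hq2 : 4 / 5 ≤ q * (6 / 5 : ℝ) ^ (-(q + 1))) (h : Adm z1 z2 v g s) (hz : 2 * z2 ^ 2 ≤ 1) :
    8 * (1 - z1 * z2) ^ (-q) + 4 * (1 + z1) ^ (-q) + 2 * (2 - 2 * z2 ^ 2) ^ (-q)
      - (max (kap z2 - 1 / 5) 0) ^ 2 ≤ FF q z1 z2 v g s := by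
  have hf := h.facts
  have hq0 : 0 < q := by linarith
  have h12 := T12_lower hq0 h
  have hcb := cc_le_cbar hq0 h.z1_nonneg h.z1_lt h.z2_lt
  obtain ⟨w, hw, hkw, hT⟩ := w_bound hq h
  have h1 := w2 hq hq2 (II5Aux.kap_nonneg hf.z2_pos) (II5Aux.kap_le_one hf.z2_pos hz) hw hkw
  have hs : cc q z1 z2 * s ^ 2 ≤ cbar q z2 * s ^ 2 := mul_le_mul_of_nonneg_right hcb (sq_nonneg s)
  have hb : 0 ≤ (2 - 2 * z1 ^ 2 - 2 * v ^ 2) ^ (-q) := by
    apply rpow_nonneg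
    have := hf.h2
    linarith
  unfold FF
  linarith

end Pool.Agent.RieszFive
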