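import Pool.Agent.RieszFive.SymProd
import Pool.Agent.RieszFive.Pow

set_option autoImplicit false

namespace Pool.Agent.RieszFive

open Real

/-- The condition `(H)` at `zb`. -/
def HH (q zb : ℝ) : Prop :=
  2 * zb * ((1 + 1 / (q ^ 2 * zb)) / (1 - 1 / q ^ 2)) ^ (q + 1)
    + 2 / q * (2 * (1 - 1 / q)) ^ (-(q + 1)) ≤ 1

/-- strict tangent inequality for `z1 ↦ ee q z1 w` at `u` (all three terms with `z1` are convex:
`rpow_tangent` for the bases `2-2z1²`, `1+z1`, `1-z1w`, with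
`-(2-2z1²-(2-2u²)) = 2(z1²-u²) ≥ 4u(z1-u)`); strict because `1+z1 ≠ 1+u`. -/
theorem ee_tangent {q z1 u w : ℝ} (hq : 0 < q) (h0 : 0 ≤ z1) (h1 : z1 < 1) (hu : 0 ≤ u)
    (hu1 : u < 1) (hw0 : 0 ≤ w) (hw1 : w < 1) (hne : z1 ≠ u) :
    ee q u w + q * (z1 - u) * (4 * u * (2 - 2 * u ^ 2) ^ (-(q + 1))
      - 2 * (1 + u) ^ (-(q + 1)) + 4 * w * (1 - u * w) ^ (-(q + 1))) < ee q z1 w := by
  have b1 : 0 < 2 - 2 * z1 ^ 2 := by nlinarith
  have b2 : 0 < 2 - 2 * u ^ 2 := by nlinarith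
  have b3 : 0 < 1 - z1 * w := by nlinarith
  have b4 : 0 < 1 - u * w := by nlinarith
  have a1 := rpow_tangent hq b1 b2
  have a2 := rpow_tangent_lt (u := 1 + z1) (w := 1 + u) hq (by linarith) (by linarith)
    (fun h => hne (by linarith))
  have a3 := rpow_tangent hq b3 b4
  obtain ⟨P, hP⟩ : ∃ P : ℝ, P = (2 - 2 * u ^ 2) ^ (-(q + 1)) := ⟨_, rfl⟩
  obtain ⟨Q, hQ⟩ : ∃ Q : ℝ, Q = (1 + u) ^ (-(q + 1)) := ⟨_, rfl⟩
  obtain ⟨R, hR⟩ : ∃ R : ℝ, R = (1 - u * w) ^ (-(q + 1)) := ⟨_, rfl⟩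
  rw [← hP] at a1 ⊢
  rw [← hQ] at a2 ⊢
  rw [← hR] at a3 ⊢
  have hP0 : 0 ≤ P := by rw [hP]; positivity
  have h5 : 0 ≤ q * P * (z1 - u) ^ 2 := mul_nonneg (mul_nonneg hq.le hP0) (sq_nonneg _)
  unfold ee
  nlinarith

namespace MonoZoneAux

/-- `(1+u)^p/u` decreases in `u` for `q u ≤ 1`, `p = q + 1` -/
theorem key {q a b : ℝ} (hq : 0 < q) (ha : 0 < a) (hab : a ≤ b) (hb : b ≤ 1 / q) :
    a * (1 + b) ^ (q + 1) ≤ b * (1 + a) ^ (q + 1) := by
  have hb0 : 0 < b := ha.trans_le hab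
  have hmono : MonotoneOn (fun x : ℝ => Real.log x - (q + 1) * Real.log (1 + x))
      (Set.Icc a b) := by
    have hder : ∀ x ∈ Set.Icc a b, HasDerivAt
        (fun x : ℝ => Real.log x - (q + 1) * Real.log (1 + x))
        (1 / x - (q + 1) * (1 / (1 + x))) x := by
      intro x hx
      have hx0 : 0 < x := ha.trans_le hx.1
      have h1 : HasDerivAt Real.log (1 / x) x := by
        have := Real.hasDerivAt_log hx0.ne'
        rwa [← one_div] at this
      have h2 : HasDerivAt (fun x : ℝ => Real.log (1 + x)) (1 / (1 + x)) x := by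
        have h3 : HasDerivAt (fun x : ℝ => 1 + x) 1 x := by
          simpa using (hasDerivAt_id x).const_add 1
        exact h3.log (by linarith)
      exact h1.sub (h2.const_mul (q + 1))
    apply monotoneOn_of_deriv_nonneg (convex_Icc a b)
    · intro x hx
      exact (hder x hx).continuousAt.continuousWithinAt
    · intro x hx
      rw [interior_Icc] at hx
      exact (hder x (Set.Ioo_subset_Icc_self hx)).differentiableAt.differentiableWithinAt
    · intro x hx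
      rw [interior_Icc] at hx
      have hx0 : 0 < x := ha.trans hx.1
      have hx1 : 0 < 1 + x := by linarith
      rw [(hder x (Set.Ioo_subset_Icc_self hx)).deriv]
      have h4 : 1 / x - (q + 1) * (1 / (1 + x)) = (1 - q * x) / (x * (1 + x)) := by
        field_simp
        ring
      rw [h4]
      apply div_nonneg
      · have : q * x ≤ q * (1 / q) := mul_le_mul_of_nonneg_left (hx.2.le.trans hb) hq.le
        rw [mul_one_div_cancel hq.ne'] at this
        linarith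
      · positivity
  have h := hmono (Set.left_mem_Icc.2 hab) (Set.right_mem_Icc.2 hab) hab
  simp only at h
  have h5 : Real.log a + (q + 1) * Real.log (1 + b) ≤ Real.log b + (q + 1) * Real.log (1 + a) := by
    linarith
  have h6 := Real.exp_le_exp.2 h5
  rw [Real.exp_add, Real.exp_add, Real.exp_log ha, Real.exp_log hb0,
    mul_comm (q + 1), mul_comm (q + 1), ← Real.rpow_def_of_pos (by linarith),
    ← Real.rpow_def_of_pos (by linarith)] at h6
  exact h6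

end MonoZoneAux

/-- Under `(H)` the bracket is `≤ 0` for `u = 1/(q²w)`, `1/q ≤ w ≤ zb`.
Divide by `2(1+u)^(-(q+1))`: to show `2u (2(1-u))^(-p) + 2w ((1+u)/(1-uw))^p ≤ 1`, `p = q+1`,
`uw = 1/q²`, `u ≤ 1/q`; the first term is increasing in `u`; in the second
`w (1+u)^p = (1/q²) (1+u)^p/u` and `(1+u)^p/u` decreases in `u` for `q u ≤ 1`, and
`u ≥ 1/(q² zb)`. -/
theorem bracket_A {q w zb : ℝ} (hq : 1 < q) (hw : 1 / q ≤ w) (hwb : w ≤ zb) (hzb : zb < 1)
    (hH : HH q zb) :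
    4 * (1 / (q ^ 2 * w)) * (2 - 2 * (1 / (q ^ 2 * w)) ^ 2) ^ (-(q + 1))
      - 2 * (1 + 1 / (q ^ 2 * w)) ^ (-(q + 1))
      + 4 * w * (1 - 1 / (q ^ 2 * w) * w) ^ (-(q + 1)) ≤ 0 := by
  have hq0 : 0 < q := by linarith
  have hq1 : 1 / q < 1 := by rw [div_lt_one hq0]; exact hq
  have hqi : 0 < 1 / q := by positivity
  have hw0 : 0 < w := hqi.trans_le hw
  have hzb0 : 0 < zb := hw0.trans_le hwb
  obtain ⟨u, hu⟩ : ∃ u : ℝ, u = 1 / (q ^ 2 * w) := ⟨_, rfl⟩
  obtain ⟨v, hv⟩ : ∃ v : ℝ, v = 1 / (q ^ 2 * zb) := ⟨_, rfl⟩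
  rw [← hu]
  unfold HH at hH
  rw [← hv] at hH
  have hu0 : 0 < u := by rw [hu]; positivity
  have hv0 : 0 < v := by rw [hv]; positivity
  have huw : u * w = 1 / q ^ 2 := by rw [hu]; field_simp
  have hvz : v * zb = 1 / q ^ 2 := by rw [hv]; field_simp
  have hvu : v ≤ u := by
    rw [hu, hv]
    apply one_div_le_one_div_of_le (by positivity)
    exact mul_le_mul_of_nonneg_left hwb (by positivity)
  have huq : u ≤ 1 / q := by
    rw [hu]
    apply one_div_le_one_div_of_le hq0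
    have : q ^ 2 * (1 / q) ≤ q ^ 2 * w := mul_le_mul_of_nonneg_left hw (by positivity)
    have h2 : q ^ 2 * (1 / q) = q := by field_simp
    linarith
  have hk := MonoZoneAux.key hq0 hv0 hvu huq
  -- second term
  have hc0 : 0 < 1 - 1 / q ^ 2 := by
    have : 1 / q ^ 2 < 1 := by
      rw [div_lt_one (by positivity)]
      nlinarith
    linarith
  have h1 : w * (1 + u) ^ (q + 1) ≤ zb * (1 + v) ^ (q + 1) := by
    have h2 : v * zb * w * (1 + u) ^ (q + 1) ≤ u * zb * w * (1 + v) ^ (q + 1) := by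
      have := mul_le_mul_of_nonneg_left hk (by positivity : 0 ≤ zb * w)
      linarith
    have h3 : (1 / q ^ 2) * (w * (1 + u) ^ (q + 1)) ≤ (1 / q ^ 2) * (zb * (1 + v) ^ (q + 1)) := by
      calc (1 / q ^ 2) * (w * (1 + u) ^ (q + 1)) = v * zb * w * (1 + u) ^ (q + 1) := by
            rw [hvz]; ring
        _ ≤ u * zb * w * (1 + v) ^ (q + 1) := h2
        _ = (u * w) * (zb * (1 + v) ^ (q + 1)) := by ring
        _ = _ := by rw [huw]
    exact le_of_mul_le_mul_left h3 (by positivity)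
  obtain ⟨C, hC⟩ : ∃ C : ℝ, C = (1 - 1 / q ^ 2) ^ (-(q + 1)) := ⟨_, rfl⟩
  have hC0 : 0 ≤ C := by rw [hC]; positivity
  have h4 : ((1 + v) / (1 - 1 / q ^ 2)) ^ (q + 1) = (1 + v) ^ (q + 1) * C := by
    rw [hC, Real.div_rpow (by linarith) hc0.le, Real.rpow_neg hc0.le]
    rfl
  rw [h4] at hH
  -- first term
  have h5 : (2 * (1 - u)) ^ (-(q + 1)) ≤ (2 * (1 - 1 / q)) ^ (-(q + 1)) := by
    apply Real.rpow_le_rpow_of_nonpos (by linarith) (by linarith) (by linarith)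
  have h6 : (2 - 2 * u ^ 2) ^ (-(q + 1)) = (2 * (1 - u)) ^ (-(q + 1)) * (1 + u) ^ (-(q + 1)) := by
    rw [← Real.mul_rpow (by linarith) (by linarith)]
    congr 1
    ring
  have h7 : (1 + u) ^ (q + 1) * (1 + u) ^ (-(q + 1)) = 1 := by
    rw [← Real.rpow_add (by linarith), add_neg_cancel, Real.rpow_zero]
  rw [h6, huw, ← hC]
  obtain ⟨Q, hQ⟩ : ∃ Q : ℝ, Q = (1 + u) ^ (-(q + 1)) := ⟨_, rfl⟩
  obtain ⟨X, hX⟩ : ∃ X : ℝ, X = (1 + u) ^ (q + 1) := ⟨_, rfl⟩
  obtain ⟨P, hP⟩ : ∃ P : ℝ, P = (2 * (1 - u)) ^ (-(q + 1)) := ⟨_, rfl⟩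
  obtain ⟨P', hP'⟩ : ∃ P' : ℝ, P' = (2 * (1 - 1 / q)) ^ (-(q + 1)) := ⟨_, rfl⟩
  obtain ⟨Y, hY⟩ : ∃ Y : ℝ, Y = (1 + v) ^ (q + 1) := ⟨_, rfl⟩
  rw [← hX] at h7 h1
  rw [← hQ] at h7 ⊢
  rw [← hP] at h5 ⊢
  rw [← hP'] at h5 hH
  rw [← hY] at h1 hH
  have hQ0 : 0 ≤ Q := by rw [hQ]; positivity
  have hP0 : 0 ≤ P := by rw [hP]; exact Real.rpow_nonneg (by linarith) _
  have h8 : u * P ≤ (1 / q) * P' := mul_le_mul huq h5 hP0 hqi.le
  have h9 : w * X * C ≤ zb * Y * C := mul_le_mul_of_nonneg_right h1 hC0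
  have h10 : 2 * (u * P) + 2 * (w * X * C) ≤ 1 := by
    have : 2 / q * P' = 2 * ((1 / q) * P') := by ring
    rw [this] at hH
    nlinarith
  have h11 : 4 * u * (P * Q) - 2 * Q + 4 * w * C =
      2 * Q * (2 * (u * P) + 2 * (w * X * C) - 1) := by
    have : 4 * w * C = 4 * w * C * (X * Q) := by rw [h7, mul_one]
    rw [this]
    ring
  rw [h11]
  exact mul_nonpos_of_nonneg_of_nonpos (by positivity) (by linarith)

/-- Under `(H)` the bracket is `≤ 0` for `u = 1/q`, `w ≤ 1/q` (monotone in `w`, then `bracket_A`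
with `w = 1/q`). -/
theorem bracket_B {q w zb : ℝ} (hq : 1 < q) (hw0 : 0 ≤ w) (hw : w ≤ 1 / q) (hb : 1 / q ≤ zb)
    (hzb : zb < 1) (hH : HH q zb) :
    4 * (1 / q) * (2 - 2 * (1 / q) ^ 2) ^ (-(q + 1))
      - 2 * (1 + 1 / q) ^ (-(q + 1)) + 4 * w * (1 - 1 / q * w) ^ (-(q + 1)) ≤ 0 := by
  have hq0 : 0 < q := by linarith
  have hqi : 0 < 1 / q := by positivity
  have hq1 : 1 / q < 1 := by rw [div_lt_one hq0]; exact hq
  have h := bracket_A hq le_rfl hb hzb hH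
  have e1 : 1 / (q ^ 2 * (1 / q)) = 1 / q := by field_simp
  rw [e1] at h
  have h1 : (1 - 1 / q * w) ^ (-(q + 1)) ≤ (1 - 1 / q * (1 / q)) ^ (-(q + 1)) := by
    apply Real.rpow_le_rpow_of_nonpos _ _ (by linarith)
    · nlinarith
    · have := mul_le_mul_of_nonneg_left hw hqi.le
      linarith
  have h2 : w * (1 - 1 / q * w) ^ (-(q + 1)) ≤ (1 / q) * (1 - 1 / q * (1 / q)) ^ (-(q + 1)) := by
    apply mul_le_mul hw h1 _ hqi.le
    apply Real.rpow_nonneg
    nlinarith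
  linarith

/-- III2. Case `z2 ≥ 1/q`: `u = 1/(q² z2) ≤ 1/q ≤ z2`, `z1 < u`: `ee_tangent`, `bracket_A` give
`ee z1 z2 > ee u z2`, and `ee u z2 ≥ ph (1/q)` by `sym_prod` (`w = 1/q`; if `u = z2 = 1/q`,
equality).  Case `z2 < 1/q`: `ee_tangent` and `bracket_B` twice (`ee` is symmetric):
`ee z1 z2 > ee (1/q) z2 = ee z2 (1/q) > ee (1/q) (1/q)`. -/
theorem mono_zone {q z1 z2 zb : ℝ} (hq : 1 < q) (h0 : 0 ≤ z1) (h1 : z1 < z2) (h2 : z2 ≤ zb)
    (hb : 1 / q ≤ zb) (hzb : zb < 1) (hprod : z1 * z2 < 1 / q ^ 2) (hH : HH q zb) :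
    ph q (1 / q) < ee q z1 z2 := by
  have hq0 : 0 < q := by linarith
  have hqi : 0 < 1 / q := by positivity
  have hq1 : 1 / q < 1 := by rw [div_lt_one hq0]; exact hq
  have hz2 : 0 < z2 := h0.trans_lt h1
  have hz21 : z2 < 1 := h2.trans_lt hzb
  rcases le_or_gt (1 / q) z2 with hc | hc
  · obtain ⟨u, hu⟩ : ∃ u : ℝ, u = 1 / (q ^ 2 * z2) := ⟨_, rfl⟩
    have hu0 : 0 < u := by rw [hu]; positivity
    have huz : u * z2 = (1 / q) ^ 2 := by rw [hu]; field_simp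
    have huq : u ≤ 1 / q := by
      rw [hu]
      apply one_div_le_one_div_of_le hq0
      have : q ^ 2 * (1 / q) ≤ q ^ 2 * z2 := mul_le_mul_of_nonneg_left hc (by positivity)
      have h2 : q ^ 2 * (1 / q) = q := by field_simp
      linarith
    have hu1 : u < 1 := huq.trans_lt hq1
    have hzu : z1 < u := by
      have : z1 * z2 < u * z2 := by
        rw [huz, one_div_pow]; exact hprod
      exact lt_of_mul_lt_mul_right this hz2.le
    have hA := bracket_A hq hc h2 hzb hH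
    rw [← hu] at hA
    have ht := ee_tangent hq0 h0 (h1.trans hz21) hu0.le hu1 hz2.le hz21 hzu.ne
    have h3 : ee q u z2 < ee q z1 z2 := by
      refine lt_of_le_of_lt ?_ ht
      have : 0 ≤ q * (z1 - u) * (4 * u * (2 - 2 * u ^ 2) ^ (-(q + 1))
          - 2 * (1 + u) ^ (-(q + 1)) + 4 * z2 * (1 - u * z2) ^ (-(q + 1))) :=
        mul_nonneg_of_nonpos_of_nonpos
          (mul_nonpos_of_nonneg_of_nonpos hq0.le (by linarith)) hA
      linarith
    refine lt_of_le_of_lt ?_ h3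
    rcases eq_or_ne u z2 with hne | hne
    · have h4 : z2 = 1 / q := le_antisymm (hne ▸ huq) hc
      rw [hne, h4]
      exact le_rfl
    · exact (sym_prod hq0 hu0 hz2 hu1 hz21 hqi huz hne
        (by rw [mul_one_div_cancel hq0.ne'])).le
  · have hB := bracket_B hq hz2.le hc.le hb hzb hH
    have ht := ee_tangent hq0 h0 (h1.trans hz21) hqi.le hq1 hz2.le hz21 (h1.trans hc).ne
    have h3 : ee q (1 / q) z2 < ee q z1 z2 := by
      refine lt_of_le_of_lt ?_ ht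
      have := mul_nonneg_of_nonpos_of_nonpos
          (mul_nonpos_of_nonneg_of_nonpos hq0.le (by linarith : z1 - 1 / q ≤ 0)) hB
      linarith
    have hB' := bracket_B hq hqi.le le_rfl hb hzb hH
    have ht' := ee_tangent hq0 hz2.le hz21 hqi.le hq1 hqi.le hq1 hc.ne
    have h4 : ee q (1 / q) (1 / q) < ee q z2 (1 / q) := by
      refine lt_of_le_of_lt ?_ ht'
      have := mul_nonneg_of_nonpos_of_nonpos
          (mul_nonpos_of_nonneg_of_nonpos hq0.le (by linarith : z2 - 1 / q ≤ 0)) hB'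
      linarith
    have h5 : ee q z2 (1 / q) = ee q (1 / q) z2 := by
      unfold ee
      rw [mul_comm z2 (1 / q)]
      ring
    unfold ph
    linarith

end Pool.Agent.RieszFive
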