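import Pool.Agent.RieszFive.Pow

set_option autoImplicit false

namespace Pool.Agent.RieszFive

open Real

namespace PairAux

theorem le_of_hasDeriv {f f' : ℝ → ℝ} {a b : ℝ} (hab : a ≤ b)
    (hf : ∀ x ∈ Set.Icc a b, HasDerivAt f (f' x) x) (h : ∀ x ∈ Set.Icc a b, 0 ≤ f' x) :
    f a ≤ f b := by
  have hm : MonotoneOn f (Set.Icc a b) := by
    refine monotoneOn_of_deriv_nonneg (convex_Icc a b)
      (fun x hx => (hf x hx).continuousAt.continuousWithinAt) ?_ ?_
    · intro x hx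
      rw [interior_Icc] at hx
      exact (hf x (Set.Ioo_subset_Icc_self hx)).differentiableAt.differentiableWithinAt
    · intro x hx
      rw [interior_Icc] at hx
      rw [(hf x (Set.Ioo_subset_Icc_self hx)).deriv]
      exact h x (Set.Ioo_subset_Icc_self hx)
  exact hm (Set.left_mem_Icc.2 hab) (Set.right_mem_Icc.2 hab) hab

theorem hasDeriv_minus {r A x : ℝ} (hx : x < A) :
    HasDerivAt (fun s => (A - s) ^ (-r)) (r * (A - x) ^ (-(r + 1))) x := by
  have h1 : HasDerivAt (fun s : ℝ => A - s) (-1) x := by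
    simpa using (hasDerivAt_id x).const_sub A
  have h0 : A - x ≠ 0 := (sub_pos.2 hx).ne'
  have h2 := h1.rpow_const (p := -r) (Or.inl h0)
  convert h2 using 1
  rw [show -(r + 1) = -r - 1 by ring]
  ring

theorem hasDeriv_plus {r A x : ℝ} (hx : -A < x) :
    HasDerivAt (fun s => (A + s) ^ (-r)) (-(r * (A + x) ^ (-(r + 1)))) x := by
  have h1 : HasDerivAt (fun s : ℝ => A + s) 1 x := by
    simpa using (hasDerivAt_id x).const_add A
  have h0 : A + x ≠ 0 := (by linarith : 0 < A + x).ne'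
  have h2 := h1.rpow_const (p := -r) (Or.inl h0)
  convert h2 using 1
  rw [show -(r + 1) = -r - 1 by ring]
  ring

theorem conv {r A x : ℝ} (hr : 0 < r) (hx0 : 0 ≤ x) (hx : x < A) :
    2 * A ^ (-r) ≤ (A - x) ^ (-r) + (A + x) ^ (-r) := by
  have h1 := rpow_tangent (q := r) (u := A - x) (w := A) hr (by linarith) (by linarith)
  have h2 := rpow_tangent (q := r) (u := A + x) (w := A) hr (by linarith) (by linarith)
  nlinarith [h1, h2]

theorem first {q A x : ℝ} (hq : 0 < q) (hx0 : 0 ≤ x) (hx : x < A) :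
    2 * (q + 1) * A ^ (-(q + 2)) * x ≤ (A - x) ^ (-(q + 1)) - (A + x) ^ (-(q + 1)) := by
  have h := le_of_hasDeriv (a := 0) (b := x)
    (f := fun s => (A - s) ^ (-(q + 1)) - (A + s) ^ (-(q + 1)) - 2 * (q + 1) * A ^ (-(q + 2)) * s)
    (f' := fun s => (q + 1) * ((A - s) ^ (-(q + 2)) + (A + s) ^ (-(q + 2)) - 2 * A ^ (-(q + 2))))
    hx0 ?_ ?_
  · simp only [sub_zero, add_zero, sub_self, mul_zero] at h
    linarith
  · intro s hs
    have h1 := hasDeriv_minus (r := q + 1) (A := A) (x := s) (lt_of_le_of_lt hs.2 hx)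
    have h2 := hasDeriv_plus (r := q + 1) (A := A) (x := s) (by linarith [hs.1])
    have h3 : HasDerivAt (fun s : ℝ => 2 * (q + 1) * A ^ (-(q + 2)) * s)
        (2 * (q + 1) * A ^ (-(q + 2))) s := by
      simpa using (hasDerivAt_id s).const_mul (2 * (q + 1) * A ^ (-(q + 2)))
    refine ((h1.sub h2).sub h3).congr_deriv ?_
    rw [show -(q + 1 + 1) = -(q + 2) by ring]
    ring
  · intro s hs
    have := conv (r := q + 2) (A := A) (x := s) (by linarith) hs.1 (lt_of_le_of_lt hs.2 hx)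
    have h4 : 0 < q + 1 := by linarith
    exact mul_nonneg h4.le (by linarith)

theorem second {q A x : ℝ} (hq : 0 < q) (hx0 : 0 ≤ x) (hx : x < A) :
    2 * A ^ (-q) + q * (q + 1) * A ^ (-(q + 2)) * x ^ 2 ≤ (A - x) ^ (-q) + (A + x) ^ (-q) := by
  have h := le_of_hasDeriv (a := 0) (b := x)
    (f := fun s => (A - s) ^ (-q) + (A + s) ^ (-q) - q * (q + 1) * A ^ (-(q + 2)) * s ^ 2)
    (f' := fun s => q * ((A - s) ^ (-(q + 1)) - (A + s) ^ (-(q + 1)) -
      2 * (q + 1) * A ^ (-(q + 2)) * s))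
    hx0 ?_ ?_
  · simp only [sub_zero, add_zero] at h
    rw [show (0 : ℝ) ^ 2 = 0 by norm_num, mul_zero, sub_zero] at h
    linarith
  · intro s hs
    have h1 := hasDeriv_minus (r := q) (A := A) (x := s) (lt_of_le_of_lt hs.2 hx)
    have h2 := hasDeriv_plus (r := q) (A := A) (x := s) (by linarith [hs.1])
    have h3 : HasDerivAt (fun s : ℝ => q * (q + 1) * A ^ (-(q + 2)) * s ^ 2)
        (q * (q + 1) * A ^ (-(q + 2)) * (2 * s)) s := by
      simpa using (hasDerivAt_pow 2 s).const_mul (q * (q + 1) * A ^ (-(q + 2)))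
    refine ((h1.add h2).sub h3).congr_deriv ?_
    ring
  · intro s hs
    have := first (q := q) (A := A) (x := s) hq hs.1 (lt_of_le_of_lt hs.2 hx)
    exact mul_nonneg hq.le (by linarith)

end PairAux

/-- Proof: divide by `A^(-q)`: with `x = t/A`, `|x| < 1`, show
`h(x) = (1-x)^(-q) + (1+x)^(-q) - 2 - q(q+1)x² ≥ 0`. WLOG `x ≥ 0` (even). `h(0) = h'(0) = 0` and
`h''(x) = q(q+1)((1-x)^(-q-2) + (1+x)^(-q-2) - 2) ≥ 0` by AM-GM
(`((1-x)(1+x))^(-(q+2)/2) ≥ 1`) or by convexity (`rpow_tangent` at `1`, twice). -/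
theorem pair2 {q A t : ℝ} (hq : 0 < q) (ht : |t| < A) :
    2 * A ^ (-q) + q * (q + 1) * A ^ (-(q + 2)) * t ^ 2
      ≤ (A - t) ^ (-q) + (A + t) ^ (-q) := by
  rcases le_total 0 t with h | h
  · exact PairAux.second hq h (lt_of_le_of_lt (le_abs_self t) ht)
  · have h1 := PairAux.second (q := q) (A := A) (x := -t) hq (by linarith)
      (lt_of_le_of_lt (neg_le_abs t) ht)
    rw [show A - -t = A + t by ring, show A + -t = A - t by ring, neg_sq] at h1
    linarith

end Pool.Agent.RieszFive
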