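import Pool.Agent.RieszFive.Pair

set_option autoImplicit false

namespace Pool.Agent.RieszFive

open Real

namespace Pair4Aux

lemma hd_sub {q x : ℝ} (hx : x < 1) :
    HasDerivAt (fun y : ℝ => (1 - y) ^ (-q)) (q * (1 - x) ^ (-(q + 1))) x := by
  have h1 : HasDerivAt (fun y : ℝ => 1 - y) (-1) x := by
    simpa using (hasDerivAt_id x).const_sub 1
  have h2 := h1.rpow_const (p := -q) (Or.inl (sub_ne_zero.2 hx.ne'))
  have e : -q - 1 = -(q + 1) := by ring
  rw [e] at h2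
  convert h2 using 1
  ring

lemma hd_add {q x : ℝ} (hx : -1 < x) :
    HasDerivAt (fun y : ℝ => (1 + y) ^ (-q)) (-(q * (1 + x) ^ (-(q + 1)))) x := by
  have h1 : HasDerivAt (fun y : ℝ => 1 + y) (1) x := by
    simpa using (hasDerivAt_id x).const_add 1
  have h2 := h1.rpow_const (p := -q) (Or.inl (ne_of_gt (by linarith : (0 : ℝ) < 1 + x)))
  have e : -q - 1 = -(q + 1) := by ring
  rw [e] at h2
  convert h2 using 1
  ring

/-- The function. -/
noncomputable def f (q x : ℝ) : ℝ :=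
  (1 - x) ^ (-q) + (1 + x) ^ (-q) - 2 - q * (q + 1) * x ^ 2
    - q * (q + 1) * (q + 2) * (q + 3) / 12 * x ^ 4

/-- Its first derivative. -/
noncomputable def f1 (q x : ℝ) : ℝ :=
  q * (1 - x) ^ (-(q + 1)) + -(q * (1 + x) ^ (-(q + 1))) - q * (q + 1) * (2 * x)
    - q * (q + 1) * (q + 2) * (q + 3) / 12 * (4 * x ^ 3)

/-- Its second derivative. -/
noncomputable def f2 (q x : ℝ) : ℝ :=
  q * ((q + 1) * (1 - x) ^ (-(q + 1 + 1))) + -(q * (-((q + 1) * (1 + x) ^ (-(q + 1 + 1)))))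
    - q * (q + 1) * 2 - q * (q + 1) * (q + 2) * (q + 3) / 12 * (4 * (3 * x ^ 2))

lemma hd_f {q x : ℝ} (h0 : -1 < x) (h1 : x < 1) : HasDerivAt (f q) (f1 q x) x := by
  unfold f f1
  have p2 : HasDerivAt (fun y : ℝ => y ^ 2) (2 * x) x := by
    simpa using hasDerivAt_pow 2 x
  have p4 : HasDerivAt (fun y : ℝ => y ^ 4) (4 * x ^ 3) x := by
    simpa using hasDerivAt_pow 4 x
  exact ((((hd_sub h1).add (hd_add h0)).sub_const 2).sub (p2.const_mul _)).sub (p4.const_mul _)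

lemma hd_f1 {q x : ℝ} (h0 : -1 < x) (h1 : x < 1) : HasDerivAt (f1 q) (f2 q x) x := by
  unfold f1 f2
  have p1 : HasDerivAt (fun y : ℝ => 2 * y) 2 x := by
    simpa using (hasDerivAt_id x).const_mul 2
  have p3 : HasDerivAt (fun y : ℝ => 4 * y ^ 3) (4 * (3 * x ^ 2)) x := by
    simpa using (hasDerivAt_pow 3 x).const_mul 4
  exact ((((hd_sub (q := q + 1) h1).const_mul q).add
    ((hd_add (q := q + 1) h0).const_mul q).neg).sub (p1.const_mul _)).sub (p3.const_mul _)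

lemma f2_nonneg {q x : ℝ} (hq : 0 < q) (h0 : 0 ≤ x) (h1 : x < 1) : 0 ≤ f2 q x := by
  have h := pair2 (q := q + 2) (A := 1) (t := x) (by linarith) (by rw [abs_of_nonneg h0]; exact h1)
  rw [Real.one_rpow, Real.one_rpow] at h
  have e : q + 1 + 1 = q + 2 := by ring
  unfold f2
  rw [e]
  have hh : 0 ≤ q * (q + 1) * ((1 - x) ^ (-(q + 2)) + (1 + x) ^ (-(q + 2))
      - (2 * 1 + (q + 2) * (q + 2 + 1) * 1 * x ^ 2)) :=
    mul_nonneg (by positivity) (sub_nonneg.2 h)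
  have : q * (q + 1) * ((1 - x) ^ (-(q + 2)) + (1 + x) ^ (-(q + 2))
      - (2 * 1 + (q + 2) * (q + 2 + 1) * 1 * x ^ 2)) =
      q * ((q + 1) * (1 - x) ^ (-(q + 2))) + -(q * (-((q + 1) * (1 + x) ^ (-(q + 2)))))
    - q * (q + 1) * 2 - q * (q + 1) * (q + 2) * (q + 3) / 12 * (4 * (3 * x ^ 2)) := by ring
  linarith [this, hh]

lemma f1_nonneg {q x : ℝ} (hq : 0 < q) (h0 : 0 ≤ x) (h1 : x < 1) : 0 ≤ f1 q x := by
  have hm : MonotoneOn (f1 q) (Set.Ico 0 1) := by
    apply monotoneOn_of_deriv_nonneg (convex_Ico 0 1)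
    · intro y hy
      exact (hd_f1 (by linarith [hy.1]) hy.2).continuousAt.continuousWithinAt
    · intro y hy
      rw [interior_Ico] at hy
      exact (hd_f1 (by linarith [hy.1]) hy.2).differentiableAt.differentiableWithinAt
    · intro y hy
      rw [interior_Ico] at hy
      rw [(hd_f1 (by linarith [hy.1]) hy.2).deriv]
      exact f2_nonneg hq hy.1.le hy.2
  have h := hm (show (0 : ℝ) ∈ Set.Ico (0 : ℝ) 1 from ⟨le_refl _, one_pos⟩) ⟨h0, h1⟩ h0
  have e : f1 q 0 = 0 := by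
    unfold f1
    simp
  rwa [e] at h

lemma f_nonneg {q x : ℝ} (hq : 0 < q) (h0 : 0 ≤ x) (h1 : x < 1) : 0 ≤ f q x := by
  have hm : MonotoneOn (f q) (Set.Ico 0 1) := by
    apply monotoneOn_of_deriv_nonneg (convex_Ico 0 1)
    · intro y hy
      exact (hd_f (by linarith [hy.1]) hy.2).continuousAt.continuousWithinAt
    · intro y hy
      rw [interior_Ico] at hy
      exact (hd_f (by linarith [hy.1]) hy.2).differentiableAt.differentiableWithinAt
    · intro y hy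
      rw [interior_Ico] at hy
      rw [(hd_f (by linarith [hy.1]) hy.2).deriv]
      exact f1_nonneg hq hy.1.le hy.2
  have h := hm (show (0 : ℝ) ∈ Set.Ico (0 : ℝ) 1 from ⟨le_refl _, one_pos⟩) ⟨h0, h1⟩ h0
  have e : f q 0 = 0 := by
    unfold f
    norm_num
  rwa [e] at h

lemma f_nonneg' {q x : ℝ} (hq : 0 < q) (h : |x| < 1) : 0 ≤ f q x := by
  rcases le_total 0 x with h0 | h0
  · rw [abs_of_nonneg h0] at h
    exact f_nonneg hq h0 h
  · rw [abs_of_nonpos h0] at h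
    have := f_nonneg hq (neg_nonneg.2 h0) h
    have e : f q (-x) = f q x := by
      unfold f
      rw [sub_neg_eq_add, ← sub_eq_add_neg]
      ring
    rwa [e] at this

end Pair4Aux

/-- Same proof as `pair2`, one step further: with `x = t/A ≥ 0`,
`h(x) = (1-x)^(-q) + (1+x)^(-q) - 2 - q(q+1)x² - q(q+1)(q+2)(q+3)/12 x⁴`,
`h(0) = h'(0) = 0`, `h''(x) = q(q+1)((1-x)^(-(q+2)) + (1+x)^(-(q+2)) - 2 - (q+2)(q+3)x²) ≥ 0` by
`pair2` with exponent `q+2`, `A = 1`. -/
theorem pair4 {q A t : ℝ} (hq : 0 < q) (ht : |t| < A) :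
    2 * A ^ (-q) + q * (q + 1) * A ^ (-(q + 2)) * t ^ 2
      + q * (q + 1) * (q + 2) * (q + 3) / 12 * A ^ (-(q + 4)) * t ^ 4
      ≤ (A - t) ^ (-q) + (A + t) ^ (-q) := by
  have hA : 0 < A := lt_of_le_of_lt (abs_nonneg t) ht
  have hx : |t / A| < 1 := by
    rw [abs_div, abs_of_pos hA]
    exact (div_lt_one hA).2 ht
  have hx' := abs_lt.1 hx
  have hf := Pair4Aux.f_nonneg' hq hx
  have hAq : 0 < A ^ (-q) := Real.rpow_pos_of_pos hA _
  have e1 : (A - t) ^ (-q) = A ^ (-q) * (1 - t / A) ^ (-q) := by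
    rw [← Real.mul_rpow hA.le (by linarith)]
    congr 1
    field_simp
  have e2 : (A + t) ^ (-q) = A ^ (-q) * (1 + t / A) ^ (-q) := by
    rw [← Real.mul_rpow hA.le (by linarith)]
    congr 1
    field_simp
  have e3 : A ^ (-(q + 2)) * t ^ 2 = A ^ (-q) * (t / A) ^ 2 := by
    have : -(q + 2) = -q - (2 : ℕ) := by push_cast; ring
    rw [this, Real.rpow_sub_natCast hA.ne']
    field_simp
  have e4 : A ^ (-(q + 4)) * t ^ 4 = A ^ (-q) * (t / A) ^ 4 := by
    have : -(q + 4) = -q - (4 : ℕ) := by push_cast; ring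
    rw [this, Real.rpow_sub_natCast hA.ne']
    field_simp
  have hp := mul_nonneg hAq.le hf
  unfold Pair4Aux.f at hp
  rw [e1, e2, mul_assoc (q * (q + 1)), e3, mul_assoc (q * (q + 1) * (q + 2) * (q + 3) / 12), e4]
  nlinarith [hp]

end Pool.Agent.RieszFive
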