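import Pool.Agent.RieszFive.Defs

set_option autoImplicit false

namespace Pool.Agent.RieszFive

open Real

namespace SymProdAux

/-- the auxiliary function `G` -/
noncomputable def G (q w τ : ℝ) : ℝ :=
  (q + 1) * (log (1 + w * exp τ) - log (1 + w * exp (-τ))) - 2 * τ

theorem hasDeriv_G {q w : ℝ} (hw : 0 < w) (τ : ℝ) : HasDerivAt (G q w)
    ((q + 1) * (w * exp τ / (1 + w * exp τ) - -(w * exp (-τ)) / (1 + w * exp (-τ))) - 2) τ := by
  have hp : 0 < 1 + w * exp τ := by positivity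
  have hm : 0 < 1 + w * exp (-τ) := by positivity
  have h1 : HasDerivAt (fun τ => 1 + w * exp τ) (w * exp τ) τ :=
    ((Real.hasDerivAt_exp τ).const_mul w).const_add 1
  have h2 : HasDerivAt (fun τ => 1 + w * exp (-τ)) (-(w * exp (-τ))) τ := by
    have h3 : HasDerivAt (fun τ : ℝ => exp (-τ)) (exp (-τ) * (-1)) τ :=
      (hasDerivAt_neg τ).exp
    have h4 := (h3.const_mul w).const_add 1
    have h5 : w * (exp (-τ) * (-1)) = -(w * exp (-τ)) := by ring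
    rwa [h5] at h4
  have h3 := ((h1.log hp.ne').sub (h2.log hm.ne')).const_mul (q + 1)
  have h4 : HasDerivAt (fun τ : ℝ => 2 * τ) 2 τ := by
    simpa using (hasDerivAt_id τ).const_mul (2 : ℝ)
  exact h3.sub h4

theorem deriv_G_nonneg {q w : ℝ} (hq : 0 < q) (hw : 0 < w) (hw1 : w ≤ 1) (hqw : 1 ≤ q * w)
    (τ : ℝ) :
    0 ≤ (q + 1) * (w * exp τ / (1 + w * exp τ) - -(w * exp (-τ)) / (1 + w * exp (-τ))) - 2 := by
  set x := exp τ with hx
  set y := exp (-τ) with hy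
  have hx0 : 0 < x := exp_pos _
  have hy0 : 0 < y := exp_pos _
  have hxy : x * y = 1 := by rw [hx, hy, ← exp_add]; simp
  have hs : 2 ≤ x + y := by nlinarith [sq_nonneg (x - y)]
  have hp : 0 < 1 + w * x := by positivity
  have hm : 0 < 1 + w * y := by positivity
  have h1 : 2 * w / (1 + w) ≤ w * x / (1 + w * x) - -(w * y) / (1 + w * y) := by
    have e1 : w * x / (1 + w * x) - -(w * y) / (1 + w * y) =
        (w * (x + y) + 2 * w ^ 2) / ((1 + w * x) * (1 + w * y)) := by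
      field_simp
      nlinarith [hxy]
    rw [e1, div_le_div_iff₀ (by positivity) (by positivity)]
    have e2 : (1 + w * x) * (1 + w * y) = 1 + w * (x + y) + w ^ 2 := by
      nlinarith [hxy]
    rw [e2]
    nlinarith [mul_nonneg (sub_nonneg.2 hw1) (mul_nonneg hw.le (sub_nonneg.2 hs))]
  have h2 : (q + 1) * (2 * w / (1 + w)) ≤
      (q + 1) * (w * x / (1 + w * x) - -(w * y) / (1 + w * y)) :=
    mul_le_mul_of_nonneg_left h1 (by linarith)
  have h3 : 2 ≤ (q + 1) * (2 * w / (1 + w)) := by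
    rw [← mul_div_assoc, le_div_iff₀ (by positivity)]
    nlinarith
  linarith

theorem G_nonneg {q w : ℝ} (hq : 0 < q) (hw : 0 < w) (hw1 : w ≤ 1) (hqw : 1 ≤ q * w)
    {τ : ℝ} (hτ : 0 ≤ τ) : 0 ≤ G q w τ := by
  have hmono : Monotone (G q w) := monotone_of_deriv_nonneg
    (fun τ => (hasDeriv_G hw τ).differentiableAt)
    (fun τ => by rw [(hasDeriv_G hw τ).deriv]; exact deriv_G_nonneg hq hw hw1 hqw τ)
  have h0 : G q w 0 = 0 := by unfold G; simp
  rw [← h0]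
  exact hmono hτ

/-- the symmetrised function -/
noncomputable def Phi (q w τ : ℝ) : ℝ := (1 + w * exp τ) ^ (-q) + (1 + w * exp (-τ)) ^ (-q)

theorem hasDeriv_Phi {q w : ℝ} (hw : 0 < w) (τ : ℝ) : HasDerivAt (Phi q w)
    (w * exp τ * (-q) * (1 + w * exp τ) ^ (-q - 1) +
      -(w * exp (-τ)) * (-q) * (1 + w * exp (-τ)) ^ (-q - 1)) τ := by
  have hp : 0 < 1 + w * exp τ := by positivity
  have hm : 0 < 1 + w * exp (-τ) := by positivity
  have h1 : HasDerivAt (fun τ => 1 + w * exp τ) (w * exp τ) τ :=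
    ((Real.hasDerivAt_exp τ).const_mul w).const_add 1
  have h2 : HasDerivAt (fun τ => 1 + w * exp (-τ)) (-(w * exp (-τ))) τ := by
    have h3 : HasDerivAt (fun τ : ℝ => exp (-τ)) (exp (-τ) * (-1)) τ :=
      (hasDerivAt_neg τ).exp
    have h4 := (h3.const_mul w).const_add 1
    have h5 : w * (exp (-τ) * (-1)) = -(w * exp (-τ)) := by ring
    rwa [h5] at h4
  exact (h1.rpow_const (p := -q) (Or.inl hp.ne')).add (h2.rpow_const (p := -q) (Or.inl hm.ne'))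

theorem deriv_Phi_nonneg {q w : ℝ} (hq : 0 < q) (hw : 0 < w) (hw1 : w ≤ 1) (hqw : 1 ≤ q * w)
    {τ : ℝ} (hτ : 0 ≤ τ) : 0 ≤ w * exp τ * (-q) * (1 + w * exp τ) ^ (-q - 1) +
      -(w * exp (-τ)) * (-q) * (1 + w * exp (-τ)) ^ (-q - 1) := by
  have hp : 0 < 1 + w * exp τ := by positivity
  have hm : 0 < 1 + w * exp (-τ) := by positivity
  have hG := G_nonneg hq hw hw1 hqw hτ
  unfold G at hG
  have h1 : exp τ * (1 + w * exp τ) ^ (-q - 1) ≤ exp (-τ) * (1 + w * exp (-τ)) ^ (-q - 1) := by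
    rw [Real.rpow_def_of_pos hp, Real.rpow_def_of_pos hm, ← exp_add, ← exp_add, exp_le_exp]
    nlinarith
  have h2 : 0 < q * w := by positivity
  nlinarith [mul_le_mul_of_nonneg_left h1 h2.le]

theorem Phi_ge {q w : ℝ} (hq : 0 < q) (hw : 0 < w) (hw1 : w ≤ 1) (hqw : 1 ≤ q * w)
    {τ : ℝ} (hτ : 0 ≤ τ) : 2 * (1 + w) ^ (-q) ≤ Phi q w τ := by
  have hmono : MonotoneOn (Phi q w) (Set.Ici 0) := by
    apply monotoneOn_of_deriv_nonneg (convex_Ici 0)
    · intro τ _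
      exact (hasDeriv_Phi hw τ).continuousAt.continuousWithinAt
    · intro τ _
      exact (hasDeriv_Phi hw τ).differentiableAt.differentiableWithinAt
    · intro τ hτ
      rw [interior_Ici] at hτ
      rw [(hasDeriv_Phi hw τ).deriv]
      exact deriv_Phi_nonneg hq hw hw1 hqw (le_of_lt hτ)
  have h0 : Phi q w 0 = 2 * (1 + w) ^ (-q) := by
    unfold Phi
    simp
    ring
  rw [← h0]
  exact hmono Set.self_mem_Ici hτ hτ

theorem pair_le {q a b w : ℝ} (hq : 0 < q) (hw : 0 < w)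
    (hw1 : w ≤ 1) (hab : a * b = w ^ 2) (hqw : 1 ≤ q * w) (hwb : w ≤ b) :
    2 * (1 + w) ^ (-q) ≤ (1 + a) ^ (-q) + (1 + b) ^ (-q) := by
  have hb : 0 < b := hw.trans_le hwb
  have hτ : 0 ≤ log (b / w) := log_nonneg (by rw [le_div_iff₀ hw]; linarith)
  have h := Phi_ge hq hw hw1 hqw hτ
  unfold Phi at h
  rw [exp_neg, exp_log (by positivity)] at h
  have e1 : w * (b / w) = b := by field_simp
  have e2 : w * (b / w)⁻¹ = a := by
    field_simp
    nlinarith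
  rw [e1, e2] at h
  linarith

end SymProdAux

/-- `(1+a)^(-q) + (1+b)^(-q) ≥ 2(1+w)^(-q)` for `ab = w²`, `q w ≥ 1`, `w ≤ 1`.
Let `b = w t`, `a = w/t`, `t ≥ 1`, `F(t) = (1+wt)^(-q) + (1+w/t)^(-q)`.
`F' ≥ 0` iff `(q+1) (log(1+wt) - log(1+w/t)) ≥ 2 log t`; put `t = e^τ`,
`G(τ) = (q+1)(log(1+we^τ) - log(1+we^(-τ))) - 2τ`, `G(0) = 0` and
`G' = (q+1)(2w²+C)/(1+w²+C) - 2` with `C = w(t+1/t) ≥ 2w`, which is
`≥ (q+1) 2w/(1+w) - 2 ≥ 0`. -/
theorem pair_prod {q a b w : ℝ} (hq : 0 < q) (ha : 0 < a) (hb : 0 < b) (hw : 0 < w)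
    (hw1 : w ≤ 1) (hab : a * b = w ^ 2) (hqw : 1 ≤ q * w) :
    2 * (1 + w) ^ (-q) ≤ (1 + a) ^ (-q) + (1 + b) ^ (-q) := by
  rcases le_total w b with h | h
  · exact SymProdAux.pair_le hq hw hw1 hab hqw h
  · have h1 : w ≤ a := by
      by_contra hc
      push Not at hc
      nlinarith
    have h2 := SymProdAux.pair_le (a := b) (b := a) hq hw hw1 (by linarith) hqw h1
    linarith

/-- AM-GM and `(1-a²)(1-b²) < (1-w²)²` for `ab = w²`, `a ≠ b`. -/
theorem pair_prod2 {q a b w : ℝ} (hq : 0 < q) (ha : 0 < a) (hb : 0 < b) (ha1 : a < 1)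
    (hb1 : b < 1) (hw : 0 < w) (hab : a * b = w ^ 2) (hne : a ≠ b) :
    2 * (2 - 2 * w ^ 2) ^ (-q) < (2 - 2 * a ^ 2) ^ (-q) + (2 - 2 * b ^ 2) ^ (-q) := by
  have hA : 0 < 2 - 2 * a ^ 2 := by nlinarith
  have hB : 0 < 2 - 2 * b ^ 2 := by nlinarith
  have hW : 0 < 2 - 2 * w ^ 2 := by nlinarith
  have hsq : ∀ x : ℝ, 0 < x → x ^ (-q) = (x ^ (-q / 2)) ^ 2 := by
    intro x hx
    rw [← Real.rpow_natCast, ← Real.rpow_mul hx.le]
    congr 1
    push_cast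
    ring
  have h1 : (2 - 2 * a ^ 2) * (2 - 2 * b ^ 2) < (2 - 2 * w ^ 2) ^ 2 := by
    rw [← hab]
    have : 0 < (a - b) ^ 2 := by
      have := sub_ne_zero.2 hne
      positivity
    nlinarith
  have h2 : ((2 - 2 * w ^ 2) ^ 2) ^ (-q / 2) <
      ((2 - 2 * a ^ 2) * (2 - 2 * b ^ 2)) ^ (-q / 2) :=
    Real.rpow_lt_rpow_of_neg (by positivity) h1 (by linarith)
  have h3 : ((2 - 2 * w ^ 2) ^ 2) ^ (-q / 2) = (2 - 2 * w ^ 2) ^ (-q) := by
    rw [← Real.rpow_natCast, ← Real.rpow_mul hW.le]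
    congr 1
    push_cast
    ring
  rw [h3, Real.mul_rpow hA.le hB.le] at h2
  rw [hsq _ hA, hsq _ hB]
  nlinarith [sq_nonneg ((2 - 2 * a ^ 2) ^ (-q / 2) - (2 - 2 * b ^ 2) ^ (-q / 2))]

theorem sym_prod {q a b w : ℝ} (hq : 0 < q) (ha : 0 < a) (hb : 0 < b) (ha1 : a < 1)
    (hb1 : b < 1) (hw : 0 < w) (hab : a * b = w ^ 2) (hne : a ≠ b) (hqw : 1 ≤ q * w) :
    ph q w < ee q a b := by
  have hw1 : w ≤ 1 := by nlinarith
  have h1 := pair_prod hq ha hb hw hw1 hab hqw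
  have h2 := pair_prod2 hq ha hb ha1 hb1 hw hab hne
  have h3 : 1 - a * b = 1 - w * w := by rw [hab]; ring
  unfold ph ee
  rw [h3]
  linarith

end Pool.Agent.RieszFive
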