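import Pool.Agent.RieszFive.Cell
import Pool.Agent.RieszFive.MonoZone
import Pool.Agent.RieszFive.Chk

/-!
# Table B (part III6 of the paper proof)

For `q` in the slab `[a1/64, a2/64]` and `z2` in the cell `[Za/10^4, Zb/10^4]` the energy is at
least the certificate of `cell_lower` at `(Za, Zb, a2)`.
-/

set_option autoImplicit false
set_option linter.unusedSimpArgs false

namespace Pool.Agent.RieszFive

open Real

/-- a cell of table B -/
structure CB where
  Za : ℕ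
  Zb : ℕ
  A : ℕ
  L1 : ℕ
  L2 : ℕ
  L3 : ℕ
  L4 : ℕ

/-- a slab of table B -/
structure SB where
  a1 : ℕ
  a2 : ℕ
  ZB : ℕ
  ZT : ℕ
  L5 : ℕ
  H12 : ℕ
  H3 : ℕ
  ua : ℕ
  ub : ℕ
  uZ : ℕ
  t1 : ℕ
  t2 : ℕ
  t3 : ℕ
  cells : List CB

/-- the check of a cell -/
def CB.ok (a2 L5 U : ℕ) (c : CB) : Bool :=
  Nat.ble 1 c.Za && Nat.ble c.Za c.Zb && Nat.ble c.Zb 5000 && Nat.ble 1 c.A &&
    loB (10 ^ 4) (10 ^ 8) c.A (a2 + 64) 64 (2 * c.Za) &&
    loB c.L1 ((10 ^ 4 + c.Za) * 10 ^ 8) (10 ^ 12 + c.A * c.Za) a2 64 (10 ^ 8) &&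
    loB c.L2 c.A (10 ^ 8) a2 64 (10 ^ 8) &&
    loB c.L3 (2 * 10 ^ 8 - 2 * c.Zb ^ 2) (10 ^ 8) a2 64 (10 ^ 8) &&
    loB c.L4 (10 ^ 4 + c.Zb) (10 ^ 4) a2 64 (10 ^ 8) &&
    Nat.ble (a2 * (10 ^ 12 + c.Za * c.A)) ((a2 + 64) * (2 * 10 ^ 8 + c.L2) * 5000) &&
    Nat.ble (U * 10 ^ 12 * 64 + 4 * c.L1 * (a2 * (10 ^ 12 + c.Za * c.A)) + 1)
      (4 * c.L1 * ((a2 + 64) * (2 * 10 ^ 8 + c.L2) * 5000) +
        (c.L3 + 2 * c.L4 + L5) * 10 ^ 12 * 64)

/-- the check of a slab -/
def SB.ok (s : SB) : Bool :=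
  Nat.ble 128 s.a1 && Nat.ble s.a1 s.a2 && Nat.ble (s.ZB + 1) s.ZT && Nat.ble (s.ZB + 1) 4500 &&
    (Nat.beq s.ZT 5000 || (Nat.beq s.ZT 4500 && Nat.ble s.a2 506)) &&
    uB s.ua s.ub s.uZ s.t1 s.t2 s.t3 &&
    (Nat.ble (s.ua * 64) (s.a1 * s.ub) || (Nat.beq s.ua 7705 && Nat.beq s.ub 1024)) &&
    loB s.L5 2 1 s.a2 64 (10 ^ 8) &&
    hiB s.H12 ((s.a1 ^ 2 - 64 ^ 2) * s.ZB) (s.a1 ^ 2 * s.ZB + 64 ^ 2 * 10 ^ 4) (s.a2 + 64) 64
      (10 ^ 6) &&
    hiB s.H3 (2 * (s.a1 - 64)) s.a1 (s.a1 + 64) 64 (10 ^ 6) &&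
    Nat.ble (2 * s.ZB * s.H12 * s.a1 + 2 * 64 * s.H3 * 10 ^ 4) (10 ^ 10 * s.a1) &&
    Nat.ble (64 * 10 ^ 4) (s.a1 * s.ZB) &&
    chainB CB.Za CB.Zb s.ZB s.ZT s.cells &&
    s.cells.all (CB.ok s.a2 s.L5 (2 * s.t1 + 4 * s.t2 + 4 * s.t3))

/-- table B -/
def tabB : List SB := [
  { a1 := 481, a2 := 484, ZB := 2216, ZT := 4500, L5 := 529006, H12 := 2250305, H3 := 9217, ua := 7705, ub := 1024, uZ := 1391,
    t1 := 629179, t2 := 37532303, t3 := 115837178,
    cells := [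
      ⟨2216, 2226, 109969697, 114516312, 48738563, 776914, 21873173⟩,
      ⟨2226, 2236, 109911886, 114483562, 48932765, 779678, 21738347⟩,
      ⟨2236, 2247, 109854364, 114450520, 49126866, 782745, 21591124⟩,
      ⟨2247, 2259, 109791421, 114413840, 49340259, 786124, 21431803⟩,
      ⟨2259, 2271, 109723147, 114373429, 49572913, 789538, 21273812⟩,
      ⟨2271, 2284, 109655277, 114332611, 49805422, 793276, 21104142⟩,
      ⟨2284, 2298, 109582202, 114287936, 50057144, 797348, 20923131⟩,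
      ⟨2298, 2313, 109504023, 114239301, 50328044, 801765, 20731138⟩,
      ⟨2313, 2328, 109420849, 114186600, 50618077, 806239, 20541138⟩,
      ⟨2328, 2344, 109338274, 114133291, 50907894, 811074, 20340642⟩,
      ⟨2344, 2361, 109250847, 114075771, 51216789, 816284, 20130038⟩,
      ⟨2361, 2380, 109158683, 114013921, 51544722, 822197, 19897573⟩,
      ⟨2380, 2400, 109056549, 113943915, 51910909, 828526, 19656152⟩,
      ⟨2400, 2421, 108950018, 113869237, 52296002, 835288, 19406222⟩,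
      ⟨2421, 2444, 108839223, 113789758, 52699945, 842835, 19136608⟩,
      ⟨2444, 2468, 108719101, 113701478, 53141889, 850869, 18859785⟩,
      ⟨2468, 2494, 108595094, 113608016, 53602533, 859762, 18564997⟩,
      ⟨2494, 2522, 108462265, 113505255, 54100971, 869562, 18253352⟩,
      ⟨2522, 2552, 108320936, 113392870, 54637075, 880327, 17926002⟩,
      ⟨2552, 2584, 108171444, 113270535, 55210700, 892119, 17584134⟩,
      ⟨2584, 2618, 108014134, 113137913, 55821699, 905010, 17228964⟩,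
      ⟨2618, 2655, 107849359, 112994663, 56469915, 919475, 16851652⟩,
      ⟨2655, 2695, 107672738, 112836121, 57174215, 935643, 16454233⟩,
      ⟨2695, 2738, 107484862, 112661725, 57934334, 953662, 16038798⟩,
      ⟨2738, 2784, 107286338, 112470905, 58749991, 973701, 15607473⟩,
      ⟨2784, 2834, 107077782, 112263091, 59620901, 996418, 15153470⟩,
      ⟨2834, 2888, 106855411, 112033079, 60565641, 1022103, 14679861⟩,
      ⟨2888, 2947, 106620120, 111780071, 61583773, 1051608, 14181455⟩,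
      ⟨2947, 3011, 106368595, 111498464, 62693640, 1085419, 13662353⟩,
      ⟨3011, 3080, 106102035, 111187230, 63894638, 1124118, 13126650⟩,
      ⟨3080, 3154, 105821648, 110845387, 65186128, 1168407, 12578391⟩,
      ⟨3154, 3234, 105528635, 110472007, 66567454, 1219792, 12014641⟩,
      ⟨3234, 3320, 105220378, 110061061, 68056533, 1279456, 11440283⟩,
      ⟨3320, 3412, 104898360, 109611533, 69652501, 1348859, 10860006⟩,
      ⟨3412, 3509, 104564029, 109122528, 71354487, 1428947, 10283999⟩,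
      ⟨3509, 3611, 104222261, 108598752, 73143171, 1521707, 9715308⟩,
      ⟨3611, 3717, 103874073, 108039860, 75017846, 1628546, 9161735⟩,
      ⟨3717, 3825, 103523681, 107451254, 76959497, 1749800, 8634155⟩,
      ⟨3825, 3933, 103177973, 106844389, 78931140, 1885307, 8140712⟩,
      ⟨3933, 4038, 102842998, 106231272, 80896292, 2032651, 7691377⟩,
      ⟨4038, 4138, 102527034, 105630045, 82800821, 2189299, 7289385⟩,
      ⟨4138, 4231, 102234532, 105053441, 84609289, 2351229, 6936767⟩,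
      ⟨4231, 4313, 101969505, 104514240, 86286583, 2508667, 6641815⟩,
      ⟨4313, 4384, 101741166, 104036820, 87761922, 2657377, 6397863⟩,
      ⟨4384, 4443, 101547341, 103622175, 89036698, 2790589, 6202843⟩,
      ⟨4443, 4490, 101388923, 103276850, 90094186, 2903501, 6052298⟩,
      ⟨4490, 4500, 101264398, 103001338, 90935416, 2928345, 6020803⟩] },
  { a1 := 484, a2 := 487, ZB := 2248, ZT := 4500, L5 := 512094, H12 := 2218312, H3 := 8910, ua := 484, ub := 64, uZ := 1388,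
    t1 := 612848, t2 := 37421061, t3 := 115848906,
    cells := [
      ⟨2248, 2258, 109729925, 114418377, 49334567, 762587, 21241343⟩,
      ⟨2258, 2269, 109673368, 114384702, 49528489, 765639, 21096856⟩,
      ⟨2269, 2281, 109611479, 114347334, 49741681, 769001, 20940501⟩,
      ⟨2281, 2293, 109544343, 114306178, 49974123, 772398, 20785456⟩,
      ⟨2293, 2306, 109477601, 114264624, 50206420, 776117, 20618954⟩,
      ⟨2306, 2320, 109405735, 114219159, 50457918, 780168, 20441329⟩,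
      ⟨2320, 2335, 109328845, 114169685, 50728577, 784563, 20252936⟩,
      ⟨2335, 2351, 109247035, 114116093, 51018360, 789314, 20054145⟩,
      ⟨2351, 2368, 109160416, 114058274, 51327221, 794432, 19845345⟩,
      ⟨2368, 2386, 109069101, 113996112, 51655119, 799934, 19626940⟩,
      ⟨2386, 2405, 108973208, 113929485, 52002010, 805834, 19399345⟩,
      ⟨2405, 2426, 108872861, 113858273, 52367838, 812468, 19151261⟩,
      ⟨2426, 2448, 108762974, 113778525, 52771789, 819546, 18895206⟩,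
      ⟨2448, 2472, 108648988, 113693833, 53194539, 827422, 18620280⟩,
      ⟨2472, 2498, 108525936, 113600131, 53655218, 836139, 18327539⟩,
      ⟨2498, 2526, 108394126, 113497111, 54153700, 845747, 18018088⟩,
      ⟨2526, 2556, 108253879, 113384455, 54689851, 856301, 17693075⟩,
      ⟨2556, 2588, 108105526, 113261832, 55263537, 867864, 17353685⟩,
      ⟨2588, 2623, 107949410, 113128906, 55874607, 880882, 16990884⟩,
      ⟨2623, 2661, 107781106, 112981080, 56541962, 895471, 16606667⟩,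
      ⟨2661, 2702, 107601192, 112817795, 57265345, 911761, 16203102⟩,
      ⟨2702, 2746, 107410262, 112638477, 58044496, 929903, 15782302⟩,
      ⟨2746, 2794, 107208925, 112442550, 58879136, 950508, 15337288⟩,
      ⟨2794, 2846, 106993352, 112224869, 59787879, 973835, 14871135⟩,
      ⟨2846, 2903, 106764431, 111984615, 60770305, 1000669, 14378479⟩,
      ⟨2903, 2965, 106518801, 111716227, 61844806, 1031445, 13863458⟩,
      ⟨2965, 3033, 106257663, 111418646, 63010786, 1067228, 13322448⟩,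
      ⟨3033, 3107, 105978172, 111085907, 64286350, 1108754, 12760665⟩,
      ⟨3107, 3187, 105681858, 110716749, 65670700, 1156923, 12183273⟩,
      ⟨3187, 3274, 105370253, 110309990, 67162993, 1213516, 11588656⟩,
      ⟨3274, 3369, 105041142, 109859323, 68780931, 1280819, 10976553⟩,
      ⟨3369, 3471, 104692736, 109358199, 70541957, 1360188, 10359722⟩,
      ⟨3471, 3580, 104330661, 108810710, 72426333, 1454132, 9743518⟩,
      ⟨3580, 3695, 103956635, 108216022, 74432942, 1564838, 9137938⟩,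
      ⟨3695, 3815, 103575557, 107579127, 76542325, 1694890, 8551010⟩,
      ⟨3815, 3938, 103191772, 106905551, 78735310, 1845998, 7993272⟩,
      ⟨3938, 4061, 102812129, 106207004, 80974822, 2018083, 7476342⟩,
      ⟨4061, 4181, 102445497, 105501549, 83206219, 2209594, 7008186⟩,
      ⟨4181, 4295, 102099560, 104807802, 85375642, 2416782, 6593948⟩,
      ⟨4295, 4399, 101781035, 104144664, 87429896, 2630761, 6240076⟩,
      ⟨4399, 4490, 101498575, 103536928, 89298436, 2840499, 5947990⟩,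
      ⟨4490, 4500, 101257471, 103003460, 90929193, 2864955, 5916847⟩] },
  { a1 := 487, a2 := 491, ZB := 2271, ZT := 4500, L5 := 490383, H12 := 2196086, H3 := 8613, ua := 487, ub := 64, uZ := 1384,
    t1 := 593287, t2 := 37293324, t3 := 115854887,
    cells := [
      ⟨2271, 2279, 109527875, 114350885, 49747554, 738316, 20699154⟩,
      ⟨2279, 2288, 109483470, 114323449, 49902558, 740776, 20583129⟩,
      ⟨2288, 2298, 109433721, 114292368, 50076866, 743532, 20455072⟩,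
      ⟨2298, 2308, 109378701, 114257574, 50270444, 746312, 20327916⟩,
      ⟨2308, 2319, 109323947, 114222505, 50463926, 749397, 20189075⟩,
      ⟨2319, 2331, 109264022, 114183615, 50676645, 752797, 20038833⟩,
      ⟨2331, 2343, 109199010, 114140820, 50908570, 756231, 19889853⟩,
      ⟨2343, 2356, 109134370, 114097641, 51140358, 759991, 19729870⟩,
      ⟨2356, 2370, 109064758, 114050436, 51391309, 764088, 19559205⟩,
      ⟨2370, 2385, 108990270, 113999112, 51661382, 768533, 19378199⟩,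
      ⟨2385, 2401, 108911004, 113943565, 51950541, 773337, 19187209⟩,
      ⟨2401, 2419, 108827063, 113883686, 52258751, 778821, 18974885⟩,
      ⟨2419, 2438, 108733373, 113815563, 52605200, 784703, 18753641⟩,
      ⟨2438, 2458, 108635318, 113742797, 52970573, 790998, 18523897⟩,
      ⟨2458, 2480, 108533018, 113665262, 53354825, 798050, 18274846⟩,
      ⟨2480, 2504, 108421555, 113578885, 53777085, 805897, 18007460⟩,
      ⟨2504, 2530, 108301210, 113483382, 54237240, 814583, 17722771⟩,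
      ⟨2530, 2558, 108172280, 113378454, 54735165, 824158, 17421857⟩,
      ⟨2558, 2588, 108035074, 113263789, 55270736, 834678, 17105840⟩,
      ⟨2588, 2621, 107889914, 113139068, 55843813, 846570, 16765683⟩,
      ⟨2621, 2657, 107732390, 112999708, 56473313, 859939, 16403293⟩,
      ⟨2657, 2696, 107563050, 112845174, 57158995, 874904, 16020659⟩,
      ⟨2696, 2739, 107382461, 112674907, 57900615, 892007, 15610428⟩,
      ⟨2739, 2786, 107186697, 112483865, 58716866, 911454, 15175559⟩,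
      ⟨2786, 2837, 106976606, 112271242, 59607357, 933491, 14719100⟩,
      ⟨2837, 2893, 106753061, 112036219, 60571677, 958865, 14235674⟩,
      ⟨2893, 2955, 106512705, 111773248, 61628241, 988479, 13721266⟩,
      ⟨2955, 3023, 106252576, 111476434, 62795264, 1022917, 13181087⟩,
      ⟨3023, 3098, 105974183, 111144458, 64071981, 1063451, 12612988⟩,
      ⟨3098, 3180, 105675119, 110771017, 65476294, 1111079, 12023307⟩,
      ⟨3180, 3270, 105357246, 110354614, 67007201, 1167702, 11411681⟩,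
      ⟨3270, 3369, 105018719, 109888644, 68682233, 1235787, 10779157⟩,
      ⟨3369, 3477, 104658139, 109366258, 70518644, 1317798, 10133907⟩,
      ⟨3477, 3594, 104278017, 108785860, 72514922, 1416944, 9483670⟩,
      ⟨3594, 3720, 103880802, 108146138, 74669508, 1537447, 8835607⟩,
      ⟨3720, 3854, 103468848, 107446118, 76980813, 1683758, 8200737⟩,
      ⟨3854, 3994, 103047476, 106690883, 79428984, 1860173, 7591930⟩,
      ⟨3994, 4137, 102624344, 105891933, 81976313, 2069991, 7022276⟩,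
      ⟨4137, 4280, 102208889, 105067361, 84567623, 2315833, 6500466⟩,
      ⟨4280, 4419, 101809151, 104236011, 87148621, 2596561, 6034891⟩,
      ⟨4419, 4500, 101434621, 103422973, 89647908, 2782565, 5781025⟩] },
  { a1 := 491, a2 := 495, ZB := 2311, ZT := 4500, L5 := 469592, H12 := 2158264, H3 := 8232, ua := 491, ub := 64, uZ := 1378,
    t1 := 568084, t2 := 37142335, t3 := 115844770,
    cells := [
      ⟨2311, 2326, 109237985, 114222157, 50489790, 722026, 19840258⟩,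
      ⟨2326, 2342, 109157100, 114168921, 50779877, 726450, 19642191⟩,
      ⟨2342, 2360, 109071461, 114111472, 51089067, 731502, 19422030⟩,
      ⟨2360, 2379, 108975894, 114046038, 51436614, 736919, 19192656⟩,
      ⟨2379, 2400, 108875894, 113976057, 51803144, 743010, 18942690⟩,
      ⟨2400, 2422, 108766398, 113897641, 52207866, 749511, 18684755⟩,
      ⟨2422, 2446, 108652828, 113814313, 52631424, 756745, 18407886⟩,
      ⟨2446, 2472, 108530237, 113722060, 53092986, 764753, 18113159⟩,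
      ⟨2472, 2501, 108398934, 113620568, 53592427, 773900, 17790694⟩,
      ⟨2501, 2532, 108254284, 113505506, 54148788, 783935, 17453140⟩,
      ⟨2532, 2566, 108101712, 113380403, 54742698, 795255, 17091208⟩,
      ⟨2566, 2604, 107936749, 113240757, 55393134, 808311, 16696690⟩,
      ⟨2604, 2645, 107755238, 113081769, 56118922, 822890, 16282516⟩,
      ⟨2645, 2691, 107562679, 112906900, 56900650, 839883, 15831582⟩,
      ⟨2691, 2742, 107350558, 112706751, 57776062, 859543, 15348040⟩,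
      ⟨2742, 2798, 107120054, 112480171, 58744628, 882175, 14836203⟩,
      ⟨2798, 2860, 106872392, 112225983, 59805781, 908580, 14291880⟩,
      ⟨2860, 2930, 106604558, 111938325, 60977799, 940205, 13704246⟩,
      ⟨2930, 3008, 106309835, 111606145, 62297557, 977878, 13081361⟩,
      ⟨3008, 3095, 105990536, 111227370, 63763898, 1023179, 12424019⟩,
      ⟨3095, 3193, 105645105, 110794966, 65394309, 1078752, 11727832⟩,
      ⟨3193, 3303, 105268729, 110296428, 67224601, 1147507, 10998346⟩,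
      ⟨3303, 3427, 104861307, 109723789, 69271373, 1234150, 10236759⟩,
      ⟨3427, 3566, 104419785, 109063572, 71569308, 1344523, 9452964⟩,
      ⟨3566, 3721, 103945541, 108307361, 74133950, 1487027, 8657788⟩,
      ⟨3721, 3892, 103440420, 107447027, 76980353, 1672869, 7866901⟩,
      ⟨3892, 4079, 102909676, 106480679, 80104883, 1918637, 7093979⟩,
      ⟨4079, 4282, 102358238, 105407560, 83503842, 2249518, 6350436⟩,
      ⟨4282, 4500, 101790645, 104228173, 87173497, 2702544, 5648320⟩] },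
  { a1 := 495, a2 := 500, ZB := 2342, ZT := 4500, L5 := 444839, H12 := 2130044, H3 := 7869, ua := 495, ub := 64, uZ := 1373,
    t1 := 544061, t2 := 36969323, t3 := 115857958,
    cells := [
      ⟨2342, 2358, 108987531, 114124036, 51049752, 695509, 19127347⟩,
      ⟨2358, 2375, 108903360, 114065907, 51358816, 700156, 18923025⟩,
      ⟨2375, 2394, 108814622, 114003416, 51686937, 705431, 18697572⟩,
      ⟨2394, 2415, 108716277, 113932696, 52053347, 711363, 18451905⟩,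
      ⟨2415, 2438, 108608586, 113853478, 52457942, 717985, 18187010⟩,
      ⟨2438, 2463, 108491830, 113765469, 52900608, 725334, 17903934⟩,
      ⟨2463, 2490, 108366303, 113668359, 53381234, 733452, 17603780⟩,
      ⟨2490, 2520, 108232318, 113561828, 53899688, 742699, 17276914⟩,
      ⟨2520, 2553, 108085330, 113441496, 54475000, 753153, 16925243⟩,
      ⟨2553, 2589, 107925877, 113306812, 55106947, 764907, 16550780⟩,
      ⟨2589, 2629, 107754525, 113157197, 55795288, 778409, 16145629⟩,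
      ⟨2629, 2674, 107567219, 112987783, 56558836, 794176, 15703147⟩,
      ⟨2674, 2724, 107360255, 112793345, 57416258, 812445, 15227466⟩,
      ⟨2724, 2780, 107134796, 112572727, 58367030, 833890, 14713896⟩,
      ⟨2780, 2843, 106887689, 112320188, 59429550, 859330, 14159343⟩,
      ⟨2843, 2914, 106616235, 112029567, 60621983, 889778, 13562434⟩,
      ⟨2914, 2994, 106318225, 111694267, 61962254, 926513, 12923611⟩,
      ⟨2994, 3085, 105991977, 111307265, 63467989, 971699, 12237853⟩,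
      ⟨3085, 3189, 105632470, 110856119, 65175224, 1028224, 11503891⟩,
      ⟨3189, 3308, 105235790, 110327543, 67119378, 1100059, 10724296⟩,
      ⟨3308, 3445, 104799199, 109707497, 69335142, 1193569, 9899623⟩,
      ⟨3445, 3602, 104317725, 108975964, 71874905, 1317379, 9041247⟩,
      ⟨3602, 3782, 103791516, 108117666, 74771398, 1485696, 8158739⟩,
      ⟨3782, 3988, 103218775, 107111858, 78074669, 1721478, 7265812⟩,
      ⟨3988, 4224, 102599432, 105938134, 81833292, 2065420, 6375549⟩,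
      ⟨4224, 4500, 101932252, 104571467, 86112356, 2605746, 5486716⟩] },
  { a1 := 500, a2 := 506, ZB := 2381, ZT := 4500, L5 := 416851, H12 := 2095548, H3 := 7437, ua := 500, ub := 64, uZ := 1367,
    t1 := 515474, t2 := 36750794, t3 := 115878568,
    cells := [
      ⟨2381, 2401, 108687110, 113995936, 51756793, 666590, 18243489⟩,
      ⟨2401, 2423, 108585079, 113921152, 52142546, 672555, 17989614⟩,
      ⟨2423, 2447, 108473931, 113837733, 52566459, 679194, 17717188⟩,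
      ⟨2447, 2474, 108353951, 113745376, 53028419, 686831, 17416248⟩,
      ⟨2474, 2504, 108220530, 113639826, 53547509, 695531, 17088605⟩,
      ⟨2504, 2537, 108074170, 113520550, 54123535, 705368, 16736191⟩,
      ⟨2537, 2574, 107915409, 113386983, 54756273, 716742, 16350761⟩,
      ⟨2574, 2615, 107740115, 113234379, 55464602, 729786, 15935296⟩,
      ⟨2615, 2661, 107549113, 113061875, 56248180, 744993, 15483256⟩,
      ⟨2661, 2713, 107338745, 112864248, 57125671, 762946, 14989559⟩,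
      ⟨2713, 2772, 107105754, 112635859, 58115573, 784349, 14450753⟩,
      ⟨2772, 2840, 106847340, 112370635, 59236157, 810463, 13856635⟩,
      ⟨2840, 2918, 106556991, 112057374, 60524362, 842458, 13208768⟩,
      ⟨2918, 3008, 106233318, 111688690, 61997756, 882316, 12503252⟩,
      ⟨3008, 3112, 105871600, 111251792, 63692348, 932690, 11740320⟩,
      ⟨3112, 3233, 105468317, 110732927, 65643474, 997816, 10917896⟩,
      ⟨3233, 3376, 105017569, 110112269, 67904354, 1085130, 10028431⟩,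
      ⟨3376, 3545, 104508461, 109358062, 70564103, 1205345, 9080760⟩,
      ⟨3545, 3746, 103936850, 108442021, 73691219, 1377690, 8082455⟩,
      ⟨3746, 3987, 103295228, 107323916, 77388772, 1638350, 7044741⟩,
      ⟨3987, 4283, 102574609, 105951532, 81792979, 2069328, 5969786⟩,
      ⟨4283, 4500, 101753119, 104232571, 87161712, 2494154, 5298881⟩] },
  { a1 := 506, a2 := 514, ZB := 2419, ZT := 5000, L5 := 382254, H12 := 2062664, H3 := 6951, ua := 506, ub := 64, uZ := 1359,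
    t1 := 483048, t2 := 36514667, t3 := 115879917,
    cells := [
      ⟨2419, 2439, 108371703, 113872129, 52430221, 625557, 17328230⟩,
      ⟨2439, 2461, 108272944, 113795432, 52815535, 631346, 17084048⟩,
      ⟨2461, 2486, 108165343, 113709945, 53238975, 638061, 16811254⟩,
      ⟨2486, 2514, 108044359, 113611407, 53719647, 645759, 16511524⟩,
      ⟨2514, 2546, 107910451, 113499325, 54257365, 654794, 16176309⟩,
      ⟨2546, 2582, 107759426, 113369061, 54871093, 665268, 15808307⟩,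
      ⟨2582, 2623, 107592024, 113219836, 55560513, 677612, 15400613⟩,
      ⟨2623, 2670, 107404500, 113046543, 56344395, 692327, 14947732⟩,
      ⟨2670, 2723, 107193499, 112843684, 57241322, 709681, 14454908⟩,
      ⟨2723, 2785, 106960455, 112609770, 58250658, 731058, 13901438⟩,
      ⟨2785, 2857, 106694150, 112329551, 59428633, 757436, 13288385⟩,
      ⟨2857, 2941, 106393035, 111995740, 60792972, 790482, 12611255⟩,
      ⟨2941, 3040, 106052211, 111595677, 62379902, 832864, 11862516⟩,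
      ⟨3040, 3158, 105664144, 111110674, 64243789, 888781, 11034591⟩,
      ⟨3158, 3299, 105219536, 110515339, 66456647, 964379, 10129284⟩,
      ⟨3299, 3471, 104711860, 109782201, 69088877, 1071823, 9136031⟩,
      ⟨3471, 3683, 104124249, 108860345, 72283046, 1232518, 8059233⟩,
      ⟨3683, 3950, 103442973, 107689874, 76196082, 1492857, 6900624⟩,
      ⟨3950, 4302, 102644437, 106174377, 81089091, 1977773, 5648975⟩,
      ⟨4302, 5000, 101678800, 104128341, 87484427, 3852716, 3852716⟩] },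
  { a1 := 514, a2 := 522, ZB := 2486, ZT := 5000, L5 := 350529, H12 := 2007696, H3 := 6352, ua := 514, ub := 64, uZ := 1349,
    t1 := 443008, t2 := 36192769, t3 := 115893210,
    cells := [
      ⟨2486, 2528, 107930295, 113629914, 53662936, 600698, 15909334⟩,
      ⟨2528, 2577, 107732992, 113461045, 54469795, 613952, 15410779⟩,
      ⟨2577, 2634, 107507350, 113259051, 55409283, 630119, 14852763⟩,
      ⟨2634, 2701, 107250782, 113017640, 56499705, 650210, 14225646⟩,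
      ⟨2701, 2780, 106956963, 112725491, 57778143, 675519, 13524079⟩,
      ⟨2780, 2874, 106620734, 112370104, 59281119, 708108, 12739407⟩,
      ⟨2874, 2988, 106234209, 111932993, 61063413, 751617, 11855524⟩,
      ⟨2988, 3129, 105783840, 111383956, 63216413, 812275, 10856082⟩,
      ⟨3129, 3306, 105252471, 110679315, 65866987, 900974, 9732791⟩,
      ⟨3306, 3534, 104621841, 109760194, 69175951, 1040595, 8473352⟩,
      ⟨3534, 3838, 103862575, 108529467, 73410060, 1285811, 7069206⟩,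
      ⟨3838, 4278, 102930716, 106825803, 79009605, 1822714, 5476387⟩,
      ⟨4278, 5000, 101717823, 104276133, 87029754, 3662314, 3662314⟩] },
  { a1 := 522, a2 := 534, ZB := 2523, ZT := 5000, L5 := 307808, H12 := 1978366, H3 := 5806, ua := 522, ub := 64, uZ := 1339,
    t1 := 406266, t2 := 35881836, t3 := 115900508,
    cells := [
      ⟨2523, 2562, 107594880, 113508068, 54292368, 542371, 14910020⟩,
      ⟨2562, 2608, 107418387, 113348033, 55041176, 554027, 14462163⟩,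
      ⟨2608, 2663, 107214001, 113155027, 55922814, 568618, 13946337⟩,
      ⟨2663, 2729, 106974801, 112918481, 56974771, 587120, 13354347⟩,
      ⟨2729, 2809, 106694879, 112626749, 58234056, 611104, 12674178⟩,
      ⟨2809, 2907, 106365460, 112262328, 59756108, 643013, 11893271⟩,
      ⟨2907, 3030, 105975797, 111800990, 61614321, 687448, 10988351⟩,
      ⟨3030, 3187, 105506819, 111200886, 63937121, 752307, 9943327⟩,
      ⟨3187, 3393, 104937930, 110404829, 66887430, 854049, 8737008⟩,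
      ⟨3393, 3675, 104236847, 109317021, 70735114, 1032852, 7342708⟩,
      ⟨3675, 4091, 103349979, 107764709, 75962222, 1418985, 5718297⟩,
      ⟨4091, 5000, 102170633, 105381487, 83595997, 3394208, 3394208⟩] },
  { a1 := 534, a2 := 550, ZB := 2588, ZT := 5000, L5 := 258835, H12 := 1929056, H3 := 5074, ua := 534, ub := 64, uZ := 1324,
    t1 := 356752, t2 := 35435508, t3 := 115900411,
    cells := [
      ⟨2588, 2644, 107105477, 113273182, 55437785, 482504, 13317729⟩,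
      ⟨2644, 2713, 106866747, 113034306, 56511130, 499302, 12709203⟩,
      ⟨2713, 2800, 106580163, 112731265, 57830388, 522079, 11985725⟩,
      ⟨2800, 2911, 106230080, 112336351, 59488836, 553984, 11128548⟩,
      ⟨2911, 3057, 105800469, 111813435, 61597026, 601448, 10103474⟩,
      ⟨3057, 3256, 105262159, 111096542, 64357275, 678079, 8871920⟩,
      ⟨3256, 3541, 104572478, 110073656, 68097587, 818544, 7389694⟩,
      ⟨3541, 3992, 103661845, 108534785, 73413306, 1150558, 5576291⟩,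
      ⟨3992, 5000, 102374549, 105974042, 81735831, 3067013, 3067013⟩] },
  { a1 := 550, a2 := 574, ZB := 2655, ZT := 5000, L5 := 199589, H12 := 1880938, H3 := 4241, ua := 550, ub := 64, uZ := 1305,
    t1 := 300008, t2 := 34850264, t3 := 115906572,
    cells := [
      ⟨2655, 2728, 106555711, 113033454, 56581074, 399357, 11492969⟩,
      ⟨2728, 2825, 106266176, 112710410, 57978819, 420818, 10736443⟩,
      ⟨2825, 2958, 105894374, 112265695, 59830315, 453720, 9787573⟩,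
      ⟨2958, 3148, 105406806, 111629892, 62358658, 508894, 8589682⟩,
      ⟨3148, 3438, 104750601, 110676040, 65950969, 616726, 7063154⟩,
      ⟨3438, 3943, 103828699, 109136048, 71392601, 908489, 5073469⟩,
      ⟨3943, 5000, 102411013, 106283860, 80761313, 2634398, 2634398⟩] },
  { a1 := 574, a2 := 606, ZB := 2765, ZT := 5000, L5 := 141130, H12 := 1806477, H3 := 3243, ua := 574, ub := 64, uZ := 1278,
    t1 := 231356, t2 := 34005052, t3 := 115915885,
    cells := [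
      ⟨2765, 2934, 105821891, 112598781, 58519494, 330970, 8750432⟩,
      ⟨2934, 3208, 105223898, 111800516, 61745371, 394655, 7175036⟩,
      ⟨3208, 3729, 104330329, 110414226, 66938326, 582533, 4974295⟩,
      ⟨3729, 5000, 102841268, 107550757, 76699002, 2150977, 2150977⟩] },
  { a1 := 606, a2 := 670, ZB := 2812, ZT := 5000, L5 := 70565, H12 := 1776680, H3 := 2271, ua := 606, ub := 64, uZ := 1244,
    t1 := 163591, t2 := 32949083, t3 := 115913956,
    cells := [
      ⟨2812, 3024, 105146403, 112477838, 59134327, 192578, 6291724⟩,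
      ⟨3024, 3476, 104482133, 111447609, 63190784, 271679, 4402083⟩,
      ⟨3476, 5000, 103220748, 109047230, 71759053, 1433985, 1433985⟩] },
  { a1 := 670, a2 := 734, ZB := 3107, ZT := 5000, L5 := 35282, H12 := 1608332, H3 := 1116, ua := 670, ub := 64, uZ := 1182,
    t1 := 81764, t2 := 31050001, t3 := 115869314,
    cells := [
      ⟨3107, 5000, 103889519, 111099730, 64556935, 955990, 955990⟩] },
  { a1 := 734, a2 := 768, ZB := 3393, ZT := 5000, L5 := 24414, H12 := 1472982, H3 := 551, ua := 734, ub := 64, uZ := 1126,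
    t1 := 40843, t2 := 29413653, t3 := 115758878,
    cells := [
      ⟨3393, 5000, 103027411, 109601956, 69914388, 770734, 770734⟩] }
]

theorem tabB_ok : (chainB SB.a1 SB.a2 481 768 tabB && tabB.all SB.ok) = true := by
  decide +kernel

private theorem tb5 {b q : ℝ} (hb : 1 < b) (h : b ≤ q) : b ^ 2 ≤ q ^ 2 := by
  nlinarith

private theorem tb6 {b : ℝ} (hb : 1 < b) : 0 < b ^ 2 - 1 := by
  nlinarith

private theorem tb7 {b q z : ℝ} (hz : 0 < z) (h2 : b ^ 2 ≤ q ^ 2) :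
    (q ^ 2 * z + 1) * ((b ^ 2 - 1) * z) ≤ (b ^ 2 * z + 1) * ((q ^ 2 - 1) * z) := by
  have h3 : 0 ≤ (q ^ 2 - b ^ 2) * (z ^ 2 + z) := mul_nonneg (by linarith) (by positivity)
  nlinarith

private theorem tb8 {b z : ℝ} (hz : 0 < z) : 1 * ((b ^ 2 - 1) * z) ≤ b ^ 2 * z + 1 := by
  nlinarith

theorem HH_of {q b1 b2 z H12 H3 : ℝ} (hb : 2 ≤ b1) (h1 : b1 ≤ q) (h2 : q ≤ b2) (hz : 0 < z)
    (f1 : ((b1 ^ 2 * z + 1) / ((b1 ^ 2 - 1) * z)) ^ (b2 + 1) ≤ H12)
    (f2 : (2 * (1 - 1 / b1)) ^ (-(b1 + 1)) ≤ H3) (h : 2 * z * H12 + 2 / b1 * H3 ≤ 1) :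
    HH q z := by
  have hb1' : 1 < b1 := by linarith
  have hq1' : 1 < q := by linarith
  have hq0' : 0 < q := by linarith
  have hb1sq : 0 < b1 ^ 2 - 1 := tb6 hb1'
  have hqsq : 0 < q ^ 2 - 1 := tb6 hq1'
  have hR1one : 1 ≤ (b1 ^ 2 * z + 1) / ((b1 ^ 2 - 1) * z) := by
    rw [le_div_iff₀ (by positivity)]
    exact tb8 hz
  unfold HH
  have y1 : (1 + 1 / (q ^ 2 * z)) / (1 - 1 / q ^ 2) = (q ^ 2 * z + 1) / ((q ^ 2 - 1) * z) := by
    have h2 : 0 < 1 - 1 / q ^ 2 := by
      rw [sub_pos, div_lt_one (by positivity)]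
      linarith
    rw [div_eq_div_iff h2.ne' (by positivity)]
    field_simp
  have y2 : (q ^ 2 * z + 1) / ((q ^ 2 - 1) * z) ≤ (b1 ^ 2 * z + 1) / ((b1 ^ 2 - 1) * z) := by
    rw [div_le_div_iff₀ (by positivity) (by positivity)]
    exact tb7 hz (tb5 hb1' h1)
  have y3 : ((q ^ 2 * z + 1) / ((q ^ 2 - 1) * z)) ^ (q + 1) ≤ H12 := by
    refine le_trans (Real.rpow_le_rpow (by positivity) y2 (by linarith)) ?_
    exact le_trans (Real.rpow_le_rpow_of_exponent_le hR1one (by linarith)) f1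
  have y4 : (2 * (1 - 1 / q)) ^ (-(q + 1)) ≤ H3 := by
    have h2 : (1 : ℝ) / q ≤ 1 / b1 := one_div_le_one_div_of_le (by linarith) h1
    have h4 : (1 : ℝ) / b1 ≤ 1 / 2 := by
      rw [div_le_div_iff₀ (by linarith) (by norm_num)]
      linarith
    refine le_trans ?_ f2
    refine le_trans (Real.rpow_le_rpow_of_nonpos (by linarith)
      (show 2 * (1 - 1 / b1) ≤ 2 * (1 - 1 / q) by linarith) (by linarith)) ?_
    exact Real.rpow_le_rpow_of_exponent_le (by linarith) (by linarith)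
  have y5 : 2 / q ≤ 2 / b1 := div_le_div_of_nonneg_left (by norm_num) (by linarith) h1
  have y6 : 2 / q * (2 * (1 - 1 / q)) ^ (-(q + 1)) ≤ 2 / b1 * H3 :=
    mul_le_mul y5 y4 (by
      have : (1 : ℝ) / q ≤ 1 := (div_le_one hq0').2 hq1'.le
      exact Real.rpow_nonneg (by linarith) _) (by positivity)
  have y7 : 2 * z * ((1 + 1 / (q ^ 2 * z)) / (1 - 1 / q ^ 2)) ^ (q + 1) ≤ 2 * z * H12 := by
    rw [y1]
    exact mul_le_mul_of_nonneg_left y3 (by positivity)
  linarith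

theorem CB.sound {a2 L5 U : ℕ} {c : CB} (hc : c.ok a2 L5 U = true)
    (hL5 : (L5 : ℝ) / 10 ^ 8 ≤ 2 ^ (-((a2 : ℝ) / 64))) {q z1 z2 : ℝ} (hq : 0 < q)
    (hqa : q ≤ (a2 : ℝ) / 64) (h1 : 0 ≤ z1) (h12 : z1 < z2) (hz : (c.Za : ℝ) / 10 ^ 4 ≤ z2)
    (hz' : z2 ≤ (c.Zb : ℝ) / 10 ^ 4) : (U : ℝ) / 10 ^ 8 < ee q z1 z2 := by
  unfold CB.ok at hc
  simp only [Bool.and_eq_true] at hc
  obtain ⟨⟨⟨⟨⟨⟨⟨⟨⟨⟨g1, g2⟩, g3⟩, g4⟩, g5⟩, g6⟩, g7⟩, g8⟩, g9⟩, g10⟩, g11⟩ := hc
  have hZa : 1 ≤ c.Za := Nat.le_of_ble_eq_true g1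
  have hZab : c.Za ≤ c.Zb := Nat.le_of_ble_eq_true g2
  have hZb : c.Zb ≤ 5000 := Nat.le_of_ble_eq_true g3
  have hA : 1 ≤ c.A := Nat.le_of_ble_eq_true g4
  have hZb2 : 2 * c.Zb ^ 2 < 2 * 10 ^ 8 := by
    have h2 : c.Zb ^ 2 ≤ 5000 ^ 2 := Nat.pow_le_pow_left hZb 2
    omega
  have e5 := lo_of_loB (by norm_num) (by omega) (by norm_num) (by omega) g5
  have e6 := lo_of_loB (by positivity) (by positivity) (by norm_num) (by norm_num) g6
  have e7 := lo_of_loB (by omega) (by norm_num) (by norm_num) (by norm_num) g7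
  have e8 := lo_of_loB (by omega) (by norm_num) (by norm_num) (by norm_num) g8
  have e9 := lo_of_loB (by omega) (by norm_num) (by norm_num) (by norm_num) g9
  have hZaR : (1 : ℝ) ≤ c.Za := by exact_mod_cast hZa
  have hAR : (1 : ℝ) ≤ c.A := by exact_mod_cast hA
  have hZbR : (c.Zb : ℝ) ≤ 5000 := by exact_mod_cast hZb
  have hZabR : (c.Za : ℝ) ≤ c.Zb := by exact_mod_cast hZab
  set Q : ℝ := (a2 : ℝ) / 64 with hQ
  set z : ℝ := (c.Za : ℝ) / 10 ^ 4 with hzdef
  set zb : ℝ := (c.Zb : ℝ) / 10 ^ 4 with hzb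
  set A : ℝ := (c.A : ℝ) / 10 ^ 8 with hAdef
  have hz0 : 0 < z := by rw [hzdef]; positivity
  have hzb1 : zb ≤ 1 / 2 := by rw [hzb]; linarith
  have hzzb : z ≤ zb := by rw [hzdef, hzb]; linarith
  have hA0 : 0 < A := by rw [hAdef]; positivity
  have hQ0 : 0 < Q := lt_of_lt_of_le hq hqa
  -- rewriting the bases
  have b5 : ((10 ^ 8 : ℕ) : ℝ) / (c.A : ℝ) = A⁻¹ := by
    rw [hAdef]; simp only [Nat.cast_pow, Nat.cast_ofNat, Nat.cast_mul, Nat.cast_add, Nat.cast_one]; rw [inv_div]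
  have b6 : (((10 ^ 4 + c.Za) * 10 ^ 8 : ℕ) : ℝ) / ((10 ^ 12 + c.A * c.Za : ℕ) : ℝ) =
      (1 + z) / (1 + A * z) := by
    rw [hAdef, hzdef]
    simp only [Nat.cast_pow, Nat.cast_ofNat, Nat.cast_mul, Nat.cast_add, Nat.cast_one]
    have : (0 : ℝ) < 10 ^ 12 + c.A * c.Za := by positivity
    have h2 : (0 : ℝ) < 1 + (c.A : ℝ) / 10 ^ 8 * ((c.Za : ℝ) / 10 ^ 4) := by positivity
    rw [div_eq_div_iff this.ne' h2.ne']
    ring
  have b8 : ((2 * 10 ^ 8 - 2 * c.Zb ^ 2 : ℕ) : ℝ) / ((10 ^ 8 : ℕ) : ℝ) = 2 - 2 * zb ^ 2 := by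
    rw [Nat.cast_sub hZb2.le, hzb]
    simp only [Nat.cast_pow, Nat.cast_ofNat, Nat.cast_mul, Nat.cast_add, Nat.cast_one]
    ring
  have b9 : ((10 ^ 4 + c.Zb : ℕ) : ℝ) / ((10 ^ 4 : ℕ) : ℝ) = 1 + zb := by
    rw [hzb]; simp only [Nat.cast_pow, Nat.cast_ofNat, Nat.cast_mul, Nat.cast_add, Nat.cast_one]; ring
  have b10 : (((a2 + 64 : ℕ) : ℝ) / ((64 : ℕ) : ℝ)) = Q + 1 := by
    rw [hQ]; simp only [Nat.cast_pow, Nat.cast_ofNat, Nat.cast_mul, Nat.cast_add, Nat.cast_one]; ring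
  have b11 : ((64 : ℕ) : ℝ) = 64 := by norm_num
  have b12 : (c.A : ℝ) / ((10 ^ 8 : ℕ) : ℝ) = A := by
    rw [hAdef, Nat.cast_pow, Nat.cast_ofNat]
  rw [b10, b5] at e5
  rw [b6, b11] at e6
  rw [b12, b11] at e7
  rw [b8, b11] at e8
  rw [b9, b11] at e9
  have hAp : 1 ≤ A ^ (Q + 1) * (2 * z) := by
    have h2 : (A⁻¹) ^ (-(Q + 1)) = A ^ (Q + 1) := by
      rw [Real.rpow_neg (by positivity), Real.inv_rpow hA0.le, inv_inv]
    rw [h2] at e5
    have h3 : ((10 ^ 4 : ℕ) : ℝ) / ((2 * c.Za : ℕ) : ℝ) = 1 / (2 * z) := by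
      rw [hzdef]; simp only [Nat.cast_pow, Nat.cast_ofNat, Nat.cast_mul, Nat.cast_add, Nat.cast_one]
      have : (0 : ℝ) < c.Za := by positivity
      field_simp
    rw [h3, div_le_iff₀ (by positivity)] at e5
    exact e5
  -- the certificate
  have c1 := cell_lower (q := q) (qb := Q) (z1 := z1) (z2 := z2) (za := z) (zb := zb) (a := A)
    hq hqa h1 (by linarith) hz0 hz hz' hzb1 hA0 hAp
  unfold BB at c1
  -- the numerical inequality
  set W : ℝ := ((1 + z) / (1 + A * z)) ^ (-Q) with hW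
  set Y : ℝ := A ^ (-Q) with hY
  have n1 : (c.L1 : ℝ) / 10 ^ 8 ≤ W := by
    have := e6; simp only [Nat.cast_pow, Nat.cast_ofNat, Nat.cast_mul, Nat.cast_add, Nat.cast_one] at this; exact this
  have n2 : (c.L2 : ℝ) / 10 ^ 8 ≤ Y := by
    have := e7; simp only [Nat.cast_pow, Nat.cast_ofNat, Nat.cast_mul, Nat.cast_add, Nat.cast_one] at this; exact this
  have n3 : (c.L3 : ℝ) / 10 ^ 8 ≤ (2 - 2 * zb ^ 2) ^ (-Q) := by
    have := e8; simp only [Nat.cast_pow, Nat.cast_ofNat, Nat.cast_mul, Nat.cast_add, Nat.cast_one] at this; exact this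
  have n4 : (c.L4 : ℝ) / 10 ^ 8 ≤ (1 + zb) ^ (-Q) := by
    have := e9; simp only [Nat.cast_pow, Nat.cast_ofNat, Nat.cast_mul, Nat.cast_add, Nat.cast_one] at this; exact this
  have hbr := Nat.le_of_ble_eq_true g10
  have hfin := Nat.le_of_ble_eq_true g11
  have hbrR : (a2 : ℝ) * (10 ^ 12 + c.Za * c.A) ≤ (a2 + 64) * (2 * 10 ^ 8 + c.L2) * 5000 := by
    exact_mod_cast hbr
  have hfinR : (U : ℝ) * 10 ^ 12 * 64 + 4 * c.L1 * (a2 * (10 ^ 12 + c.Za * c.A)) + 1 ≤
      4 * c.L1 * ((a2 + 64) * (2 * 10 ^ 8 + c.L2) * 5000) +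
        (c.L3 + 2 * c.L4 + L5) * 10 ^ 12 * 64 := by
    exact_mod_cast hfin
  set X : ℝ := (Q + 1) * (1 + (c.L2 : ℝ) / 10 ^ 8 / 2) - Q * (1 + z * A) with hX
  have hXeq : X = ((a2 + 64) * (2 * 10 ^ 8 + c.L2) * 5000 - (a2 : ℝ) * (10 ^ 12 + c.Za * c.A)) /
      (64 * 10 ^ 12) := by
    rw [hX, hQ, hzdef, hAdef]; ring
  have hX0 : 0 ≤ X := by
    rw [hXeq]
    exact div_nonneg (by linarith) (by norm_num)
  have hXle : X ≤ (Q + 1) * (1 + Y / 2) - Q * (1 + z * A) := by
    rw [hX]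
    have : (Q + 1) * (1 + (c.L2 : ℝ) / 10 ^ 8 / 2) ≤ (Q + 1) * (1 + Y / 2) :=
      mul_le_mul_of_nonneg_left (by linarith) (by linarith)
    linarith
  have hW0 : 0 ≤ W := by
    rw [hW]; positivity
  have m1 : 4 * ((c.L1 : ℝ) / 10 ^ 8) * X ≤ 4 * W * ((Q + 1) * (1 + Y / 2) - Q * (1 + z * A)) := by
    have h3 : 4 * ((c.L1 : ℝ) / 10 ^ 8) * X ≤ 4 * W * X :=
      mul_le_mul_of_nonneg_right (by linarith) hX0
    have h4 : 4 * W * X ≤ 4 * W * ((Q + 1) * (1 + Y / 2) - Q * (1 + z * A)) :=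
      mul_le_mul_of_nonneg_left hXle (by linarith)
    exact h3.trans h4
  have m2 : (U : ℝ) / 10 ^ 8 < 4 * ((c.L1 : ℝ) / 10 ^ 8) * X + (c.L3 : ℝ) / 10 ^ 8 +
      2 * ((c.L4 : ℝ) / 10 ^ 8) + (L5 : ℝ) / 10 ^ 8 := by
    rw [hXeq]
    have h5 : 4 * ((c.L1 : ℝ) / 10 ^ 8) * (((a2 + 64) * (2 * 10 ^ 8 + c.L2) * 5000 -
        (a2 : ℝ) * (10 ^ 12 + c.Za * c.A)) / (64 * 10 ^ 12)) + (c.L3 : ℝ) / 10 ^ 8 +
        2 * ((c.L4 : ℝ) / 10 ^ 8) + (L5 : ℝ) / 10 ^ 8 =
        (4 * c.L1 * ((a2 + 64) * (2 * 10 ^ 8 + c.L2) * 5000) +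
          (c.L3 + 2 * c.L4 + L5) * 10 ^ 12 * 64 -
          4 * c.L1 * (a2 * (10 ^ 12 + c.Za * c.A))) / (10 ^ 8 * (64 * 10 ^ 12)) := by
      ring
    rw [h5, lt_div_iff₀ (by norm_num)]
    have h6 : (U : ℝ) / 10 ^ 8 * (10 ^ 8 * (64 * 10 ^ 12)) = U * 10 ^ 12 * 64 := by ring
    rw [h6]
    linarith
  linarith

theorem SB.sound {s : SB} (hs : s.ok = true) {q : ℝ} (hq1 : (s.a1 : ℝ) / 64 ≤ q)
    (hq2 : q ≤ (s.a2 : ℝ) / 64) (hq0 : 7705 / 1024 ≤ q) :
    ∃ zb : ℝ, 1 / q ≤ zb ∧ zb < 9 / 20 ∧ HH q zb ∧ ∀ z1 z2 : ℝ, 0 ≤ z1 → z1 < z2 → z2 ≤ 1 / 2 →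
      (q ≤ 253 / 32 → z2 ≤ 9 / 20) → zb ≤ z2 → Beat q (ee q z1 z2) := by
  unfold SB.ok at hs
  simp only [Bool.and_eq_true] at hs
  obtain ⟨⟨⟨⟨⟨⟨⟨⟨⟨⟨⟨⟨⟨g1, g2⟩, g3⟩, g4⟩, g5⟩, g6⟩, g7⟩, g8⟩, g9⟩, g10⟩, g11⟩, g12⟩, g13⟩,
    g14⟩ := hs
  have k1 := Nat.le_of_ble_eq_true g1
  have k3 := Nat.le_of_ble_eq_true g3
  have k4 := Nat.le_of_ble_eq_true g4
  have k12 := Nat.le_of_ble_eq_true g12
  have kZ : 0 < s.ZB := by
    rcases Nat.eq_zero_or_pos s.ZB with h0 | h0
    · rw [h0] at k12; omega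
    · exact h0
  have k5 : (s.ZT = 5000 ∨ (s.ZT = 4500 ∧ s.a2 ≤ 506)) := by
    rw [Bool.or_eq_true] at g5
    rcases g5 with h | h
    · exact Or.inl (Nat.eq_of_beq_eq_true h)
    · rw [Bool.and_eq_true] at h
      exact Or.inr ⟨Nat.eq_of_beq_eq_true h.1, Nat.le_of_ble_eq_true h.2⟩
  have hq0' : 0 < q := by linarith
  have k1R : (128 : ℝ) ≤ s.a1 := by exact_mod_cast k1
  have kZR : (0 : ℝ) < s.ZB := by exact_mod_cast kZ
  set b1 : ℝ := (s.a1 : ℝ) / 64 with hb1
  set b2 : ℝ := (s.a2 : ℝ) / 64 with hb2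
  set zb : ℝ := (s.ZB : ℝ) / 10 ^ 4 with hzb
  have hzb0 : 0 < zb := by rw [hzb]; positivity
  have hb2' : 2 ≤ b1 := by rw [hb1]; rw [le_div_iff₀ (by norm_num)]; linarith
  have hb1' : 1 < b1 := by linarith
  refine ⟨zb, ?_, ?_, ?_, ?_⟩
  · have k12R : (64 : ℝ) * 10 ^ 4 ≤ s.a1 * s.ZB := by exact_mod_cast k12
    have h3 : 1 ≤ b1 * zb := by
      rw [hb1, hzb]
      have : (s.a1 : ℝ) / 64 * ((s.ZB : ℝ) / 10 ^ 4) = s.a1 * s.ZB / (64 * 10 ^ 4) := by ring
      rw [this, le_div_iff₀ (by norm_num)]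
      linarith
    rw [div_le_iff₀ hq0', mul_comm]
    exact h3.trans (mul_le_mul_of_nonneg_right hq1 hzb0.le)
  · have : (s.ZB : ℝ) + 1 ≤ 4500 := by exact_mod_cast k4
    rw [hzb, div_lt_iff₀ (by norm_num)]
    linarith
  · -- the condition `(H)`
    have hsq : 64 ^ 2 < s.a1 ^ 2 := Nat.pow_lt_pow_left (by omega) (by norm_num)
    have f1 := hi_of_hiB (Nat.mul_pos (Nat.sub_pos_of_lt hsq) kZ)
      (Nat.add_pos_right _ (by norm_num)) (by norm_num) (by norm_num) g9
    have f2 := hi_of_hiB (by omega) (by omega) (by norm_num) (by norm_num) g10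
    have x1 : (((s.a1 ^ 2 - 64 ^ 2) * s.ZB : ℕ) : ℝ) /
        ((s.a1 ^ 2 * s.ZB + 64 ^ 2 * 10 ^ 4 : ℕ) : ℝ) =
          ((b1 ^ 2 * zb + 1) / ((b1 ^ 2 - 1) * zb))⁻¹ := by
      rw [inv_div, Nat.cast_mul, Nat.cast_sub hsq.le, hb1, hzb]
      simp only [Nat.cast_pow, Nat.cast_ofNat, Nat.cast_mul, Nat.cast_add]
      have h2 : (0 : ℝ) < (s.a1 : ℝ) ^ 2 * s.ZB + 64 ^ 2 * 10 ^ 4 := by positivity
      have h3 : (0 : ℝ) < ((s.a1 : ℝ) / 64) ^ 2 * ((s.ZB : ℝ) / 10 ^ 4) + 1 := by positivity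
      rw [div_eq_div_iff h2.ne' h3.ne']
      ring
    have x2 : ((s.a2 + 64 : ℕ) : ℝ) / ((64 : ℕ) : ℝ) = b2 + 1 := by
      rw [hb2]; simp only [Nat.cast_ofNat, Nat.cast_add]; ring
    have x3 : ((s.a1 + 64 : ℕ) : ℝ) / ((64 : ℕ) : ℝ) = b1 + 1 := by
      rw [hb1]; simp only [Nat.cast_ofNat, Nat.cast_add]; ring
    have x4 : ((2 * (s.a1 - 64) : ℕ) : ℝ) / (s.a1 : ℝ) = 2 * (1 - 1 / b1) := by
      rw [Nat.cast_mul, Nat.cast_sub (by omega), hb1]
      simp only [Nat.cast_ofNat]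
      have : (0 : ℝ) < s.a1 := by linarith
      field_simp
    rw [x1, x2] at f1
    rw [x4, x3] at f2
    have hR1p : 0 ≤ (b1 ^ 2 * zb + 1) / ((b1 ^ 2 - 1) * zb) := by
      have := tb6 hb1'
      positivity
    have f1' : ((b1 ^ 2 * zb + 1) / ((b1 ^ 2 - 1) * zb)) ^ (b2 + 1) ≤ (s.H12 : ℝ) / 10 ^ 6 := by
      rw [Real.rpow_neg (inv_nonneg.2 hR1p), Real.inv_rpow hR1p, inv_inv, Nat.cast_pow,
        Nat.cast_ofNat] at f1
      exact f1
    have f2' : (2 * (1 - 1 / b1)) ^ (-(b1 + 1)) ≤ (s.H3 : ℝ) / 10 ^ 6 := by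
      rw [Nat.cast_pow, Nat.cast_ofNat] at f2
      exact f2
    refine HH_of hb2' hq1 hq2 hzb0 f1' f2' ?_
    have k11 := Nat.le_of_ble_eq_true g11
    have k11R : 2 * (s.ZB : ℝ) * s.H12 * s.a1 + 2 * 64 * s.H3 * 10 ^ 4 ≤ 10 ^ 10 * s.a1 := by
      exact_mod_cast k11
    have h2 : 2 * zb * ((s.H12 : ℝ) / 10 ^ 6) + 2 / b1 * ((s.H3 : ℝ) / 10 ^ 6) =
        (2 * (s.ZB : ℝ) * s.H12 * s.a1 + 2 * 64 * s.H3 * 10 ^ 4) / (10 ^ 10 * s.a1) := by
      rw [hzb, hb1]
      have : (0 : ℝ) < s.a1 := by linarith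
      field_simp
    rw [h2]
    exact (div_le_one (by positivity)).2 k11R
  · intro z1 z2 h1 h12 hz2 hzz hzb2
    have hK : (0 : ℝ) < 10 ^ 4 := by norm_num
    have hcov : z2 ≤ (s.ZT : ℝ) / 10 ^ 4 := by
      rcases k5 with h | ⟨h, h'⟩
      · rw [h]; norm_num; linarith
      · rw [h]
        have h'' : (s.a2 : ℝ) ≤ 506 := by exact_mod_cast h'
        have : q ≤ 253 / 32 := by
          refine hq2.trans ?_
          rw [hb2, div_le_iff₀ (by norm_num)]
          linarith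
        have := hzz this
        norm_num
        linarith
    have hall := List.all_eq_true.1 g14
    obtain ⟨c, hc, hc1, hc2⟩ := chain_find CB.Za CB.Zb hK g13 k3 (by
      intro c hc
      have h3 := hall c hc
      unfold CB.ok at h3
      simp only [Bool.and_eq_true] at h3
      obtain ⟨⟨⟨⟨⟨⟨⟨⟨⟨⟨_, h4⟩, _⟩, _⟩, _⟩, _⟩, _⟩, _⟩, _⟩, _⟩, _⟩ := h3
      exact Nat.le_of_ble_eq_true h4) hzb2 hcov
    have hL5 := lo_of_loB (by norm_num) (by norm_num) (by norm_num) (by norm_num) g8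
    have hL5' : (s.L5 : ℝ) / 10 ^ 8 ≤ 2 ^ (-((s.a2 : ℝ) / 64)) := by
      have := hL5
      simp only [Nat.cast_pow, Nat.cast_ofNat, Nat.cast_mul, Nat.cast_add, Nat.cast_one] at this
      simpa using this
    have h5 := CB.sound (hall c hc) hL5' hq0' hq2 h1 h12 hc1 hc2
    have hu : (s.ua : ℝ) / s.ub ≤ q := by
      have hub : 1 ≤ s.ub := ub_of_uB_pos g6
      have hubR : (1 : ℝ) ≤ s.ub := by exact_mod_cast hub
      rw [Bool.or_eq_true] at g7
      rcases g7 with h | h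
      · have h7 : s.ua * 64 ≤ s.a1 * s.ub := Nat.le_of_ble_eq_true h
        have h7' : (s.ua : ℝ) * 64 ≤ s.a1 * s.ub := by exact_mod_cast h7
        refine le_trans ?_ hq1
        rw [hb1, div_le_div_iff₀ (by linarith) (by norm_num)]
        exact h7'
      · rw [Bool.and_eq_true] at h
        rw [Nat.eq_of_beq_eq_true h.1, Nat.eq_of_beq_eq_true h.2]
        exact_mod_cast hq0
    exact (UB_of_uB g6 hu).beat h5

/-- Table B (`tabB.py`, `tabB.json`): 15 slabs `[a1/64, a2/64]` covering `[7705/1024, 12]`.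
For `q` in a slab: `z2 ≤ ZB/10^4`: `HH q zb` from the integer checks `H12`, `H3`
(`(1+1/(q²zb))/(1-1/q²) = (q²zb+1)/((q²-1)zb) ≤ n/m`, `n = a1² ZB + b² 10^4`,
`m = (a1²-b²) ZB`, `(n/m)^((a2+b)/b) ≤ H12/10^6`, `(2(a1-b)/a1)^(-(a1+b)/b) ≤ H3/10^6`,
`2 ZB H12 a1 + 2 b H3 10^4 ≤ 10^10 a1`, and `ZB a1 ≥ b 10^4`);
`ZB/10^4 ≤ z2 ≤ ZT/10^4`: the cell of `z2`, `cell_lower` with `a = AR/10^8`; `U` is an upper bound
of `ph` for `q ≥ a1/64` (`ph_ub_of_check`, `UB_of`; first slab: `ub_q0`). -/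
theorem tabB_sound {q z1 z2 : ℝ} (h1 : 7705 / 1024 ≤ q) (h2 : q ≤ 12) (hz0 : 0 ≤ z1)
    (hz1 : z1 < z2) (hz2 : z2 ≤ 1 / 2) :
    (∃ zb, z2 ≤ zb ∧ 1 / q ≤ zb ∧ zb < 1 ∧ HH q zb) ∨
    (q ≤ 253 / 32 ∧ 9 / 20 ≤ z2) ∨ Beat q (ee q z1 z2) := by
  have h := tabB_ok
  rw [Bool.and_eq_true] at h
  have hall := List.all_eq_true.1 h.2
  obtain ⟨s, hs, hs1, hs2⟩ := chain_find (K := 64) SB.a1 SB.a2 (by norm_num) h.1 (by norm_num) (by
      intro c hc
      have h3 := hall c hc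
      unfold SB.ok at h3
      simp only [Bool.and_eq_true] at h3
      obtain ⟨⟨⟨⟨⟨⟨⟨⟨⟨⟨⟨⟨⟨_, h4⟩, _⟩, _⟩, _⟩, _⟩, _⟩, _⟩, _⟩, _⟩, _⟩, _⟩, _⟩, _⟩ := h3
      exact Nat.le_of_ble_eq_true h4) (x := q) (by norm_num; linarith) (by norm_num; linarith)
  obtain ⟨zb, k1, k2, k3, k4⟩ := SB.sound (hall s hs) hs1 hs2 h1
  rcases le_total z2 zb with h5 | h5
  · exact Or.inl ⟨zb, h5, k1, by linarith, k3⟩
  · by_cases h6 : q ≤ 253 / 32 ∧ 9 / 20 ≤ z2
    · exact Or.inr (Or.inl h6)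
    · refine Or.inr (Or.inr (k4 z1 z2 hz0 hz1 hz2 ?_ h5))
      intro h7
      by_contra h8
      exact h6 ⟨h7, (not_le.1 h8).le⟩

end Pool.Agent.RieszFive
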